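import Pool.Agent.MP_f3836a_nt.GP.Base

/-! Simultaneous approximation at finitely many points. -/

set_option autoImplicit false

namespace Pool.Agent.MP_f3836a_nt.GP

open Polynomial IsLocalRing PK VE.W VE.Z Finset Filter

namespace GCrt

variable {K : Type} [Field K]

theorem alg {T : Finset (Subring K)} (loc : ∀ S ∈ T, IsLocalRing S) (t P Q a : Subring K → K)
    (R : Subring K → Subring K → K) (N : ℕ) (t0 : ∀ S ∈ T, t S ≠ 0) (ha : ∀ S ∈ T, a S ∈ S)
    (hP : ∀ S ∈ T, ∀ S' ∈ T, P S' / t S ∈ S) (hQ : ∀ S ∈ T, ∀ S' ∈ T, Q S' / t S ∈ S)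
    (hR : ∀ S ∈ T, ∀ S' ∈ T, ∀ S'' ∈ T, S'' ≠ S' → R S' S'' / t S ∈ S)
    (hu : ∀ S ∈ T, Ut S (Q S / t S) ∧ a S * Q S = P S)
    (hn : ∀ S ∈ T, ∀ S' ∈ T, S' ≠ S → Ut S (R S S' / t S) ∧ Nu S' (R S S' / t S')) :
    ∃ w, ∀ S ∈ T, w ∈ S ∧ Pw S N (w - a S) := by
  classical
  refine ⟨(∑ S ∈ T, (∏ S' ∈ T.erase S, R S S' ^ (N + 1)) * P S) /
    ∑ S ∈ T, (∏ S' ∈ T.erase S, R S S' ^ (N + 1)) * Q S, fun S hS => ?_⟩
  have := loc S hS
  set g : Subring K → K := fun S' => ∏ S'' ∈ T.erase S', (R S' S'' / t S) ^ (N + 1) with hg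
  have e1 : ∀ F : Subring K → K, ∑ S' ∈ T, (∏ S'' ∈ T.erase S', R S' S'' ^ (N + 1)) * F S' =
      (∑ S' ∈ T, g S' * (F S' / t S)) * ((t S ^ (N + 1)) ^ (T.card - 1) * t S) := fun F => by
    rw [sum_mul]
    refine sum_congr rfl fun S' h => ?_
    have := t0 S hS
    simp only [hg, div_pow, prod_div_distrib, prod_const, card_erase_of_mem h]
    field_simp
  rw [e1, e1, mul_div_mul_right _ _ (mul_ne_zero (pow_ne_zero _ (pow_ne_zero _ (t0 S hS))) (t0 S hS))]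
  have g1 : ∀ S' ∈ T, S' ≠ S → ∃ s c, Nu S s ∧ Nu S c ∧ g S' = s ^ N * c := fun S' h h' => by
    have k := (hn S' h S hS h'.symm).2
    refine ⟨_, (∏ S'' ∈ (T.erase S').erase S, (R S' S'' / t S) ^ (N + 1)) * (R S' S / t S), k,
      k.mul (prod_mem fun S'' e => ?_), ?_⟩
    · have := mem_erase.1 (mem_of_mem_erase e)
      exact pow_mem (hR S hS S' h S'' this.2 this.1) _
    · simp only [hg]
      rw [← mul_prod_erase _ _ (mem_erase.2 ⟨h'.symm, hS⟩)]
      ring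
  have g2 : Ut S (∑ S' ∈ T, g S' * (Q S' / t S)) := by
    rw [← add_sum_erase _ _ hS]
    refine Ut.add (Ut.mul (prod_induction _ _ (fun _ _ => Ut.mul) ut_one fun S' e =>
      (hn S hS S' (mem_of_mem_erase e) (ne_of_mem_erase e)).1.pow _) (hu S hS).1)
      (sum_induction _ _ (fun _ _ => Nu.add) nu_zero fun S' e => ?_)
    obtain ⟨s, c, h1, h2, h3⟩ := g1 S' (mem_of_mem_erase e) (ne_of_mem_erase e)
    rw [h3, mul_comm]
    exact (h2.mul (pow_mem h1.1 N)).mul (hQ S hS S' (mem_of_mem_erase e))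
  have g3 : Pw S N ((∑ S' ∈ T, g S' * (P S' / t S)) / (∑ S' ∈ T, g S' * (Q S' / t S)) - a S) := by
    rw [div_sub' g2.1, sum_mul, ← sum_sub_distrib, sum_div]
    refine sum_mem fun S' h => ?_
    by_cases e : S' = S
    · rw [e, ← (hu S hS).2, show g S * (a S * Q S / t S) - g S * (Q S / t S) * a S = 0 by ring,
        zero_div]
      exact zero_mem _
    · obtain ⟨s, c, h1, h2, h3⟩ := g1 S' h e
      refine AddSubgroup.subset_closure ⟨s, _, h1, mul_mem (mul_mem h2.1 (sub_mem (hP S hS S' h)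
        (mul_mem (hQ S hS S' h) (ha S hS)))) g2.2.2, ?_⟩
      rw [h3]
      ring
  refine ⟨?_, g3⟩
  rw [div_eq_mul_inv]
  exact mul_mem (sum_mem fun S' h => mul_mem (prod_mem fun S'' e => pow_mem (hR S hS S' h S''
    (mem_of_mem_erase e) (ne_of_mem_erase e)) _) (hP S hS S' h)) g2.2.2

variable {ι : Type} {ξ : ι → K} {η : K} {S : Subring K}

theorem div_mem (h : ∀ j, ξ j / η ∈ S) {d : ℕ} {P : K}
    (hP : P ∈ Submodule.span ℤ (Set.range ξ) ^ d) : P / η ^ d ∈ S := by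
  induction hP using Submodule.pow_induction_on_left' with
  | algebraMap r => simp
  | add x y i _ _ h1 h2 => exact add_div x y _ ▸ add_mem h1 h2
  | mem_mul m hm i x _ h1 =>
    rw [pow_succ', ← div_mul_div_comm]
    refine mul_mem ?_ h1
    induction hm using Submodule.span_induction with
    | mem x e => obtain ⟨j, rfl⟩ := e; exact h j
    | zero => simp
    | add x y _ _ h1 h2 => exact add_div x y _ ▸ add_mem h1 h2
    | smul n x _ h1 => rw [smul_div_assoc]; exact zsmul_mem h1 n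

theorem ev {i : ι} (h0 : ξ i ≠ 0) {B : Subring K} (h : ∀ S, (∀ j, ξ j / ξ i ∈ S) → B ≤ S) {b : K}
    (hb : b ∈ B) : ∀ᶠ d in atTop, b * ξ i ^ d ∈ Submodule.span ℤ (Set.range ξ) ^ d := by
  set L := Submodule.span ℤ (Set.range ξ)
  have m : ∀ j, ξ j ∈ L := fun j => Submodule.subset_span ⟨j, rfl⟩
  have up : ∀ {c : K} {d}, c * ξ i ^ d ∈ L ^ d → ∀ᶠ d in atTop, c * ξ i ^ d ∈ L ^ d :=
    fun {c d} e => (eventually_ge_atTop d).mono fun d' e' => by
      obtain ⟨k, rfl⟩ := Nat.exists_eq_add_of_le e'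
      rw [pow_add, pow_add, ← mul_assoc]
      exact Submodule.mul_mem_mul e (Submodule.pow_mem_pow _ (m i) k)
  refine h
    { carrier := {c | ∀ᶠ d in atTop, c * ξ i ^ d ∈ L ^ d}
      mul_mem' := fun h1 h2 => ?_
      one_mem' := .of_forall fun d => (one_mul (ξ i ^ d)).symm ▸ Submodule.pow_mem_pow _ (m i) d
      add_mem' := fun h1 h2 => (h1.and h2).mono fun d e => (add_mul _ _ (ξ i ^ d)).symm ▸
        add_mem e.1 e.2
      zero_mem' := .of_forall fun d => (zero_mul (ξ i ^ d)).symm ▸ zero_mem _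
      neg_mem' := fun h1 => h1.mono fun d e => (neg_mul _ (ξ i ^ d)).symm ▸ neg_mem e }
    (fun j => up (d := 1) (by simpa [h0] using m j)) hb
  obtain ⟨d, e1, e2⟩ := (h1.and h2).exists
  refine up (d := d + d) ?_
  rw [pow_add, pow_add, mul_mul_mul_comm]
  exact Submodule.mul_mem_mul e1 e2

end GCrt

theorem gCrt : CrtS := by
  intro K ι Pt _ _ _ _ ξ B O κ _ r _ _ D _ T hT anti a N ha
  have h1 := fun S h => (D.cls S).1 (hT S h)
  rcases T.eq_empty_or_nonempty with rfl | ⟨S0, h0⟩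
  · exact ⟨0, by simp⟩
  have : Nonempty ι := ⟨(h1 S0 h0).choose⟩
  choose! i i0 hi using h1
  have le : ∀ S ∈ T, B (i S) ≤ S := fun S h => by
    obtain ⟨q, _, e⟩ := hi S h
    exact (le_lc _ q).trans e.ge
  have dv := fun S h => (D.gen _ S (i0 S h)).1 (le S h)
  have ev := fun S h b (hb : b ∈ B (i S)) =>
    GCrt.ev (i0 S h) (fun S' => (D.gen _ S' (i0 S h)).2) hb
  have fr : ∀ S ∈ T, ∀ z ∈ S, ∃ x ∈ B (i S), ∃ y ∈ B (i S), Ut S y ∧ z * y = x := fun S h z hz => by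
    obtain ⟨q, _, e⟩ := hi S h
    obtain ⟨x, y, hy, e'⟩ := mem_lc.1 (e.le hz)
    exact ⟨x, x.2, y, y.2, ((zb_ut y).2 hy).mono e.ge, e'⟩
  set L := Submodule.span ℤ (Set.range ξ)
  have c : ∀ S ∈ T, ∀ (y : K) (d : ℕ), y * ξ (i S) ^ d / ξ (i S) ^ d = y := fun S h y d =>
    mul_div_cancel_right₀ y (pow_ne_zero d (i0 S h))
  have hA : ∀ S ∈ T, ∀ᶠ d in atTop, ∃ P ∈ L ^ d, ∃ Q ∈ L ^ d,
      Ut S (Q / ξ (i S) ^ d) ∧ a S * Q = P := fun S h => by
    obtain ⟨x, hx, y, hy, u, e⟩ := fr S h _ (ha S h)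
    filter_upwards [ev S h x hx, ev S h y hy] with d e1 e2
    exact ⟨_, e1, _, e2, (c S h y d).symm ▸ u, by rw [← mul_assoc, e]⟩
  have hB : ∀ S ∈ T, ∀ S' ∈ T, ∀ᶠ d in atTop, S' ≠ S → ∃ R ∈ L ^ d,
      Ut S (R / ξ (i S) ^ d) ∧ Nu S' (R / ξ (i S') ^ d) := fun S h S' h' => by
    by_cases hne : S' = S
    · exact .of_forall fun _ e => absurd hne e
    obtain ⟨y, hy, u, n⟩ : ∃ y ∈ B (i S), Ut S y ∧ Nu S' (y * (ξ (i S) / ξ (i S'))) := by
      rcases nu_or (dv S' h' (i S)) with n | u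
      · exact ⟨1, one_mem _, ut_one, by rwa [one_mul]⟩
      · have b : B (i S) ≤ S' := (D.gen _ _ (i0 S h)).2 fun j => by
          have := mul_mem (dv S' h' j) u.2.2
          rwa [inv_div, div_mul_div_cancel₀ (i0 S' h')] at this
        obtain ⟨z, hz, hz'⟩ := SetLike.not_le_iff_exists.1 fun e => hne (anti S h S' h' e).symm
        obtain ⟨x, hx, y, hy, u', e⟩ := fr S h z hz
        refine ⟨y, hy, u', mul_comm y _ ▸ ((nu_or (b hy)).resolve_right fun k => hz' ?_).mul u.2.1⟩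
        rw [eq_div_of_mul_eq k.1 e, div_eq_mul_inv]
        exact mul_mem (b hx) k.2.2
    filter_upwards [ev S h y hy, eventually_gt_atTop 0] with d e1 e2 _
    obtain ⟨k, rfl⟩ := Nat.exists_eq_succ_of_ne_zero e2.ne'
    refine ⟨_, e1, (c S h y _).symm ▸ u, ?_⟩
    rw [mul_div_assoc, ← div_pow, pow_succ, mul_left_comm]
    exact n.mul (pow_mem (dv S' h' _) k)
  obtain ⟨d, d1, d2⟩ := (((eventually_all_finset T).2 hA).and ((eventually_all_finset T).2
    fun S h => (eventually_all_finset T).2 (hB S h))).exists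
  choose! P hP Q hQ hu using d1
  choose! R hR hn using d2
  refine GCrt.alg (fun S h => ?_) (fun S => ξ (i S) ^ d) P Q a R N
    (fun S h => pow_ne_zero d (i0 S h)) ha (fun S h S' h' => GCrt.div_mem (dv S h) (hP S' h'))
    (fun S h S' h' => GCrt.div_mem (dv S h) (hQ S' h'))
    (fun S h S' h' S'' h'' e => GCrt.div_mem (dv S h) (hR S' h' S'' h'' e)) hu hn
  obtain ⟨z, rfl⟩ := hT S h
  have := D.reg z
  infer_instance

end Pool.Agent.MP_f3836a_nt.GP
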