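import Pool.Agent.MP_f3836a_nt.GP.SpecE

/-! Part GP: the function field of a surface. -/

set_option autoImplicit false

namespace Pool.Agent.MP_f3836a_nt.GP

open Polynomial PK VE.W VE.Z TensorProduct

namespace GDim

/-- a generic closed point -/
theorem gen {A B : Type} [CommRing A] [IsDomain A] [CommRing B] [Algebra A B]
    [Algebra.FiniteType A B] (I : Ideal B) [I.IsPrime] (h : ∀ a, algebraMap A B a ∈ I → a = 0) :
    ∃ J : Ideal B, J.IsPrime ∧ I ≤ J ∧ (∀ a, algebraMap A B a ∈ J → a = 0) ∧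
      ∀ t, ∃ P : A[X], P ≠ 0 ∧ aeval t P ∈ J := by
  have := Algebra.TensorProduct.nontrivial_of_algebraMap_injective_of_isDomain A (FractionRing A)
    (B ⧸ I) (IsFractionRing.injective A _) ((injective_iff_map_eq_zero _).2 fun a ha =>
      h a (Ideal.Quotient.eq_zero_iff_mem.1 ha))
  obtain ⟨n, hn⟩ := Ideal.exists_maximal (FractionRing A ⊗[A] (B ⧸ I))
  let := Ideal.Quotient.field n
  have := finite_of_finite_type_of_isJacobsonRing (FractionRing A)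
    ((FractionRing A ⊗[A] (B ⧸ I)) ⧸ n)
  let g : B →ₐ[A] (FractionRing A ⊗[A] (B ⧸ I)) ⧸ n := (Ideal.Quotient.mkₐ A n).comp
    (Algebra.TensorProduct.includeRight.comp (Ideal.Quotient.mkₐ A I))
  refine ⟨RingHom.ker g, RingHom.ker_isPrime g, fun x hx => ?_, fun a ha => ?_, fun t => ?_⟩
  · simp [g, RingHom.mem_ker, Ideal.Quotient.eq_zero_iff_mem.2 hx]
  · rw [RingHom.mem_ker, g.commutes, IsScalarTower.algebraMap_apply A (FractionRing A),
      map_eq_zero] at ha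
    exact IsFractionRing.injective A _ (ha.trans (map_zero _).symm)
  · obtain ⟨P, h1, h2⟩ := (IsFractionRing.isAlgebraic_iff A (FractionRing A) _).2
      (Algebra.IsAlgebraic.isAlgebraic (g t))
    exact ⟨P, h1, by rw [RingHom.mem_ker, ← aeval_algHom_apply, h2]⟩

/-- a chain of length three -/
theorem chain {B : Type} [CommRing B] [Algebra.FiniteType ℤ B] (I : Ideal B) [hI : I.IsPrime]
    {a b : B} (h : ∀ P : ℤ[X][X], eval₂ (aeval b : ℤ[X] →ₐ[ℤ] B).toRingHom a P ∈ I → P = 0) :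
    ∃ p : LTSeries (PrimeSpectrum B), p.length = 3 := by
  obtain ⟨J, j1, j2, j3, j4⟩ : ∃ J : Ideal B, J.IsPrime ∧ I ≤ J ∧
      (∀ Q : ℤ[X], aeval b Q ∈ J → Q = 0) ∧ ∃ P : ℤ[X][X], P ≠ 0 ∧
        eval₂ (aeval b : ℤ[X] →ₐ[ℤ] B).toRingHom a P ∈ J := by
    let := (aeval b : ℤ[X] →ₐ[ℤ] B).toRingHom.toAlgebra
    have := Algebra.FiniteType.of_restrictScalars_finiteType ℤ ℤ[X] B
    obtain ⟨J, j1, j2, j3, j4⟩ := gen (A := ℤ[X]) I fun Q hQ =>
      C_eq_zero.1 (h (C Q) (by rwa [eval₂_C]))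
    exact ⟨J, j1, j2, j3, j4 a⟩
  obtain ⟨L, l1, l2, l3, l4⟩ := gen (A := ℤ) J fun n hn => C_eq_zero.1 (j3 (C n) (by rwa [aeval_C]))
  obtain ⟨m, m1, m2⟩ := L.exists_le_maximal l1.ne_top
  have := za_fin m
  obtain ⟨p, p1, p2⟩ := za_char m1.isPrime
  refine ⟨LTSeries.mk 3 ![⟨I, hI⟩, ⟨J, j1⟩, ⟨L, l1⟩, ⟨m, m1.isPrime⟩]
    (Fin.strictMono_iff_lt_succ.2 fun i => ?_), rfl⟩
  fin_cases i
  · exact j2.lt_of_ne fun e : I = J => j4.elim fun P k => k.1 (h P (e ▸ k.2))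
  · exact l2.lt_of_ne fun e : J = L => (l4 b).elim fun P k => k.1 (j3 P (e ▸ k.2))
  · exact m2.lt_of_ne fun e : L = m => p1.ne_zero (by simpa using l3 p (by simpa [e] using p2))

variable {K ι Pt : Type} [Field K] [Preorder Pt] {ξ : ι → K} {B : ι → Subring K}
  {O : Pt → Subring K} {κ : Pt → Type} [∀ z, Field (κ z)] {r : ∀ z, O z →+* κ z}

theorem chart (d : DcY ξ B O r) {i : ι} (hi : ξ i ≠ 0) {z : Pt} (h : B i ≤ O z) :
    ∃ (q : Ideal (B i)) (_ : q.IsPrime), O z = lc _ q := by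
  have := (d.reg z).toIsLocalRing
  obtain ⟨q, hq, c⟩ := zb_cen h
  obtain ⟨j, hj, q', _, e⟩ := (d.cls (O z)).1 ⟨z, rfl⟩
  have b := (d.gen i _ hi).1 (le_lc _ q)
  have u : Ut (lc _ q) (ξ j / ξ i) := c.ut (b j) ⟨div_ne_zero hj hi, c.1 (b j), by
    rw [inv_div]
    exact (d.gen j _ hj).1 ((le_lc _ q').trans e.ge) i⟩
  have b' : B j ≤ lc _ q := (d.gen j _ hj).2 fun k => by
    have := mul_mem (b k) u.2.2
    rwa [inv_div, div_mul_div_cancel₀ hi] at this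
  refine ⟨q, hq, le_antisymm (fun w hw => ?_) c.1⟩
  obtain ⟨x, y, hy, e1⟩ := mem_lc.1 (e.le hw)
  have uy : Ut (lc _ q) (y : K) := c.ut (b' y.2) (e ▸ (zb_ut y).2 hy)
  rw [eq_div_of_mul_eq uy.1 e1, div_eq_mul_inv]
  exact mul_mem (b' x.2) uy.2.2

theorem td (d : DcY ξ B O r) (hk : Order.krullDim Pt = 2) : Td K := fun a b => by
  by_contra! h
  obtain ⟨i, hi⟩ := d.ex
  have := d.ft i hi
  obtain ⟨a₁, a₂, a0, ea⟩ := d.fr i hi a
  obtain ⟨b₁, b₂, b0, eb⟩ := d.fr i hi b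
  have u : IsUnit ((B i).subtype (a₂ * b₂)) := (mul_ne_zero a0 b0).isUnit
  let g : Localization.Away (a₂ * b₂) →+* K := IsLocalization.Away.lift _ u
  have k : ∀ (x : K) (y : B i), x * (a₂ * b₂) = y → ∃ t, g t = x := fun x y e =>
    ⟨IsLocalization.mk' _ y ⟨a₂ * b₂, Submonoid.mem_powers _⟩,
      (IsLocalization.lift_mk'_spec _ _ _ _).2 (e.symm.trans (mul_comm _ _))⟩
  obtain ⟨a, rfl⟩ := k a (a₁ * b₂) (by rw [← mul_assoc, ea]; rfl)
  obtain ⟨b, rfl⟩ := k b (a₂ * b₁) (by rw [mul_left_comm, eb]; rfl)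
  have : (Int.castRingHom (Localization.Away (a₂ * b₂))).FiniteType := by
    rw [RingHom.ext_int (Int.castRingHom _) ((algebraMap (B i) _).comp (algebraMap ℤ _))]
    exact (RingHom.finiteType_algebraMap.2 inferInstance).comp (RingHom.finiteType_algebraMap.2 this)
  have : @Algebra.FiniteType ℤ (Localization.Away (a₂ * b₂)) _ _ (Ring.toIntAlgebra _) :=
    (@RingHom.finiteType_algebraMap ℤ _ _ _ (Ring.toIntAlgebra _)).1 this
  have := RingHom.ker_isPrime g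
  obtain ⟨p, hp⟩ := chain (RingHom.ker g) (a := a) (b := b) fun P hP => by_contra fun e => h P e (by
    rw [RingHom.mem_ker, hom_eval₂] at hP
    rw [← hP]
    congr 1
    exact Polynomial.ringHom_ext (fun n => by simp) (by simp))
  choose w hw using fun q : PrimeSpectrum (B i) => (d.cls _).2 ⟨i, hi, q.1, q.2, rfl⟩
  have le : ∀ q q', w q ≤ w q' ↔ q' ≤ q := fun q q' => by
    rw [d.le, hw, hw]
    exact (wLc K _).le _ _
  have s : StrictMono fun q : PrimeSpectrum (Localization.Away (a₂ * b₂)) =>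
      OrderDual.toDual (w (q.comap (algebraMap (B i) _))) := fun q q' l => by
    have : q.comap (algebraMap (B i) _) < q'.comap (algebraMap (B i) _) :=
      (IsLocalization.orderEmbedding (Submonoid.powers (a₂ * b₂)) _).strictMono l
    exact lt_iff_le_not_ge.2 ⟨(le _ _).2 this.le, fun e => this.not_ge ((le _ _).1 e)⟩
  have := (Order.LTSeries.length_le_krullDim p).trans (Order.krullDim_le_of_strictMono _ s)
  rw [Order.krullDim_orderDual, hk, hp] at this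
  exact absurd this (by decide)

theorem tr [CharZero K] (d : DcY ξ B O r) (hk : Order.krullDim Pt = 2) :
    ∃ t : K, Transcendental ℤ t := by
  by_contra! h
  obtain ⟨l, hl⟩ := (Order.le_krullDim_iff (n := 2)).1 hk.ge
  let c : Fin 3 → Pt := fun i => l ⟨i, by omega⟩
  have lt : ∀ i j : Fin 3, i < j → c i < c j := fun i j e => l.strictMono e
  obtain ⟨i, hi, q₀, _, e₀⟩ := (d.cls (O (c 0))).1 ⟨_, rfl⟩
  have b₁ := ((le_lc _ q₀).trans e₀.ge).trans ((d.le _ _).1 (lt 0 1 (by decide)).le)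
  obtain ⟨q₁, _, e₁⟩ := chart d hi b₁
  obtain ⟨q₂, _, e₂⟩ := chart d hi (b₁.trans ((d.le _ _).1 (lt 1 2 (by decide)).le))
  have l₁ : q₁ ≤ q₀ := ((wLc K _).le _ _).1 (e₀ ▸ e₁ ▸ (d.le _ _).1 (lt 0 1 (by decide)).le)
  obtain ⟨x, x1, x2⟩ := SetLike.not_le_iff_exists.1 fun e : q₀ ≤ q₁ => (lt 0 1 (by decide)).not_ge
    ((d.le _ _).2 (e₀ ▸ e₁ ▸ ((wLc K _).le _ _).2 e))
  obtain ⟨y, y1, y2⟩ := SetLike.not_le_iff_exists.1 fun e : q₁ ≤ q₂ => (lt 1 2 (by decide)).not_ge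
    ((d.le _ _).2 (e₁ ▸ e₂ ▸ ((wLc K _).le _ _).2 e))
  have := (B i).subtype.charZero
  have al : ∀ t : B i, IsAlgebraic ℤ t := fun t =>
    (isAlgebraic_algHom_iff (B i).subtype.toIntAlgHom Subtype.val_injective).1 (not_not.1 (h t))
  obtain ⟨P, p1, p2⟩ := al y
  have := Ideal.isPrime_bot (α := B i)
  obtain ⟨n, n1, n2⟩ := za_low (algebraMap ℤ (B i)) ⊥ ⊥ (fun e : y = 0 => y2 (e ▸ q₂.zero_mem)) P
    ⟨_, leadingCoeff_ne_zero.2 p1⟩ (fun c hc => by rw [show c = 0 from hc, map_zero]; exact zero_mem _) p2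
  obtain ⟨p, hp, hp'⟩ := za_prime ‹q₁.IsPrime› n1
    (sup_le bot_le ((Ideal.span_singleton_le_iff_mem _).2 y1) n2)
  obtain ⟨Q, r1, r2⟩ := al x
  obtain ⟨k, Q', rfl, r3⟩ := za_ex (π := C (p : ℤ))
    (by rw [isUnit_C]; exact (Nat.prime_iff_prime_int.1 hp).not_isUnit) r1
  rw [map_mul, map_pow, mul_eq_zero] at r2
  exact za_end hp ‹q₀.IsPrime› l₁ hp' x2 x1 r3 (by
    rw [r2.resolve_left (pow_ne_zero _ (by simpa using hp.ne_zero))]
    exact zero_mem _)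

end GDim

theorem gDim : DimS := by
  intro K ι Pt _ _ _ _ ξ B O κ _ r d hk
  classical
  refine ⟨?_, GDim.td d hk, GDim.tr d hk⟩
  obtain ⟨i, hi⟩ := d.ex
  refine ⟨Finset.univ.image fun j => ξ j / ξ i, eq_top_iff.2 fun z _ => ?_⟩
  have h := (d.gen i (Subfield.closure ((Finset.univ.image fun j => ξ j / ξ i : Finset K) :
    Set K)).toSubring hi).2 fun j => Subfield.subset_closure (by simp)
  obtain ⟨a, b, b0, e⟩ := d.fr i hi z
  rw [eq_div_of_mul_eq b0 e]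
  exact Subfield.div_mem _ (h a.2) (h b.2)

end Pool.Agent.MP_f3836a_nt.GP
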