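import Pool.Agent.MP_f3836a_nt.GP.Base

/-! Part GP: duality. -/

set_option autoImplicit false

namespace Pool.Agent.MP_f3836a_nt.GP

open Polynomial IsLocalRing PK VE.W VE.Z

namespace GDu

variable {K : Type} [Field K]

theorem res_eq (O : Subring K) [IsLocalRing O] {a b : K} (ha : a ∈ O) (hb : b ∈ O) :
    resR O (residue O) a = resR O (residue O) b ↔ Nu O (a - b) := by
  rw [EDVA.res_mem ha, EDVA.res_mem hb, ← sub_eq_zero, ← map_sub, residue_eq_zero_iff,
    mem_maximalIdeal, mem_nonunits_iff]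
  exact (nu_iff (⟨a, ha⟩ - ⟨b, hb⟩ : O)).symm

theorem res_ne (O : Subring K) [IsLocalRing O] {a : K} (ha : Ut O a) :
    resR O (residue O) a ≠ 0 := by
  rw [EDVA.res_mem ha.2.1, Ne, residue_eq_zero_iff, mem_maximalIdeal, mem_nonunits_iff, not_not]
  exact (ut_iff ⟨a, ha.2.1⟩).1 ha

theorem res_one_iff (O : Subring K) [IsLocalRing O] {a : K} (ha : a ∈ O) :
    resR O (residue O) a = 1 ↔ Nu O (a - 1) := by
  rw [← res_eq O ha O.one_mem, EDVA.res_one]

theorem res_prod (O : Subring K) [IsLocalRing O] {S : Type} (f : S → K) (hf : ∀ s, f s ∈ O)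
    (l : List S) : (l.map f).prod ∈ O ∧
      resR O (residue O) (l.map f).prod = (l.map fun s => resR O (residue O) (f s)).prod := by
  induction l with
  | nil => exact ⟨O.one_mem, EDVA.res_one⟩
  | cons s l ih =>
    simp only [List.map_cons, List.prod_cons]
    exact ⟨O.mul_mem (hf s) ih.1, by rw [EDVA.rmul (hf s) ih.1, ih.2]⟩

theorem res_pow (O : Subring K) [IsLocalRing O] {a : K} (ha : a ∈ O) (n : ℕ) :
    resR O (residue O) (a ^ n) = resR O (residue O) a ^ n := by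
  rw [EDVA.res_mem ha, EDVA.res_mem (O.pow_mem ha n), ← map_pow]
  rfl

theorem ex_pow (G : Subgroup Kˣ) (ν : K) (h0 : ν ≠ 0)
    (H : ∀ v, Adr v → (∀ a (h : a ≠ 0), Units.mk0 a h ∈ G → v a = 0) → v ν = 0) :
    ∃ n : ℕ, 0 < n ∧ Units.mk0 ν h0 ^ n ∈ G := by
  classical
  by_contra hn
  obtain ⟨l, hl⟩ := EDual.exists_hom (Additive.ofMul (QuotientGroup.mk' G (Units.mk0 ν h0)))
    fun n h1 e => by
      rw [← ofMul_pow, ← map_pow] at e
      exact hn ⟨n, h1, (QuotientGroup.eq_one_iff _).1 e⟩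
  have := H (fun a => if h : a = 0 then 0 else
    (l (Additive.ofMul (QuotientGroup.mk' G (Units.mk0 a h))) : ℝ)) (fun a b ha hb => by
      simp only [dif_neg ha, dif_neg hb, dif_neg (mul_ne_zero ha hb), Units.mk0_mul, map_mul,
        ofMul_mul, map_add, Rat.cast_add]) fun a h e => by
      have : QuotientGroup.mk' G (Units.mk0 a h) = 1 := (QuotientGroup.eq_one_iff _).2 e
      simp only [dif_neg h, this, ofMul_one, map_zero, Rat.cast_zero]
  rw [dif_neg h0] at this
  exact hl (Rat.cast_eq_zero.1 this)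

/-- the units at the primes dividing `M` -/
def umG (K : Type) [Field K] (M : ℕ) : Subgroup Kˣ where
  carrier := {u | Um M (u : K)}
  one_mem' := ⟨1, one_ne_zero, Nat.coprime_one_left M, by simpa using isIntegral_one,
    by simpa using isIntegral_one⟩
  mul_mem' := by
    rintro a b ⟨n, h1, h2, h3, h4⟩ ⟨n', h1', h2', h3', h4'⟩
    refine ⟨n * n', mul_ne_zero h1 h1', Nat.Coprime.mul_left h2 h2', ?_, ?_⟩
    · exact (by push_cast; ring : ((n * n' : ℕ) : K) * ((a * b : Kˣ) : K) = n * a * (n' * b)) ▸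
        h3.mul h3'
    · exact (by push_cast; ring : ((n * n' : ℕ) : K) * ((a * b : Kˣ) : K)⁻¹ =
        n * (a : K)⁻¹ * (n' * (b : K)⁻¹)) ▸ h4.mul h4'
  inv_mem' := by
    rintro a ⟨n, h1, h2, h3, h4⟩
    exact ⟨n, h1, h2, by simpa using h4, by simpa using h3⟩

theorem bez {M j n m : ℕ} {ν : K} (hm : 0 < m) (hc : n.Coprime M) (h : IsIntegral ℤ (n * ν ^ m))
    (h' : IsIntegral ℤ ((M : K) ^ j * ν)) : IsIntegral ℤ ν := by
  obtain ⟨x, y, e⟩ := (Nat.isCoprime_iff_coprime.2 (hc.pow_right (j * m)))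
  have e' : (x : K) * n + y * M ^ (j * m) = 1 := by exact_mod_cast congrArg (Int.cast : ℤ → K) e
  refine IsIntegral.of_pow hm ?_
  have k : ν ^ m = algebraMap ℤ K x * (n * ν ^ m) + algebraMap ℤ K y * (M ^ j * ν) ^ m := by
    rw [mul_pow, ← pow_mul, eq_intCast, eq_intCast]
    linear_combination -ν ^ m * e'
  exact k ▸ (isIntegral_algebraMap.mul h).add (isIntegral_algebraMap.mul (h'.pow m))

end GDu

open GDu

theorem gDu : DuS := by
  intro K S _ c t ψ hd ht hf hi hψ hfψ H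
  classical
  have hl : ∀ i : {O // c O}, IsLocalRing i.1 := fun i => (dvA (hd _ i.2)).loc
  have fin : ∀ φ : Subring K → K, (∀ O, c O → Ut O (φ O)) →
      {O | c O ∧ ¬Nu O (φ O - 1)}.Finite →
      {i : {O // c O} | resR i.1 (residue i.1) (φ i.1) ≠ 1}.Finite := fun φ h1 h2 =>
    (h2.preimage Subtype.val_injective.injOn).subset fun i hi =>
      ⟨i.2, fun e => hi ((res_one_iff i.1 (h1 _ i.2).2.1).2 e)⟩
  obtain ⟨n, hn, l, e⟩ := rDualA {O // c O} S (fun i => ResidueField i.1)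
    (fun s i => resR i.1 (residue i.1) (t s i.1)) (fun s i => res_ne _ (ht s _ i.2))
    (fun s => fin _ (ht s) (hf s))
    (fun s => (hi s).imp fun s' k i => by
      rw [← EDVA.rmul (ht s _ i.2).2.1 (ht s' _ i.2).2.1]
      exact (res_one_iff i.1 ((ht s _ i.2).mul (ht s' _ i.2)).2.1).2 (k _ i.2))
    (fun i => resR i.1 (residue i.1) (ψ i.1)) (fun i => res_ne _ (hψ _ i.2)) (fin _ hψ hfψ)
    fun lam h1 h2 => by
      let L : Subring K → K → ℝ := fun O u => if h : c O then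
        (lam ⟨O, h⟩ (resR O (@residue O _ (hl ⟨O, h⟩)) u) : ℝ) else 0
      have key : ∀ φ : Subring K → K, ∑ᶠ (O) (_ : c O), L O (φ O) =
          ((∑ᶠ i, lam i (resR i.1 (residue i.1) (φ i.1)) : ℚ) : ℝ) := fun φ => by
        rw [← finsum_subtype_eq_finsum_cond (p := c) (f := fun O => L O (φ O))]
        refine Eq.trans ?_ ((Rat.castHom ℝ).toAddMonoidHom.map_finsum_of_injective
          Rat.cast_injective _).symm
        exact finsum_congr fun i => dif_pos i.2
      refine Rat.cast_eq_zero.1 ((key ψ).symm.trans (H L (fun O h => ⟨fun u u' a b => ?_,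
        fun u u' a b k => ?_⟩) fun s => by rw [key, h2, Rat.cast_zero]))
      · have := hl ⟨O, h⟩
        simp only [L, dif_pos h]
        rw [EDVA.rmul a.2.1 b.2.1, h1 ⟨O, h⟩ _ _ (res_ne O a) (res_ne O b), Rat.cast_add]
      · have := hl ⟨O, h⟩
        simp only [L, dif_pos h]
        rw [(res_eq O a.2.1 b.2.1).2 k]
  refine ⟨n, hn, l, fun O h => ?_⟩
  have := hl ⟨O, h⟩
  have k := res_prod O (fun s => t s O) (fun s => (ht s O h).2.1) l
  rw [← res_eq O (O.pow_mem (hψ O h).2.1 n) k.1, k.2, res_pow O (hψ O h).2.1]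
  exact e ⟨O, h⟩

theorem gNu : NuS := by
  intro k _ M j ν h0
  refine ⟨fun H => ?_, fun H h1 h2 => ?_⟩
  · obtain ⟨n, hn, e⟩ := ex_pow ⊥ ν h0 fun v hv _ => H v hv
    exact ⟨n, hn, by simpa using congrArg Units.val (Subgroup.mem_bot.1 e)⟩
  · obtain ⟨m, hm, n, -, hc, a, b⟩ := ex_pow (umG k M) ν h0 fun v hv h => H v hv h
    exact ⟨bez hm hc (by simpa using a) h1, bez hm hc (by simpa using b) h2⟩

end Pool.Agent.MP_f3836a_nt.GP
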