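import Pool.Agent.MP_f3836a_nt.GP.Base

/-! Part GP: finiteness on a curve, and generators of the maximal ideal at a smooth point. -/

set_option autoImplicit false

namespace Pool.Agent.MP_f3836a_nt.GP

open Polynomial IsLocalRing PK VE.W VE.Z

namespace GF2

theorem chart {K : Type} [Field K] [CharZero K] (td : Td K) {B : Subring K} [IsNoetherianRing B]
    (q : Ideal B) [hq : q.IsPrime] (q0 : q ≠ ⊥) {u : K} (hu : Ut (lc B q) u) :
    {D | (∃ (m : Ideal B) (_ : m.IsPrime), D = lc B m) ∧ D ≤ lc B q ∧ ¬Ut D u}.Finite := by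
  have := B.subtype.charZero
  obtain ⟨a, b, hb, e⟩ := mem_lc.1 hu.2.1
  have ub := (zb_ut b).2 hb
  have ha : a ∉ q := (zb_ut a).1 (e ▸ hu.mul ub)
  have hab : a * b ∉ q := fun h => (hq.mem_or_mem h).elim ha hb
  refine ((Ideal.finite_minimalPrimes_of_isNoetherianRing _
    (q ⊔ Ideal.span {a * b})).dependent_image fun m hm => @lc K _ _ m hm.1.1).subset ?_
  rintro _ ⟨⟨m, hm, rfl⟩, l, hn⟩
  have h1 : a * b ∈ m := by_contra fun z => hn (by
    rw [eq_div_of_mul_eq ub.1 e]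
    exact ((zb_ut a).2 fun w => z (m.mul_mem_right _ w)).div
      ((zb_ut b).2 fun w => z (m.mul_mem_left _ w)))
  obtain ⟨n, n0, l0⟩ := Ideal.exists_minimalPrimes_le
    (sup_le (((wLc K B).le m q).1 l) ((Ideal.span_singleton_le_iff_mem m).2 h1))
  obtain rfl : n = m := by_contra fun z => za_no3 (zb_td td B) hq n0.1.1 hm q0
    (lt_of_le_of_ne (le_sup_left.trans n0.1.2) fun w =>
      hab (w ▸ n0.1.2 (Ideal.mem_sup_right (Ideal.mem_span_singleton_self _))))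
    (lt_of_le_of_ne l0 z)
  exact ⟨n, n0, rfl⟩

end GF2

theorem gF2 : F2S := by
  intro K ι Pt _ _ _ _ ξ B O κ _ r td tr d g C u hC hu
  have A := dvA (⟨(g.dv C hC).dvr, (g.dv C hC).frac⟩ : Dvr (O C))
  have := A.loc
  have k : ∀ i, ξ i ≠ 0 → {D | (∃ (m : Ideal (B i)) (_ : m.IsPrime), D = lc (B i) m) ∧ D ≤ O C ∧
      ¬Ut D u}.Finite := fun i hi => by
    by_cases h : B i ≤ O C
    · obtain ⟨q, hq, c⟩ := zb_cen h
      obtain ⟨w, hw⟩ := (d.cls _).2 ⟨i, hi, q, hq, rfl⟩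
      have e : O C = lc _ q :=
        le_antisymm (hw ▸ g.mono C w _ _ ⟨le_rfl, fun _ h => h⟩ (hw ▸ c) le_rfl) c.1
      have := d.ft i hi
      have := Algebra.FiniteType.isNoetherianRing ℤ (B i)
      have q0 : q ≠ ⊥ := fun z => A.ne (e.trans (((wLc K _).top q (d.fr i hi)).2 z))
      rw [e] at hu ⊢
      exact GF2.chart td q q0 hu
    · refine Set.finite_empty.subset ?_
      rintro _ ⟨⟨m, hm, rfl⟩, l, -⟩
      exact h ((le_lc _ m).trans l)
  refine (Set.finite_iUnion fun i : {i // ξ i ≠ 0} => k i i.2).subset ?_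
  rintro D ⟨⟨z, -, hz⟩, l⟩
  obtain ⟨i, hi, h⟩ := (d.cls D).1 ⟨z, hz⟩
  exact Set.mem_iUnion.2 ⟨⟨i, hi⟩, h, l⟩

theorem gdB : GdB := by
  intro B _ m p s t hm hf hp hpm hs hc
  have := Fact.mk hp
  let _ := Ideal.Quotient.field m
  let _ := Fintype.ofFinite (B ⧸ m)
  have : CharP (B ⧸ m) p := (CharP.charP_iff_prime_eq_zero hp).2 (by
    rw [← map_natCast (Ideal.Quotient.mk m)]; exact Ideal.Quotient.eq_zero_iff_mem.2 hpm)
  obtain ⟨f, -, hq⟩ := FiniteField.card (B ⧸ m) p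
  have h1 : ∀ x : B, x - x ^ p ^ (f : ℕ) ∈ m := fun x => Ideal.Quotient.eq.1 (by
    rw [map_pow, ← hq, FiniteField.pow_card])
  have h2 : 2 ≤ p ^ (f : ℕ) := hq ▸ Fintype.one_lt_card
  set I : Ideal B := Ideal.span {(p : B)} ⊔ m ^ 2 with hI
  have Im : I ≤ m := sup_le ((Ideal.span_singleton_le_iff_mem m).2 hpm) (Ideal.pow_le_self two_ne_zero)
  have : Nontrivial (B ⧸ I) := Ideal.Quotient.nontrivial_iff.2 fun e => hm.ne_top (top_le_iff.1 (e ▸ Im))
  have : CharP (B ⧸ I) p := (CharP.charP_iff_prime_eq_zero hp).2 (by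
    rw [← map_natCast (Ideal.Quotient.mk I)]
    exact Ideal.Quotient.eq_zero_iff_mem.2 (Ideal.mem_sup_left (Ideal.mem_span_singleton_self _)))
  have h3 : ∀ x ∈ m, ∀ y ∈ m, x * y ∈ m ^ 2 := fun x hx y hy => sq m ▸ Ideal.mul_mem_mul hx hy
  let δ : Derivation ℤ B (B ⧸ I) := Derivation.mk'
    (AddMonoidHom.mk' (fun b : B => Ideal.Quotient.mk I (b - b ^ p ^ (f : ℕ))) fun a b => by
      simp only [map_sub, map_pow, map_add, add_pow_char_pow]; ring).toIntLinearMap fun a b => by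
      change Ideal.Quotient.mk I _ = Ideal.Quotient.mk I (a * _ + b * _)
      refine Ideal.Quotient.eq.2 (Ideal.mem_sup_right ?_)
      convert neg_mem (h3 _ (h1 a) _ (h1 b)) using 1
      rw [mul_pow]; ring
  refine ⟨t - t ^ p ^ (f : ℕ), h1 t, fun a ha => ?_⟩
  obtain ⟨c, e⟩ := hc a
  obtain ⟨y, z, hz, e1⟩ := hm.exists_inv hs
  have e2 := congrArg δ.liftKaehlerDifferential e
  rw [map_smul, map_smul, δ.liftKaehlerDifferential_comp_D, δ.liftKaehlerDifferential_comp_D] at e2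
  have e3 : s * (a - a ^ p ^ (f : ℕ)) - c * (t - t ^ p ^ (f : ℕ)) ∈ I := Ideal.Quotient.eq.1 e2
  have e4 : a ^ p ^ (f : ℕ) ∈ m ^ 2 := Ideal.pow_le_pow_right h2 (Ideal.pow_mem_pow ha _)
  have e5 : I ≤ Ideal.span {(p : B), t - t ^ p ^ (f : ℕ)} ⊔ m ^ 2 :=
    sup_le_sup_right (Ideal.span_mono (by simp)) _
  have e6 : t - t ^ p ^ (f : ℕ) ∈ Ideal.span {(p : B), t - t ^ p ^ (f : ℕ)} ⊔ m ^ 2 :=
    Ideal.mem_sup_left (Ideal.subset_span (by simp))
  convert add_mem (Ideal.mul_mem_left _ y (add_mem (add_mem (e5 e3) (Ideal.mul_mem_left _ c e6))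
    (Ideal.mem_sup_right (Ideal.mul_mem_left _ s e4)))) (Ideal.mem_sup_right (h3 _ hz _ ha)) using 1
  linear_combination (-a) * e1

end Pool.Agent.MP_f3836a_nt.GP
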