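import Pool.Agent.MP_f3836a_nt.GP.SpecE

/-! Part GP: gluing of sections and the theorem for schemes. -/

set_option autoImplicit false

namespace Pool.Agent.MP_f3836a_nt.GP

open IsLocalRing AlgebraicGeometry CategoryTheory PK PS VE.A VE.W VE.Z MvPolynomial

theorem gGlu : GluS := by
  intro Y _
  have ri : Function.Injective (residue Y.functionField) := RingHom.injective _
  have gi : ∀ (U : Y.Opens) (h : genericPoint Y ∈ U),
      Function.Injective (Y.evaluation U _ h).hom := fun U h =>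
    ri.comp (germ_injective_of_isIntegral Y _ h)
  have gs : ∀ (U : Y.Opens) (y z : Y) (h : y ⤳ z) (hz : z ∈ U) (s : Γ(Y, U)),
      PT.ev h (Y.presheaf.germ U z hz s) =
        (Y.evaluation U y (h.mem_open U.isOpen hz)).hom s := fun U y z h hz s => by
    rw [← Scheme.germ_residue, ← Y.presheaf.germ_stalkSpecializes hz h]
    rfl
  have rs : ∀ {U V : Y.Opens} (i : U ⟶ V) (h : genericPoint Y ∈ U) (t : Γ(Y, V)),
      (Y.evaluation U _ h).hom (Y.presheaf.map i.op t) = (Y.evaluation V _ (i.le h)).hom t :=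
    fun i h t => congrArg (Y.residue _).hom (Y.presheaf.germ_res_apply i _ h t)
  refine ⟨gi ⊤ trivial, fun s y z h => ⟨_, gs ⊤ y z h trivial s, rfl⟩, fun c hc => ?_⟩
  have : ∀ z : Y, ∃ (U : Y.Opens) (m : z ∈ U) (s : Γ(Y, U)),
      (Y.evaluation U _ ((genericPoint_specializes z).mem_open U.isOpen m)).hom s = c := fun z => by
    obtain ⟨a, rfl⟩ := hc z
    obtain ⟨U, m, s, rfl⟩ := Y.presheaf.exists_germ_eq a
    exact ⟨U, m, s, (gs U _ z _ m s).symm⟩
  choose U m s e using this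
  have k : ∀ z, genericPoint Y ∈ U z := fun z =>
    (genericPoint_specializes z).mem_open (U z).isOpen (m z)
  obtain ⟨t, ht, -⟩ := Y.sheaf.existsUnique_gluing' U ⊤ (fun z => homOfLE le_top)
    (fun z _ => TopologicalSpace.Opens.mem_iSup.2 ⟨z, m z⟩) s fun i j => gi (U i ⊓ U j) ⟨k i, k j⟩
      (((rs _ _ _).trans (e i)).trans ((rs _ _ _).trans (e j)).symm)
  exact ⟨t, ((rs _ (k _) t).symm.trans (congrArg _ (ht (genericPoint Y)))).trans (e _)⟩

namespace GFinal

theorem ex_list {α : Type} {β : α → Type} {η : α} (l : List (Σ y, β y)) (h : ∀ a ∈ l, a.1 = η) :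
    ∃ l' : List (β η), l = l'.map fun s => ⟨η, s⟩ := by
  induction l with
  | nil => exact ⟨[], rfl⟩
  | cons a l ih =>
    obtain ⟨l', rfl⟩ := ih fun b hb => h b (List.mem_cons_of_mem _ hb)
    obtain ⟨y, s⟩ := a
    obtain rfl : y = η := h _ List.mem_cons_self
    exact ⟨s :: l', rfl⟩

theorem dcy {N : ℕ} {Y : Scheme.{0}} (ι : Y ⟶ PT.PN N) [hι : IsClosedImmersion ι]
    (reg : ∀ z : Y, IsRegularLocalRing (Y.presheaf.stalk z)) {η : Y} (g : ∀ z, η ⤳ z)
    (inj : ∀ z, Function.Injective (ev (g z))) (r : ∀ z, (ev (g z)).range →+* Y.residueField z)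
    (hr : ∀ z, SComp.Rs (g z) _ (r z)) : ∃ (ξ : Fin (N + 1) → Y.residueField η) (B : _),
      DcY ξ B (fun z => (ev (g z)).range) r := by
  classical
  obtain ⟨P, fr, H⟩ : ∃ P fr, PrA Y N P fr := ⟨_, _, SPr.main N Y ι hι⟩
  obtain ⟨i₀, h₀⟩ := H.good η
  obtain ⟨E₀, c₀⟩ := sc_ex H η i₀ h₀
  have nz : ∀ i, E₀ (X i) ≠ 0 ↔ X i ∉ P η := fun i => (c₀.zero H h₀ (isHomogeneous_X _ _)).not
  have : ∀ i, ∃ E, E₀ (X i) ≠ 0 → Ch P fr η i E := fun i => by
    by_cases h : E₀ (X i) = 0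
    · exact ⟨E₀, fun k => absurd h k⟩
    · exact (sc_ex H η i ((nz i).1 h)).imp fun _ k _ => k
  choose E c using this
  have ee : ∀ i j, E₀ (X i) ≠ 0 → E i (X j) = E₀ (X j) / E₀ (X i) := fun i j h => by
    rw [← c₀.val η (g η) 1 _ _ (isHomogeneous_X _ j) (isHomogeneous_X _ _) ((nz i).1 h),
      ← (c i h).val η (g η) 1 _ _ (isHomogeneous_X _ j) (isHomogeneous_X _ _) ((nz i).1 h),
      (c i h).one, mul_one, mul_div_cancel_right₀ _ h]
  have hle : ∀ z z', z' ⤳ z ↔ (ev (g z)).range ≤ (ev (g z')).range := fun z z' =>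
    c₀.le H h₀ (g z) (g z')
  refine ⟨fun i => E₀ (X i), fun i => (E i).range, ⟨i₀, (nz _).2 h₀⟩,
    fun i S h => by simp only [zd_le, ee i _ h], fun i _ => zd_ft (E i),
    fun i h z => ?_, fun z z' e => (((hle _ _).2 e.ge).antisymm ((hle _ _).2 e.le)).eq, hle,
    fun S => ⟨?_, ?_⟩, fun z t => ?_, fun z a => ⟨fun h0 hu => (hu.map (r z)).ne_zero h0, ?_⟩,
    fun z => (reg z).of_ringEquiv (RingEquiv.ofBijective (ev (g z)).rangeRestrict
      ⟨fun a b k => inj z (congrArg Subtype.val k), RingHom.rangeRestrict_surjective _⟩)⟩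
  · obtain ⟨a, rfl⟩ := (SComp.range_refl (g η)).ge (Subring.mem_top z)
    obtain ⟨n, A, B, hA, hB, k, rfl⟩ := H.surj η a
    exact ⟨⟨_, A, rfl⟩, ⟨_, B, rfl⟩, fun e => k (((c i h).zero H ((nz i).1 h) hB).1 e),
      (c i h).val η _ n A B hA hB k⟩
  · rintro ⟨z, rfl⟩
    obtain ⟨i, hi⟩ := H.good z
    have h := (nz i).2 fun k => hi ((H.le _ _).1 (g z) k)
    obtain ⟨q, hq, m⟩ := (c i h).to H (g z) hi
    exact ⟨i, h, q, hq, (c i h).loc H _ q m⟩
  · rintro ⟨i, h, q, hq, rfl⟩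
    obtain ⟨z, _, e⟩ := (c i h).of H ((nz i).1 h) q
    exact ⟨z, e⟩
  · obtain ⟨a, rfl⟩ := SComp.res_surj z t
    exact ⟨_, hr z a ⟨_, rfl⟩⟩
  · obtain ⟨_, b, rfl⟩ := a
    exact fun hu => (hr z b _).trans ((SComp.res_eq_zero z b).2 fun hb =>
      hu (hb.map (ev (g z)).rangeRestrict))

end GFinal

theorem gFinal : OfFinalG := by
  intro hD hG hM N Y ι hι _ reg dim C₀ h₀ c₀
  classical
  have g : ∀ z, genericPoint Y ⤳ z := genericPoint_specializes
  have ri : Function.Injective (residue Y.functionField) := RingHom.injective _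
  have inj : ∀ z, Function.Injective (ev (g z)) := fun z =>
    ri.comp (IsFractionRing.injective (Y.presheaf.stalk z) Y.functionField)
  obtain ⟨G1, G2, G3⟩ := hG Y
  replace G3 : ∀ c, (∀ z, c ∈ (ev (g z)).range) →
    ∃ s : Γ(Y, ⊤), (Y.Γevaluation (genericPoint Y)).hom s = c := G3
  clear ri
  generalize genericPoint Y = η at g inj G1 G3
  choose r hr using fun z => SComp.exists_rs (g z) _ rfl
  obtain ⟨ξ, B, D⟩ := GFinal.dcy ι reg g inj r hr
  have : CharZero (Y.residueField η) := charZero_of_inj_zero fun n h => by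
    have e := congrArg (Y.residue C₀).hom
      (inj C₀ (a₁ := n) (a₂ := 0) (by rw [map_natCast, h, map_zero]))
    rw [map_natCast, map_zero] at e
    exact Nat.cast_eq_zero.1 e
  have F := hD _ _ Y ξ B _ _ r D
    ((Order.krullDim_eq_of_orderIso (irreducibleSetEquivPoints (α := Y))).symm.trans dim)
  obtain ⟨geo, top⟩ := geoY zDv rgS F.2.1 F.2.2 D
  obtain ⟨M1, M2⟩ := hM _ _ Y ξ B _ _ r F D C₀ h₀ c₀
  have hle : ∀ z z', z' ⤳ z ↔ (ev (g z)).range ≤ (ev (g z')).range := D.le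
  have val : ∀ (s : Γ(Y, ⊤)) z, (Y.Γevaluation η).hom s ∈ (ev (g z)).range ∧
      resR _ (r z) ((Y.Γevaluation η).hom s) = (Y.Γevaluation z).hom s := fun s z => by
    obtain ⟨a, a1, a2⟩ := G2 s η z (g z)
    rw [← a1, ← a2]
    exact ⟨⟨a, rfl⟩, (dif_pos ⟨a, rfl⟩).trans (hr z a _)⟩
  have bd : ∀ (l : List (Y.residueField η × Y.residueField η)) (C : Y), NZ l →
      Order.height C = 1 → ((l.map fun s => (⟨η, s⟩ : Σ y : Y, Y.residueField y × Y.residueField y)).map
        fun a => PT.bd a.1 C a.2.1 a.2.2).prod =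
        (l.map fun s => tameR _ (r C) s.1 s.2).prod := fun l C l1 hC => by
    rw [List.map_map]
    exact congrArg List.prod (List.map_congr_left fun s hs => (dif_pos (g C)).trans
      (sb_bdry (ev (g C)) (r C) (fun a => hr C a _) (geo.dv C hC) (l1 s hs).1 (l1 s hs).2))
  refine ⟨fun φ hne hfin hsupp hdiv => ?_, fun u l hl e1 e2 => ?_⟩
  · obtain ⟨n, hn, c, hc, l, l1, l2, l3⟩ := M1 φ hne hfin hsupp
      fun z hz => (finsum_congr fun C => by
        unfold VE.W.od PT.ordZ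
        by_cases h : C ⤳ z
        · rw [if_pos ((hle _ _).1 h), dif_pos h, im, SComp.loc_eq rfl (hr C) h]
          rfl
        · rw [if_neg fun e => h ((hle _ _).2 e), dif_neg h]).trans (hdiv z hz)
    obtain ⟨s, rfl⟩ := G3 c fun z => (hc z).2.1
    obtain ⟨s', e'⟩ := G3 _ fun z => (hc z).2.2
    refine ⟨n, hn, Units.mkOfMulEqOne s s' (G1 (by
      rw [map_mul, e', map_one, mul_inv_cancel₀ (hc η).1])), l.map fun s => ⟨η, s⟩,
      fun a ha => ?_, ?_, fun C hC h => (l3 C hC h).trans (bd l C l1 hC).symm⟩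
    · obtain ⟨s, hs, rfl⟩ := List.mem_map.1 ha
      exact ⟨top η (SComp.range_refl _), l1 s hs⟩
    · rw [l2, bd l C₀ l1 h₀, (val s C₀).2]
      rfl
  · obtain ⟨l, rfl⟩ := GFinal.ex_list (η := η) l fun a ha => geo.inj ((((geo.tri a.1).resolve_left
      (by rw [(hl a ha).1]; decide)).resolve_left (by rw [(hl a ha).1]; decide)).trans
        (SComp.range_refl (g η)).symm)
    have l1 : NZ l := fun s hs => (hl _ (List.mem_map.2 ⟨s, hs, rfl⟩)).2
    obtain ⟨n, hn, e⟩ := M2 ((Y.Γevaluation η).hom u) l (fun z =>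
      ⟨(u.isUnit.map _).ne_zero, (val _ z).1, by rw [← map_units_inv]; exact (val _ z).1⟩) l1
      ((val _ _).2.trans (e1.trans (bd l C₀ l1 h₀))) fun C hC h =>
        (bd l C l1 hC).symm.trans (e2 C hC h)
    exact ⟨n, hn, Units.ext (G1 (by rw [Units.val_pow_eq_pow_val, map_pow, e, Units.val_one, map_one]))⟩

end Pool.Agent.MP_f3836a_nt.GP
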