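import Pool.Agent.MP_f3836a_nt.GP.Base

/-! Part GP: the local reciprocity law determines the local terms up to a scalar. -/

set_option autoImplicit false

namespace Pool.Agent.MP_f3836a_nt.GP

open Polynomial IsLocalRing PK VE.W VE.Z

namespace GLl

variable {K : Type} [Field K] {D A O Q : Subring K} {B : Subring K → K → ℝ} {a b g u w : K}

theorem ord0 (R : RgA D) (hO : H1 D O) (h : Ut O u) : ordR O u = 0 :=
  (((dvA (R.dvr O hO).1).ut u).1 h).2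

theorem not_ut (R : RgA D) (hO : H1 D O) (h : Eqn D O g) : ¬Ut O g := fun k =>
  one_ne_zero (h.ord.symm.trans (ord0 R hO k))

theorem ho_of (R : RgA D) (hO : H1 D O) (h : Uv D w) (k : ¬Ut O w) : Ho O :=
  by_contra fun e => k (h O hO e)

theorem single (R : RgA D) (hO : H1 D O) (h : Eqn D O w) (F : Subring K → ℝ) :
    ∑ᶠ (O') (_ : H1 D O'), (ordR O' w : ℝ) * F O' = F O := by
  classical
  rw [finsum_eq_single _ O fun O' e => ?_, finsum_eq_if, if_pos hO, h.ord, Int.cast_one, one_mul]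
  rw [finsum_eq_if]
  split_ifs with c
  · rw [ord0 R c (h.oth O' c e), Int.cast_zero, zero_mul]
  · rfl

theorem val_cast (R : RgA D) (f g : K) :
    (ZMe.val D f g : ℝ) = ∑ᶠ (O') (_ : H1 D O'), (ordR O' g : ℝ) * oK O' D f := by
  classical
  refine ((Int.castAddHom ℝ).map_finsum (ZMe.tm_fin R f g)).trans (finsum_congr fun O => ?_)
  rw [finsum_eq_if, ZMe.tm]
  split_ifs <;> simp

theorem rc_sub (h : Rg D) (hO : H1 D O) (hg : Eqn D O g) (hw : w ∈ D) (α : ℝ)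
    (r : Rc D B O g w) : Rc D (fun O u => B O u - α * oK O D u) O g w := fun k => by
  have R := rgA h
  have c : ZMe.Cp D w g := ⟨hw, hg.mem, k.1, hg.ne, fun O' o =>
    (em (O' = O)).imp (fun e : O' = O => e ▸ k) (hg.oth O' o)⟩
  have e := val_cast R g w
  rw [← ZMe.val_symm zDv R (cyA h) c, val_cast R, single R hO hg] at e
  have s : ∀ F : Subring K → ℝ, ∑ᶠ (O') (_ : H1 D O'), (ordR O' w : ℝ) * F O' =
      ∑ O' ∈ (R.fin w).toFinset, (ordR O' w : ℝ) * F O' := fun F =>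
    finsum_mem_eq_sum_of_inter_support_eq (s := {O' | H1 D O'}) _ (by
      ext O'
      simp +contextual [and_assoc])
  beta_reduce
  rw [r k, e, s, s, s, Finset.mul_sum, ← Finset.sum_sub_distrib]
  exact Finset.sum_congr rfl fun O' _ => by ring

/-- the hypothesis on the local terms -/
def Hy (D : Subring K) (B : Subring K → K → ℝ) : Prop :=
  ∀ O, H1 D O → Ho O → Fn O (B O) ∧ ∀ u, Ut O u → Uc O D u → B O u = 0

theorem ax_nf (R : RgA D) (H : Hy D B) (hA : Ax D a b A) (ho : Ho A) (hu : Ut A u) :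
    B A u = oK A D u * B A b := by
  obtain ⟨w, k, hw, e⟩ := hA.nf u hu
  obtain ⟨F, Z⟩ := H A hA.h1 ho
  have h1 := hw.mono (R.dvr A hA.h1).2.1
  rw [ZLg1.ok_nf R hA hu hw e, F.cg _ _ hu (h1.mul (hA.ut.zpow k)) e, F.mul _ _ h1 (hA.ut.zpow k),
    Z w h1 (uc_of hw), F.zpow hA.ut, zero_add]

theorem uc_eq (H : Hy D B) (hQ : H1 D Q) (ho : Ho Q) (hu : Ut Q u) (k : Ut Q w ∧ Uc Q D (w / u)) :
    B Q w = B Q u := by
  have := (H Q hQ ho).2 _ (k.1.div hu) k.2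
  rwa [(H Q hQ ho).1.div k.1 hu, sub_eq_zero] at this

theorem step1 (pw : PwS) (h : Rg D) (H : Hy D B) (S : Srl D B) (G : Gen D a b) (hA : Ax D a b A)
    (ho : Ho A) (z : B A b = 0) (hQ : H1 D Q) (hq : Ho Q) (n : Q ≠ A) : B Q a = 0 := by
  have R := rgA h
  obtain ⟨-, p2, -, -, p5⟩ := pw K D
  obtain ⟨g, hg⟩ := R.eqn Q hQ
  have ua := hA.oth Q hQ n
  obtain ⟨N, hN⟩ := (p5 h).2 Q a hQ G.1 ua
  obtain ⟨w, hw, q1, q2, q3, q4⟩ := S Q A g a a (max N 2) hQ hq hg hA.h1 ho hA.toEqn G.1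
  obtain ⟨A', hA'⟩ := (cyA h).ax w b ((p5 h).1 a b w G (p2 _ _ _ (le_max_right _ _) q1))
  have k := hN w (p2 _ _ _ (le_max_left _ _) q1)
  have nu := not_ut R hA'.h1 hA'.toEqn
  have ho' := ho_of R hA'.h1 q2 nu
  rw [← uc_eq H hQ hq ua k, q3 k.1, single R hA'.h1 hA'.toEqn,
    ax_nf R H hA' ho' (hg.oth A' hA'.h1 fun e => nu (e ▸ k.1))]
  refine mul_eq_zero_of_right _ ?_
  by_cases e : A' = A
  · rwa [e]
  · have u1 := hA'.oth A hA.h1 (Ne.symm e)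
    have u2 := hA.oth A' hA'.h1 e
    have := q4 u1
    rw [single R hA'.h1 hA'.toEqn, ax_nf R H hA ho u1, z, mul_zero, ax_nf R H hA' ho' u2] at this
    refine (mul_eq_zero.1 this.symm).resolve_left (Int.cast_ne_zero.2 fun e' => ?_)
    exact not_ut R hA.h1 hA.toEqn (((R.pos A' hA'.h1 a G.1 u2).2.1 e').mono (R.dvr A hA.h1).2.1)

theorem step2 (pw : PwS) (h : Rg D) (H : Hy D B) (S : Srl D B) (G : Gen D a b) (hA : Ax D a b A)
    (ho : Ho A) (z : B A b = 0) (m : ℕ) : ∀ (Q : Subring K) (g u : K), H1 D Q → Ho Q → Q ≠ A →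
    Eqn D Q g → oK A D g < m → Ut Q u → B Q u = 0 := by
  have R := rgA h
  obtain ⟨-, p2, -, -, p5⟩ := pw K D
  induction m with
  | zero =>
    exact fun Q g u _ _ n hg hm _ =>
      absurd (R.pos A hA.h1 g hg.mem (hg.oth A hA.h1 n.symm)).1 (by omega)
  | succ m ih =>
    intro Q g u hQ hq n hg hm hu
    have V := dvA (R.dvr Q hQ).1
    have := V.loc
    have ua := hA.oth Q hQ n
    obtain ⟨k, f0, hf, h1, h2⟩ := ZLg1.norm V R hQ hg
      ((G.2.2 a).2 ⟨1, D.one_mem, 0, D.zero_mem, by ring⟩) ua hu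
    obtain ⟨h3, h4⟩ := ZLg1.small (dvA (R.dvr A hA.h1).1) R G.2.1 hA hg.mem
      (hg.oth A hA.h1 n.symm) hf h2
    have h5 := ZLg1.ut_of ua hu h1
    obtain ⟨N, hN⟩ := (p5 h).2 Q f0 hQ hf h5
    obtain ⟨N', hN'⟩ := (p5 h).2 A f0 hA.h1 hf h3
    obtain ⟨f, hw, q1, q2, q3, -⟩ := S Q Q g g f0 (max N N') hQ hq hg hQ hq hg hf
    have k1 := hN f (p2 _ _ _ (le_max_left _ _) q1)
    have k2 := hN' f (p2 _ _ _ (le_max_right _ _) q1)
    have k3 := R.mul A _ _ hA.h1 h3 (k2.1.div h3)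
    rw [mul_div_cancel₀ _ h3.1, k2.2.ok h hA.h1] at k3
    have F := (H Q hQ hq).1
    rw [F.cg _ _ hu ((ua.zpow k).mul h5) h1, F.mul _ _ (ua.zpow k) h5, F.zpow ua,
      step1 pw h H S G hA ho z hQ hq n, mul_zero, zero_add, ← uc_eq H hQ hq h5 k1, q3 k1.1]
    refine finsum_mem_eq_zero_of_forall_eq_zero (s := {O' | H1 D O'}) fun O' o => ?_
    rcases nu_or ((R.dvr O' o).2.1 hw) with c | c
    · obtain ⟨g', hg'⟩ := R.eqn O' o
      have n' : O' ≠ A := fun e => c.not (e ▸ k2.1)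
      have q5 := hg'.oth A hA.h1 n'.symm
      have q6 := R.mul A _ _ hA.h1 q5 (k2.1.div q5)
      have q7 := (R.pos A hA.h1 _ ((hg'.div f hw).1 c) (k2.1.div q5)).1
      rw [mul_div_cancel₀ _ hg'.ne] at q6
      rw [ih O' g' g o (ho_of R o q2 c.not) n' hg' (by push_cast at hm; omega)
        (hg.oth O' o fun e => c.not (e ▸ k1.1)), mul_zero]
    · rw [ord0 R o c, Int.cast_zero, zero_mul]

end GLl

open GLl in
theorem gLl : OfLl := by
  intro pw K _ D B h H S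
  have R := rgA h
  by_cases e : ∃ O, H1 D O ∧ Ho O
  swap
  · exact ⟨0, fun O _ o k _ => (e ⟨O, o, k⟩).elim⟩
  obtain ⟨O₀, o, k⟩ := e
  obtain ⟨g₀, hg₀⟩ := R.eqn O₀ o
  obtain ⟨a₀, b, G₀⟩ := h.gen
  obtain ⟨a, -, q1, q2, -⟩ := S O₀ O₀ g₀ g₀ a₀ 2 o k hg₀ o k hg₀ G₀.1
  have G := ((pw K D).2.2.2.2 h).1 a₀ b a G₀ q1
  obtain ⟨A, hA⟩ := (cyA h).ax a b G
  have ho := ho_of R hA.h1 q2 (not_ut R hA.h1 hA.toEqn)
  have H' : Hy D fun O u => B O u - B A b * oK O D u := fun O o k =>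
    ⟨(H O o k).1.sub ⟨fun u u' a b => by rw [R.mul O u u' o a b]; push_cast; ring,
      fun u u' a b c => by rw [R.cg O o u a.2.1 u' b.2.1 c]⟩, fun u a b => by
        beta_reduce
        rw [(H O o k).2 u a b, b.ok h o, Int.cast_zero, mul_zero, sub_zero]⟩
  have S' : Srl D fun O u => B O u - B A b * oK O D u :=
    fun O₁ O₂ g₁ g₂ w₀ N a₁ a₂ a₃ b₁ b₂ b₃ c =>
      let ⟨w, hw, c₁, c₂, c₃, c₄⟩ := S O₁ O₂ g₁ g₂ w₀ N a₁ a₂ a₃ b₁ b₂ b₃ c
      ⟨w, hw, c₁, c₂, rc_sub h a₁ a₃ hw _ c₃, rc_sub h b₁ b₃ hw _ c₄⟩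
  have z : B A b - B A b * oK A D b = 0 := by rw [hA.one, Int.cast_one, mul_one, sub_self]
  refine ⟨B A b, fun O u o k hu => sub_eq_zero.1 ?_⟩
  by_cases n : O = A
  · subst n
    exact (ax_nf R H' hA ho hu).trans (mul_eq_zero_of_right _ z)
  · obtain ⟨g, hg⟩ := R.eqn O o
    exact step2 pw h H' S' G hA ho z ((oK A D g).toNat + 1) O g u o k n hg (by omega) hu

end Pool.Agent.MP_f3836a_nt.GP
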