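import Pool.Agent.MP_f3836a_nt.GP.Base

/-! Part GP: the main statement inside the function field. -/

set_option autoImplicit false

namespace Pool.Agent.MP_f3836a_nt.GP

open Polynomial IsLocalRing PK VE.W VE.Z

namespace GMain

variable {K : Type} [Field K] {P C : Set (Subring K)} {ψ ψ' : Subring K → K} {C₀ : Subring K} {c : K}

theorem cy_mul (S : Sf P C) (h : Cy P C ψ) (h' : Cy P C ψ') : Cy P C fun O => ψ O * ψ' O :=
  ⟨fun O o => (h.us O o).mul (h'.us O o), (h.fin.union h'.fin).subset fun O o => by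
    by_contra e
    simp only [Set.mem_union, Set.mem_ofPred_eq, not_or, not_and, not_not] at e
    have := (dvA (S.dv O o.1)).loc
    have k := ((e.1 o.1).mul (h'.us O (S.dv O o.1)).2.1).add (e.2 o.1)
    exact o.2 (by rwa [mul_sub, mul_one, sub_add_sub_cancel, mul_comm] at k),
    fun D hD => (cyA (S.rg D hD)).mul _ _ h.us h'.us (h.cyc D hD) (h'.cyc D hD)⟩

theorem cy_one (S : Sf P C) : Cy P C fun _ => 1 := S.cy_bd (l := []) fun _ h => nomatch h

theorem cy_pow (S : Sf P C) (h : Cy P C ψ) (n : ℕ) : Cy P C fun O => ψ O ^ n := by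
  induction n with
  | zero => simpa only [pow_zero] using cy_one S
  | succ n ih => simpa only [pow_succ] using cy_mul S ih h

theorem nu_sg {O : Subring K} (h : O ≠ C₀) : Nu O (sg C₀ c O - 1) := by
  rw [sg, if_neg h, sub_self]
  exact nu_zero

theorem cy_sg (S : Sf P C) (h0 : c ≠ 0) (h1 : IsIntegral ℤ c) (h2 : IsIntegral ℤ c⁻¹) :
    Cy P C (sg C₀ c) := by
  have us : Us (sg C₀ c) := fun O o => by
    unfold sg
    split_ifs
    exacts [int_ut o h0 h1 h2, ut_one]
  refine ⟨us, (Set.finite_singleton C₀).subset fun O o => by_contra fun e => o.2 (nu_sg e),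
    fun D hD => ?_⟩
  have R := S.rg D hD
  by_cases h : H1 D C₀
  · have u := int_ut' R h0 h1 h2
    refine (cyA R).of _ C₀ us h (fun O _ e => nu_sg e) ?_
    rw [sg, if_pos rfl]
    exact ((rgA R).pos C₀ h c u.2.1 (u.mono ((rgA R).dvr C₀ h).2.1)).2.2 u
  · exact (cyA R).cg _ _ (cy_one S).us us (fun O o => by
      simpa using (nu_sg (c := c) fun e : O = C₀ => h (e ▸ o)).neg) ((cy_one S).cyc D hD)

theorem sg_mul (c c' : K) (O : Subring K) : sg C₀ (c * c') O = sg C₀ c O * sg C₀ c' O := by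
  unfold sg
  split_ifs <;> simp

theorem sg_one (O : Subring K) : sg C₀ 1 O = 1 := ite_self _

end GMain

open GMain in
theorem gMainK : OfMainK := by
  intro du top gv K _ _ P C M S _ k _ _ nm C₀ ψ hn h0 hψ
  obtain ⟨M₀, m0, good⟩ := S.good
  obtain ⟨M', m1, m2, key⟩ := top K P C M₀ S m0 k nm C₀ ψ hn h0 hψ
  let T := {s : List (K × K) × K // NZ s.1 ∧ s.2 ≠ 0 ∧ IsIntegral ℤ s.2 ∧ IsIntegral ℤ s.2⁻¹}
  let t : T → Subring K → K := fun s O => bdE s.1.1 O * sg C₀ s.1.2 O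
  have cy : ∀ s, Cy P C (t s) := fun s =>
    cy_mul S (S.cy_bd s.2.1) (cy_sg S s.2.2.1 s.2.2.2.1 s.2.2.2.2)
  have inv : ∀ s, ∃ s', ∀ O, Cm C M' O → Nu O (t s O * t s' O - 1) := fun s =>
    ⟨⟨(s.1.1.map Prod.swap, s.1.2⁻¹), fun x hx => by
      obtain ⟨y, hy, rfl⟩ := List.mem_map.1 hx
      exact (s.2.1 y hy).symm, inv_ne_zero s.2.2.1, s.2.2.2.2, (inv_inv s.1.2).symm ▸ s.2.2.2.1⟩,
      fun O o => by
        simp only [t]
        rw [mul_mul_mul_comm, ← sg_mul, mul_inv_cancel₀ s.2.2.1, sg_one, mul_one]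
        exact ((dvA (S.dv O o.1)).bd _ s.2.1).2.1⟩
  have i1 : IsIntegral ℤ (1 : K)⁻¹ := inv_one (G := K).symm ▸ isIntegral_one
  have pr : ∀ l : List T, ∃ s, ∀ O, (l.map fun s => t s O).prod = t s O := fun l => by
    induction l with
    | nil => exact ⟨⟨([], 1), (fun _ h => nomatch h), one_ne_zero, isIntegral_one, i1⟩, fun O => by
        simp [t, bdE, sg_one]⟩
    | cons a l ih =>
      obtain ⟨s, hs⟩ := ih
      refine ⟨⟨(a.1.1 ++ s.1.1, a.1.2 * s.1.2), fun x hx => (List.mem_append.1 hx).elim (a.2.1 x)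
        (s.2.1 x), mul_ne_zero a.2.2.1 s.2.2.1, a.2.2.2.1.mul s.2.2.2.1,
        mul_inv a.1.2 s.1.2 ▸ a.2.2.2.2.mul s.2.2.2.2⟩, fun O => ?_⟩
      rw [List.map_cons, List.prod_cons, hs]
      simp only [t, bdE, List.map_append, List.prod_append, sg_mul]
      ring
  obtain ⟨n, hn, l, hl⟩ := du K T (Cm C M') t ψ (fun O o => S.dv O o.1)
    (fun s O o => (cy s).us O (S.dv O o.1)) (fun s => (cy s).fin.subset fun O o => ⟨o.1.1, o.2⟩) inv
    (fun O o => hψ.us O (S.dv O o.1)) (hψ.fin.subset fun O o => ⟨o.1.1, o.2⟩) fun lam fn h =>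
      key lam ⟨fn, fun f g f0 g0 => by
        simpa [t, bdE, sg_one] using
          h ⟨([(f, g)], 1), by simp [NZ, f0, g0], one_ne_zero, isIntegral_one, i1⟩⟩
        fun c c0 c1 c2 => by
          have h1 := h ⟨([], c), (fun _ h => nomatch h), c0, c1, c2⟩
          have h2 : Cm C M' C₀ := ⟨S.hor _ h0, .inl h0.2⟩
          rw [finsum_eq_single _ C₀] at h1
          · simpa [t, bdE, sg, h2] using h1
          · intro O e
            by_cases o : Cm C M' O
            · simpa [t, bdE, sg, e, o] using (fn O o).one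
            · simp [o]
  obtain ⟨s, hs⟩ := pr l
  obtain ⟨s', hs'⟩ := inv s
  refine ⟨n, hn, s'.1.2, s'.2.2.1, s'.2.2.2.1, s'.2.2.2.2, s'.1.1, s'.2.1, fun O o => ?_⟩
  rw [mul_assoc]
  refine gv K P C M' S m1 (fun D hD p hp e => good D hD p hp fun e' => e (e'.trans m2)) _
    (cy_mul S (cy_pow S hψ n) (cy s')) (fun O o => Nu.tor ?_) O o
  have := (dvA (S.dv O o.1)).loc
  have k := ((hl O o).mul ((cy s').us O (S.dv O o.1)).2.1).add (hs' O o)
  rwa [hs, mul_sub, mul_comm (t s' O) (t s O), sub_add_sub_cancel, mul_comm] at k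

end Pool.Agent.MP_f3836a_nt.GP
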