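import Pool.Agent.MP_f3836a_nt.GP.SpecE
import Pool.Agent.MP_f3836a_nt.VE.ZMainY

/-! Part GP: the theorem on the level of rings. -/

set_option autoImplicit false

namespace Pool.Agent.MP_f3836a_nt.GP

open Polynomial IsLocalRing PK VE.A VE.T VE.W VE.Z

namespace GMainG

theorem fin_pow {M : Type} [CommMonoid M] {x b b' s s' : M} {J : ℕ} (h : (x * b * s) ^ J = 1)
    (hb : b * b' = 1) (hs : s * s' = 1) : x ^ J = s' ^ J * b' ^ J := by
  have : x = (x * b * s) * (s' * b') := by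
    calc x = x * (b * b') * (s * s') := by rw [hb, hs, mul_one, mul_one]
      _ = _ := by ac_rfl
  rw [this, mul_pow, h, one_mul, mul_pow]

variable {K : Type} [Field K]

theorem sg_eq (V : Subring K) (c : K) : sg V c V = c := if_pos rfl

theorem sg_ne {V O : Subring K} (c : K) (h : O ≠ V) : sg V c O = 1 := if_neg h

theorem sg_ut {V O : Subring K} {c : K} (h : Ut O c) : Ut O (sg V c O) := by
  unfold sg
  split_ifs
  exacts [h, ut_one]

/-- the family of units attached to a cycle -/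
theorem psi {ι Pt : Type} [Preorder Pt] {ξ : ι → K} {O : Pt → Subring K} {κ : Pt → Type}
    [∀ z, Field (κ z)] {r : ∀ z, O z →+* κ z} (G : GeoY ξ O r) (φ : ∀ C, κ C) (h0 : ∀ C, φ C ≠ 0)
    (hfin : {C | φ C ≠ 1}.Finite) (hht : ∀ C, φ C ≠ 1 → Order.height C = 1)
    (hcy : ∀ z, Order.height z = 0 → ∑ᶠ C, od (O C) (r C) (O z) (φ C) = 0) :
    ∃ ψ, Cy {S | ∃ z, Order.height z = 0 ∧ O z = S} {S | ∃ z, Order.height z = 1 ∧ O z = S} ψ ∧
      ∀ C, Order.height C = 1 → resR (O C) (r C) (ψ (O C)) = φ C := by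
  classical
  have hOk := zOk odS wTr zDv rgS
  have hD : ∀ C, Order.height C = 1 → Dvr (O C) := fun C h => ⟨(G.dv C h).dvr, (G.dv C h).frac⟩
  have ha : ∀ C, ∃ a : K, Order.height C = 1 → Ut (O C) a ∧ resR (O C) (r C) a = φ C := fun C => by
    by_cases h : Order.height C = 1
    · obtain ⟨a, e⟩ := (G.dv C h).surj (φ C)
      refine ⟨a, fun _ => ⟨(ut_iff a).2 ?_, (dif_pos a.2).trans e⟩⟩
      by_contra hn
      exact h0 C (e ▸ ((G.dv C h).ker a).2 hn)
    · exact ⟨1, fun e => absurd e h⟩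
  choose a ha using ha
  obtain ⟨ψ0, p1, p2⟩ : ∃ ψ0 : Subring K → K, (∀ C, Order.height C = 1 → ψ0 (O C) = a C) ∧
      ∀ V, (¬∃ C, Order.height C = 1 ∧ O C = V) → ψ0 V = 1 := by
    refine ⟨fun V => if h : ∃ C, Order.height C = 1 ∧ O C = V then a h.choose else 1,
      fun C h => ?_, fun V h => dif_neg h⟩
    have e : ∃ C', Order.height C' = 1 ∧ O C' = O C := ⟨C, h, rfl⟩
    exact (dif_pos e).trans (congrArg a (G.inj e.choose_spec.2))
  have us0 : Us ψ0 := fun V _ => by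
    by_cases h : ∃ C, Order.height C = 1 ∧ O C = V
    · obtain ⟨C, h, rfl⟩ := h
      rw [p1 C h]; exact (ha C h).1
    · rw [p2 V h]; exact ut_one
  have nu1 : ∀ C, Order.height C = 1 → φ C = 1 → Nu (O C) (ψ0 (O C) - 1) := fun C h e => by
    rw [p1 C h]
    exact ((dvA (hD C h)).res _ _ (G.dv C h) _ (ha C h).1.2.1 _ (O C).one_mem).1
      (by rw [(ha C h).2, e, EDVA.res_one])
  refine ⟨ψ0, ⟨us0, (hfin.image O).subset ?_, ?_⟩, fun C h => by rw [p1 C h, (ha C h).2]⟩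
  · rintro _ ⟨⟨C, h, rfl⟩, h2⟩
    exact ⟨C, fun e => h2 (nu1 C h e), rfl⟩
  rintro _ ⟨z, hz, rfl⟩
  refine ⟨(hfin.image O).subset ?_, ?_⟩
  · rintro S ⟨h1, h2⟩
    obtain ⟨C, h, rfl, -⟩ := (G.cur z S hz).1 h1
    exact ⟨C, fun e => h2 (nu1 C h e), rfl⟩
  · have e : {S | H1 (O z) S} = O '' {C | Order.height C = 1 ∧ O z ≤ O C} := by
      ext S
      exact (G.cur z S hz).trans ⟨fun ⟨C, h, e, l⟩ => ⟨C, ⟨h, e ▸ l⟩, e⟩,
        fun ⟨C, h, e⟩ => ⟨C, h.1, e, e ▸ h.2⟩⟩
    change ∑ᶠ S ∈ {S | H1 (O z) S}, oK S (O z) (ψ0 S) = 0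
    rw [e, finsum_mem_image G.inj.injOn, ← hcy z hz]
    refine finsum_congr fun C => ?_
    rw [finsum_eq_if]
    split_ifs with h
    · rw [p1 C h.1, ← hOk K _ _ _ (r C) _ (G.cl z hz) ((G.cur z _ hz).2 ⟨C, h.1, rfl, h.2⟩)
        (G.dv C h.1), (ha C h.1).2]
    · unfold VE.W.od
      split_ifs with l
      · have : φ C = 1 := by
          by_contra hn
          exact h ⟨hht C hn, l⟩
        rw [this, ZPsi.ord_one]
      · rfl

end GMainG

open GMainG ZMainY in
theorem gMainG : OfMainG := by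
  intro hN hS hM hI K ι Pt _ _ _ _ ξ B O κ _ r ff D C₀ hC₀ _
  have G := (geoY zDv rgS ff.2.1 ff.2.2 D).1
  have S := hS K ι Pt ξ B O κ r ff.2.1 ff.2.2 D G
  obtain ⟨k, _, _, nm, N⟩ := hN K ff
  have dr : ∀ C, Order.height C = 1 → Dvr (O C) := fun C h => ⟨(G.dv C h).dvr, (G.dv C h).frac⟩
  have pl : Pl (O C₀) := ⟨dr C₀ hC₀, fun n hn => by
    have : IsUnit (n : O C₀) := by
      by_contra e
      exact hn (Nat.cast_eq_zero.1 ((map_natCast (r C₀) n).symm.trans ((D.ker C₀ n).2 e)))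
    simpa using ((ut_iff _).2 this).2.2⟩
  refine ⟨fun φ h0 hf h1 hc => ?_, fun c l hu nz e0 e1 => ?_⟩
  · obtain ⟨ψ, cy, hψ⟩ := psi G φ h0 hf h1 hc
    obtain ⟨n, n0, c, c0, i1, i2, l, nz, tor⟩ :=
      hM K _ _ 1 S one_ne_zero k nm (O C₀) ψ N pl cy
    have uc : ∀ z, Ut (O z) c := fun z => by
      rcases G.tri z with h | h | h
      · exact int_ut' (G.cl z h) c0 i1 i2
      · exact int_ut (dr z h) c0 i1 i2
      · rw [h]; exact ⟨c0, trivial, trivial⟩
    obtain ⟨J, J0, hJ⟩ := expo (fun C => φ C ^ n * resR (O C) (r C) (bdE l (O C)) *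
      resR (O C) (r C) (sg (O C₀) c (O C))) (fun C => Order.height C = 1)
      (((hf.union ((l.finite_toSet.biUnion fun s _ =>
        (G.fin s.1).union (G.fin s.2)))).union (Set.finite_singleton C₀)).subset fun C hC => by
        by_contra e
        simp only [Set.mem_union, Set.mem_iUnion, Set.mem_ofPred_eq, not_or, not_exists, not_and,
          not_not, Set.mem_singleton_iff] at e
        exact hC.2 (by
          rw [e.1.1, (dvA (dr C hC.1)).one l fun s hs =>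
            ⟨(e.1.2 s hs).1 hC.1, (e.1.2 s hs).2 hC.1⟩, sg_ne c fun x => e.2 (G.inj x),
            EDVA.res_one, one_pow, one_mul, one_mul]))
      fun C h => by
        obtain ⟨j, j0, e⟩ := tor _ ⟨C, h, rfl⟩
        have a := (cy.us _ (dr C h)).2.1
        have b := ((dvA (dr C h)).bd l nz).1.2.1
        have b' := (sg_ut (V := O C₀) (uc C)).2.1
        have c1 := (O C).mul_mem ((O C).pow_mem a n) b
        have c2 := (O C).mul_mem c1 b'
        refine ⟨j, j0, ?_⟩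
        rw [← hψ C h, ← res_pow a, ← EDVA.rmul ((O C).pow_mem a n) b, ← EDVA.rmul c1 b',
          ← res_pow c2,
          ((dvA (dr C h)).res _ _ (G.dv C h) _ ((O C).pow_mem c2 j) _ (O C).one_mem).2 e,
          EDVA.res_one]
    have key : ∀ C, Order.height C = 1 → ∀ s', resR (O C) (r C) (sg (O C₀) c (O C)) * s' = 1 →
        φ C ^ (n * J) = s' ^ J * ((List.replicate J (l.map Prod.swap)).flatten.map
          fun s => tameR (O C) (r C) s.1 s.2).prod := fun C h s' hs => by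
      have A := dvA (dr C h)
      obtain ⟨a1, a2, -⟩ := A.bd l nz
      obtain ⟨b1, -, b3⟩ := A.bd _ (nz_swap nz)
      have c := (A.res _ _ (G.dv C h) _ ((O C).mul_mem a1.2.1 b1.2.1) _ (O C).one_mem).2 a2
      rw [EDVA.rmul a1.2.1 b1.2.1, EDVA.res_one] at c
      rw [prod_rep, ← b3 _ _ (G.dv C h), pow_mul]
      exact fin_pow (hJ C h) c hs
    refine ⟨n * J, mul_pos n0 J0, c⁻¹ ^ J, fun z => (uc z).inv.pow J,
      (List.replicate J (l.map Prod.swap)).flatten, fun s hs => ?_, ?_, fun C h e => ?_⟩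
    · obtain ⟨l', a, b⟩ := List.mem_flatten.1 hs
      exact nz_swap nz s (List.eq_of_mem_replicate a ▸ b)
    · rw [res_pow (uc C₀).2.2]
      refine key C₀ hC₀ _ ?_
      rw [sg_eq, ← EDVA.rmul (uc C₀).2.1 (uc C₀).2.2, mul_inv_cancel₀ c0, EDVA.res_one]
    · rw [key C h 1 (by rw [sg_ne c fun x => e (G.inj x), EDVA.res_one, one_mul]), one_pow,
        one_mul]
  · refine hI K _ _ 1 S one_ne_zero k nm (O C₀) c l N pl (fun V hV => ?_) nz fun V hV => ?_
    · obtain ⟨z, -, rfl⟩ := S.hor V hV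
      exact hu z
    · obtain ⟨z, hz, rfl⟩ := S.hor V hV
      have A := dvA (dr z hz)
      obtain ⟨a1, -, a3⟩ := A.bd l nz
      refine (A.res _ _ (G.dv z hz) _ (sg_ut (hu z)).2.1 _ a1.2.1).1 ?_
      rw [a3 _ _ (G.dv z hz)]
      by_cases e : z = C₀
      · subst e
        rw [sg_eq, e0]
      · rw [sg_ne c fun x => e (G.inj x), EDVA.res_one, e1 z hz e]

end Pool.Agent.MP_f3836a_nt.GP
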