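import Pool.Agent.MP_f3836a_nt.GP.Base

/-! Part GP: functionals that kill boundaries and units over `M` kill cycles. -/

set_option autoImplicit false

namespace Pool.Agent.MP_f3836a_nt.GP

open Polynomial IsLocalRing PK VE.W VE.Z

theorem gMid : OfMid := by
  intro pw hby sr ll sw vt K _ _ P C M S hM lam kb ku ψ hψ
  classical
  obtain ⟨B, hB⟩ := hby K P C M S hM lam (fun O o h => kb.fn O ⟨o, .inl h⟩) ku
  have hα : ∀ D, ∃ α : ℝ, D ∈ P → Nu D M →
      ∀ O u, H1 D O → Ho O → Ut O u → B D O u = α * oK O D u := fun D => by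
    by_cases h : D ∈ P ∧ Nu D M
    swap
    · exact ⟨0, fun a b => (h ⟨a, b⟩).elim⟩
    refine (ll K D (B D) (S.rg D h.1) (fun O o ho => ?_) ?_).imp fun _ e _ _ => e
    · have k := (S.cur D h.1 O).1 o
      exact ⟨hB.fn O D k.1 ho ⟨h.1, k.2, h.2⟩, fun u => hB.un O D u k.1 ho ⟨h.1, k.2, h.2⟩⟩
    intro O₁ O₂ g₁ g₂ w₀ N a₁ b₁ c₁ a₂ b₂ c₂ h₀
    obtain ⟨T₁, p₁, q₁⟩ := sr K P C M S hM lam B kb hB D h.1 h.2 O₁ g₁ a₁ b₁ c₁
    obtain ⟨T₂, p₂, q₂⟩ := sr K P C M S hM lam B kb hB D h.1 h.2 O₂ g₂ a₂ b₂ c₂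
    have hT : ∀ D' ∈ T₁ ∪ T₂, D' ∈ P ∧ D' ≠ D := fun D' k =>
      (Finset.mem_union.1 k).elim (p₁ D') (p₂ D')
    have hP : ∀ D' ∈ insert D (T₁ ∪ T₂), D' ∈ P := fun D' k =>
      (Finset.mem_insert.1 k).elim (fun e => e ▸ h.1) fun k => (hT D' k).1
    obtain ⟨w, hw⟩ := S.crt (insert D (T₁ ∪ T₂)) (fun s k => .inl (hP s k))
      (fun s k s' k' => S.anti s (hP s k) s' (hP s' k')) (fun s => if s = D then w₀ else 1) (N + 1)
      fun s _ => by
        split_ifs with e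
        exacts [e ▸ h₀, s.one_mem]
    have hD := hw D (Finset.mem_insert_self _ _)
    rw [if_pos rfl] at hD
    have hu : ∀ D' ∈ T₁ ∪ T₂, Ut D' w := fun D' k => by
      have := (S.rg D' (hT D' k).1).loc
      have e := (hw D' (Finset.mem_insert_of_mem k)).2
      rw [if_neg (hT D' k).2] at e
      exact ut_of_nu ut_one ((pw K D').2.2.1 this _ _ N.succ_pos e)
    have r₁ := q₁ w hD.1 fun D' k => hu D' (Finset.mem_union_left _ k)
    exact ⟨w, hD.1, (pw K D).2.1 _ _ _ N.le_succ hD.2, r₁.1, r₁.2,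
      (q₂ w hD.1 fun D' k => hu D' (Finset.mem_union_right _ k)).2⟩
  choose α hα using hα
  obtain ⟨f, z⟩ := sw K P C M S hM α
  have kb' : Kb C M fun O u => lam O u - dl P M α O u :=
    ⟨fun O o => (kb.fn O o).sub (f O o.1), fun a b a0 b0 => by
      have c := S.cy_tame a0 b0
      have e := finsum_mem_add_distrib'
        (S.fin_fn c (lam := fun O u => lam O u - dl P M α O u)
          fun O (o : Cm C M O) => ⟨o.1, (kb.fn O o).sub (f O o.1)⟩)
        (S.fin_fn c fun O (o : Cm C M O) => ⟨o.1, f O o.1⟩)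
      simp only [sub_add_cancel, Set.mem_ofPred_eq, kb.bd a b a0 b0, z _ c, add_zero] at e
      exact e.symm⟩
  have e := vt K P C M S hM _ kb' fun O o ho u hu => by
    rw [hB.sum O u o ho hu, dl, sub_eq_zero]
    exact finsum_congr fun D => finsum_congr fun k =>
      hα D k.1 k.2.2 O u ((S.cur D k.1 O).2 ⟨o, k.2.1⟩) ho hu
  rw [← z ψ hψ]
  exact finsum_congr fun O => finsum_congr fun o =>
    sub_eq_zero.1 (e O _ o (hψ.us O (S.dv O o.1)))

end Pool.Agent.MP_f3836a_nt.GP
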