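import Pool.Agent.MP_f3836a_nt.GP.Base

/-! Part GP: approximation modulo powers of the maximal ideal. -/

set_option autoImplicit false

namespace Pool.Agent.MP_f3836a_nt.GP

open Polynomial IsLocalRing PK VE.W VE.Z

namespace GPw

variable {K : Type} [Field K] {S O : Subring K} {N : ℕ} {z a b w f : K}

theorem ind {Q : K → Prop} (h0 : Q 0) (ha : ∀ x y, Q x → Q y → Q (x + y))
    (hs : ∀ s c, Nu S s → c ∈ S → Q (s ^ N * c)) (h : Pw S N z) : Q z := by
  induction h using AddSubgroup.closure_induction'' with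
  | zero => exact h0
  | add x y _ _ hx hy => exact ha x y hx hy
  | mem x hx =>
    obtain ⟨s, c, h1, h2, rfl⟩ := hx
    exact hs s c h1 h2
  | neg_mem x hx =>
    obtain ⟨s, c, h1, h2, rfl⟩ := hx
    exact mul_neg (s ^ N) c ▸ hs s _ h1 (S.neg_mem h2)

theorem ord (hS : Dvr S) (a0 : a ≠ 0) (ha : ordR S a = 1) (h : Pw S 2 (w - a)) :
    w ≠ 0 ∧ ordR S w = 1 := by
  have A := dvA hS
  have := A.loc
  have k : ∀ s, s ≠ 0 → ordR S s = ordR S (s / a) + 1 := fun s s0 => by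
    rw [← ha, ← A.mul _ _ (div_ne_zero s0 a0) a0, div_mul_cancel₀ _ a0]
  have h1 := ind (Q := fun z => Nu S (z / a)) (by simpa using nu_zero)
    (fun x y hx hy => add_div x y a ▸ hx.add hy) (fun s c hs hc => by
      have : s / a ∈ S := by
        by_cases s0 : s = 0
        · simp [s0]
        · have := ((A.nu s).1 hs).resolve_left s0
          rw [A.mem _ (div_ne_zero s0 a0)]
          linarith [k s s0]
      convert hs.mul (S.mul_mem hc this) using 1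
      ring) h
  have h2 := (A.ut _).1 (ut_one.add h1)
  rw [sub_div, div_self a0, add_sub_cancel] at h2
  have w0 : w ≠ 0 := left_ne_zero_of_mul (div_eq_mul_inv w a ▸ h2.1)
  exact ⟨w0, by rw [k w w0, h2.2, zero_add]⟩

theorem gen [IsLocalRing S] (g : Gen S a b) (h : Pw S 2 (w - a)) : Gen S w b := by
  obtain ⟨μ, h1, c, h2, e⟩ := ind (Q := fun z => ∃ μ, Nu S μ ∧ ∃ c ∈ S, z = μ * a + c * b)
    ⟨0, nu_zero, 0, S.zero_mem, by ring⟩
    (fun x y ⟨μ, h1, c, h2, e⟩ ⟨μ', k1, c', k2, e'⟩ =>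
      ⟨μ + μ', h1.add k1, c + c', S.add_mem h2 k2, by rw [e, e']; ring⟩)
    (fun s c hs hc => by
      obtain ⟨u, hu, v, hv, e⟩ := (g.2.2 s).1 hs
      exact ⟨_, hs.mul (S.mul_mem hc hu), _, S.mul_mem hs.1 (S.mul_mem hc hv), by
        linear_combination s * c * e⟩) h
  have U := ut_one.add h1
  refine ⟨eq_add_of_sub_eq e ▸ S.add_mem (S.add_mem (S.mul_mem h1.1 g.1) (S.mul_mem h2 g.2.1)) g.1,
    g.2.1, fun z => (g.2.2 z).trans ⟨fun ⟨u, hu, v, hv, e'⟩ => ⟨_, S.mul_mem hu U.2.2, _,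
      S.sub_mem hv (S.mul_mem (S.mul_mem hu U.2.2) h2), ?_⟩, fun ⟨u, hu, v, hv, e'⟩ =>
      ⟨_, S.mul_mem hu U.2.1, _, S.add_mem hv (S.mul_mem hu h2), by
        linear_combination e' + u * e⟩⟩⟩
  linear_combination e' - u * (1 + μ)⁻¹ * e - u * a * mul_inv_cancel₀ U.1

theorem uc (hS : Rg S) (hO : H1 S O) (hf : f ∈ S) (U : Ut O f) :
    ∃ N, ∀ w, Pw S N (w - f) → Ut O w ∧ Uc O S (w / f) := by
  have R := rgA hS
  have := hS.loc
  have := (dvA (R.dvr O hO).1).loc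
  have le := (R.dvr O hO).2.1
  obtain ⟨a, b, g⟩ := hS.gen
  obtain ⟨n, hn⟩ := R.rad O hO f hf U a ((g.2.2 a).2 ⟨1, S.one_mem, 0, S.zero_mem, by ring⟩)
  obtain ⟨m, hm⟩ := R.rad O hO f hf U b ((g.2.2 b).2 ⟨0, S.zero_mem, 1, S.one_mem, by ring⟩)
  let I : Ideal S :=
    { carrier := {z | ∃ c ∈ S, Nu O (z - c * f)}
      zero_mem' := ⟨0, S.zero_mem, by simpa using nu_zero⟩
      add_mem' := fun ⟨c, h1, h2⟩ ⟨c', k1, k2⟩ => ⟨c + c', S.add_mem h1 k1, by
        convert h2.add k2 using 1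
        push_cast
        ring⟩
      smul_mem' := fun x z ⟨c, h1, h2⟩ => ⟨x * c, S.mul_mem x.2 h1, by
        convert h2.mul (le x.2) using 1
        rw [smul_eq_mul, Subring.coe_mul]
        ring⟩ }
  refine ⟨n + m + 1, fun w h => ?_⟩
  obtain ⟨μ, h1, h2⟩ := ind (Q := fun z => ∃ μ, Nu S μ ∧ Nu O (z - μ * f))
    ⟨0, nu_zero, by simpa using nu_zero⟩
    (fun x y ⟨μ, h1, h2⟩ ⟨μ', k1, k2⟩ => ⟨μ + μ', h1.add k1, by
      convert h2.add k2 using 1
      ring⟩)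
    (fun s c hs hc => by
      obtain ⟨u, hu, v, hv, e⟩ := (g.2.2 s).1 hs
      obtain ⟨c', k1, k2⟩ := I.add_pow_mem_of_pow_mem_of_le (a := ⟨u, hu⟩ * ⟨a, g.1⟩)
        (b := ⟨v, hv⟩ * ⟨b, g.2.1⟩) (k := n + m) (by rw [mul_pow]; exact I.mul_mem_left _ hn)
        (by rw [mul_pow]; exact I.mul_mem_left _ hm) (Nat.le_succ _)
      refine ⟨_, hs.mul (S.mul_mem hc k1), ?_⟩
      convert k2.mul (le (S.mul_mem hs.1 hc)) using 1
      push_cast
      rw [← e]
      ring) h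
  have k : Uc O S (w / f) := ⟨_, ut_one.add h1, by
    convert h2.mul U.2.2 using 1
    have := U.1
    field_simp
    ring⟩
  exact ⟨div_mul_cancel₀ w U.1 ▸ (k.ut le).mul U, k⟩

end GPw

open GPw in
theorem gPw : PwS := fun _ _ S =>
  ⟨fun _ _ => ind S.zero_mem (fun _ _ => S.add_mem) fun _ _ h k => S.mul_mem (S.pow_mem h.1 _) k,
    fun N N' _ h k => AddSubgroup.closure_mono (by
      rintro _ ⟨s, c, h1, h2, rfl⟩
      exact ⟨s, _, h1, S.mul_mem (S.pow_mem h1.1 (N' - N)) h2, by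
        rw [← mul_assoc, ← pow_add, Nat.add_sub_cancel' h]⟩) k,
    fun _ N _ h => ind nu_zero (fun _ _ => Nu.add) fun s c h1 h2 => by
      convert h1.mul (S.mul_mem (S.pow_mem h1.1 (N - 1)) h2) using 1
      rw [mul_right_comm, ← pow_succ, Nat.sub_add_cancel h],
    fun h _ _ => ord h, fun h => ⟨fun _ _ _ => have := h.loc; gen, fun _ _ => uc h⟩⟩

theorem gFex : OfFex := by
  intro hP K _ _ P C M S _ T e hT hA
  classical
  have h1 : ∀ V, ∃ t, V ∈ T.filter (· ∈ C) → (t ≠ 0 ∧ ordR V t = 1) ∧ ∀ D ∈ T, D ≠ V → Ut D t := by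
    intro V
    by_cases hV : V ∈ T.filter (· ∈ C)
    swap
    · exact ⟨0, fun h => absurd h hV⟩
    obtain ⟨a, b⟩ := Finset.mem_filter.1 hV
    have A := dvA (S.dv V b)
    obtain ⟨π, p0, p1⟩ := A.uni
    obtain ⟨w, hw⟩ := S.crt T hT hA (fun D => if D = V then π else 1) 2 fun D _ => by
      split_ifs with h
      exacts [h ▸ (A.mem π p0).2 (by omega), D.one_mem]
    refine ⟨w, fun _ => ⟨(hP K V).2.2.2.1 (S.dv V b) π w p0 p1 (by simpa using (hw V a).2),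
      fun D hD h => ?_⟩⟩
    have : IsLocalRing D := (hT D hD).elim (fun k => (S.rg D k).loc) fun k => (dvA (S.dv D k)).loc
    exact ut_of_nu ut_one ((hP K D).2.2.1 this 2 _ two_pos (by simpa [h] using (hw D hD).2))
  choose t ht using h1
  have h2 : ∀ D ∈ T, Ut D (∏ V ∈ (T.filter (· ∈ C)).erase D, t V ^ e V) := fun D hD =>
    Finset.prod_induction _ (Ut D) (fun _ _ => Ut.mul) ut_one fun V hV =>
      ((ht V (Finset.mem_of_mem_erase hV)).2 D hD (Finset.ne_of_mem_erase hV).symm).zpow _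
  refine ⟨∏ V ∈ T.filter (· ∈ C), t V ^ e V,
    Finset.prod_ne_zero_iff.2 fun V hV => zpow_ne_zero _ (ht V hV).1.1, fun D hD =>
      ⟨fun h => ?_, fun h => ?_⟩⟩
  · rw [← Finset.erase_eq_of_notMem (a := D) fun k =>
      not_dvr (S.rg D h) (S.dv D (Finset.mem_filter.1 k).2)]
    exact h2 D hD
  · have A := dvA (S.dv D h)
    have k := Finset.mem_filter.2 (⟨hD, h⟩ : D ∈ T ∧ D ∈ C)
    rw [← Finset.mul_prod_erase _ _ k, A.mul _ _ (zpow_ne_zero _ (ht D k).1.1) (h2 D hD).1,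
      A.zpow _ _ (ht D k).1.1, (ht D k).1.2, ((A.ut _).1 (h2 D hD)).2, mul_one, add_zero]

end Pool.Agent.MP_f3836a_nt.GP
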