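import Pool.Agent.MP_f3836a_nt.GP.Base

/-! Part GP: from the charts to the surface. -/

set_option autoImplicit false

namespace Pool.Agent.MP_f3836a_nt.GP

open Polynomial IsLocalRing PK VE.W VE.Z

namespace GSf

variable {K : Type} [Field K]

theorem cht {ι : Type} [Fintype ι] {ξ : ι → K} (h : ∃ i, ξ i ≠ 0) {W : Subring K} (v : Vr W) :
    Cht ξ W := by
  classical
  have k : ∀ s : Finset ι, ∃ i, ξ i ≠ 0 ∧ ∀ j ∈ s, ξ j / ξ i ∈ W := fun s => by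
    induction s using Finset.induction_on with
    | empty => exact h.imp fun i hi => ⟨hi, by simp⟩
    | insert j s _ ih =>
      obtain ⟨i, hi, e⟩ := ih
      by_cases c : ξ j / ξ i ∈ W
      · exact ⟨i, hi, Finset.forall_mem_insert _ _ _ |>.2 ⟨c, e⟩⟩
      have hj : ξ j ≠ 0 := fun z => c (by rw [z, zero_div]; exact W.zero_mem)
      refine ⟨j, hj, Finset.forall_mem_insert _ _ _ |>.2 ⟨by rw [div_self hj]; exact W.one_mem,
        fun k hk => ?_⟩⟩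
      have := W.mul_mem (e k hk) ((v _).resolve_left c)
      rwa [inv_div, div_mul_div_cancel₀ hi] at this
  exact (k Finset.univ).imp fun i e => ⟨e.1, fun j => e.2 j (Finset.mem_univ j)⟩

theorem uni {B : Subring K} (q : Ideal B) [q.IsPrime] (h : Dvr (lc B q)) :
    ∃ π ∈ q, ∀ a ∈ q, ∃ s, s ∉ q ∧ π ∣ s * a := by
  have A := dvA h
  obtain ⟨π, π0, π1⟩ := A.uni
  obtain ⟨a, b, hb, e⟩ := mem_lc.1 ((A.mem π π0).2 (by omega))
  have ub := (A.ut _).1 ((zb_ut b).2 hb)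
  have a0 : (a : K) ≠ 0 := e ▸ mul_ne_zero π0 ub.1
  have a1 : ordR (lc B q) (a : K) = 1 := by rw [← e, A.mul _ _ π0 ub.1, π1, ub.2, add_zero]
  refine ⟨a, by_contra fun k => ?_, fun c hc => ?_⟩
  · have := ((A.ut _).1 ((zb_ut a).2 k)).2
    omega
  by_cases c0 : (c : K) = 0
  · exact ⟨b, hb, by rw [show c = 0 from Subtype.ext c0, mul_zero]; exact dvd_zero _⟩
  have c1 := ((A.nu _).1 ((nu_iff_not (le_lc B q c.2)).2 fun k =>
    (zb_ut c).1 k hc)).resolve_left c0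
  have n := div_ne_zero c0 a0
  have m := A.mul _ _ n a0
  rw [div_mul_cancel₀ _ a0] at m
  obtain ⟨x, y, hy, e'⟩ := mem_lc.1 ((A.mem _ n).2 (by omega))
  refine ⟨y, hy, x, Subtype.ext ?_⟩
  change (y : K) * c = a * x
  rw [← e']
  field_simp

theorem nak {B : Subring K} (m : Ideal B) [m.IsPrime] [IsNoetherianRing (lc B m)] {p : ℕ} {w : B}
    (hp : (p : B) ∈ m) (hw : w ∈ m) (h : m ≤ Ideal.span {(p : B), w} ⊔ m ^ 2) :
    Gen (lc B m) p w := by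
  have e := (wLc K B).max m
  set φ := Subring.inclusion (le_lc B m)
  have h' := Ideal.map_mono (f := φ) h
  rw [Ideal.map_sup, Ideal.map_pow, ← e, Ideal.map_span, Set.image_pair, pow_two] at h'
  have k := (ZRg.gen_iff (φ p) (φ w)).2 (le_antisymm
    (Submodule.le_of_le_smul_of_le_jacobson_bot (IsNoetherian.noetherian _)
      (maximalIdeal_le_jacobson _) h') (by
      rw [e, Ideal.span_le, Set.insert_subset_iff, Set.singleton_subset_iff]
      exact ⟨Ideal.mem_map_of_mem _ hp, Ideal.mem_map_of_mem _ hw⟩))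
  simpa [φ] using k

end GSf

theorem gGd : OfGd := by
  intro hA hB K ι Pt _ _ _ _ ξ B O κ _ r td tr d G
  classical
  have dv : ∀ z, Order.height z = 1 → Dvr (O z) := fun z h => ⟨(G.dv z h).dvr, (G.dv z h).frac⟩
  have k : ∀ i, ∃ M : ℕ, M ≠ 0 ∧ (ξ i ≠ 0 →
      (M : B i) ∈ Ideal.span {s : B i | ∃ t, Cy1 s t}) := fun i => by
    by_cases hi : ξ i = 0
    · exact ⟨1, one_ne_zero, fun h => absurd hi h⟩
    have := (B i).subtype.charZero
    have := d.ft i hi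
    refine (hA (B i) (zb_td td _) (zb_tr tr (d.fr i hi)) fun q hq q0 hn => ?_).imp
      fun M h => ⟨h.1, fun _ => h.2⟩
    obtain ⟨z, e⟩ := (d.cls _).2 ⟨i, hi, q, hq, rfl⟩
    obtain h | h | h := G.tri z
    · obtain ⟨p, hp, e'⟩ := rg_nu (G.cl z h)
      rw [e] at e'
      have : ((p : ℤ) : B i) ∈ q := by_contra fun c => e'.not (by simpa using (zb_ut _).2 c)
      exact absurd (by exact_mod_cast hn p this) hp.ne_zero
    · exact GSf.uni q (e ▸ dv z h)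
    · exact absurd (((wLc K _).top q (d.fr i hi)).1 (e ▸ h)) q0
  choose M M0 hM using k
  refine ⟨∏ i, M i, Finset.prod_ne_zero_iff.2 fun i _ => M0 i, fun z hz p hp hd hn => ?_⟩
  obtain ⟨i, hi, m, hm, e⟩ := (d.cls (O z)).1 ⟨z, rfl⟩
  have R := G.cl z hz
  rw [e] at R hn ⊢
  have := d.ft i hi
  have mx := zb_max m R.alg
  have := R.noeth
  have nu : ∀ n : ℕ, Nu (lc (B i) m) n ↔ (n : B i) ∈ m := fun n => by
    rw [nu_iff_not (natCast_mem _ n), ← not_not (a := _ ∈ m), ← zb_ut]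
    simp
  have h1 : ¬Ideal.span {s : B i | ∃ t, Cy1 s t} ≤ m := fun c =>
    hd ((dvd_of_nu hp hn ((nu _).2 (c (hM i hi)))).trans
      (Finset.dvd_prod_of_mem _ (Finset.mem_univ i)))
  rw [Ideal.span_le] at h1
  obtain ⟨s, ⟨t, hs⟩, hs'⟩ := Set.not_subset.1 h1
  obtain ⟨w, hw, h2⟩ := hB (B i) m p s t mx (za_fin m) hp ((nu p).1 hn) hs' hs
  exact ⟨w, GSf.nak m ((nu p).1 hn) hw h2⟩

theorem gSf : OfSf := by
  intro hV hC hF hG K ι Pt _ _ _ _ ξ B O κ _ r td tr d G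
  have dv : ∀ z, Order.height z = 1 → Dvr (O z) := fun z h => ⟨(G.dv z h).dvr, (G.dv z h).frac⟩
  refine ⟨?_, ?_, ?_, ?_, fun V hv => ?_, fun f => ((G.fin f).image O).subset ?_, ?_,
    fun T h => hC K ι Pt ξ B O κ r td tr d G T fun S hS =>
      (h S hS).elim (fun k => k.imp fun _ e => e.2) fun k => k.imp fun _ e => e.2, ?_, ?_, ?_⟩
  · rintro _ ⟨z, h, rfl⟩
    exact G.cl z h
  · rintro _ ⟨z, h, rfl⟩
    exact dv z h
  · rintro _ ⟨z, h, rfl⟩ S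
    exact (G.cur z S h).trans ⟨fun ⟨C, a, b, c⟩ => ⟨⟨C, a, b⟩, c⟩,
      fun ⟨⟨C, a, b⟩, c⟩ => ⟨C, a, b, c⟩⟩
  · rintro _ ⟨z, -, rfl⟩ _ ⟨z', h, rfl⟩ l
    rw [G.min z z' h l]
  · obtain ⟨z, k⟩ := G.cen V (dvA hv.1).loc (G.val V hv.1)
    obtain h | h | h := G.tri z
    · exact (ZPsi.not_ho k (G.cl z h).alg hv.2).elim
    · exact ⟨z, h, dvr_eq (dv z h) hv.1 k.1⟩
    · exact absurd (top_le_iff.1 (h ▸ k.1)) (dvA hv.1).ne
  · rintro _ ⟨⟨z, h, rfl⟩, k⟩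
    exact ⟨z, ⟨h, k⟩, rfl⟩
  · rintro _ ⟨C, hC, rfl⟩ W v l n
    obtain ⟨z, k⟩ := G.cen W ((hV K _ (dv C hC)).1 W v l).1 (GSf.cht G.ex v)
    obtain h | h | h := G.tri z
    · exact ⟨_, ⟨z, h, rfl⟩, k⟩
    · exact absurd (le_antisymm l (dvr_eq (dv z h) (dv C hC) (k.1.trans l) ▸ k.1)) n
    · exact absurd (top_le_iff.1 (h ▸ k.1.trans l)) (dvA (dv C hC)).ne
  · rintro _ ⟨C, hC, rfl⟩ u hu
    exact hF K ι Pt ξ B O κ r td tr d G C u hC hu
  · obtain ⟨M, M0, h⟩ := hG K ι Pt ξ B O κ r td tr d G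
    refine ⟨M, M0, ?_⟩
    rintro _ ⟨z, hz, rfl⟩
    exact h z hz
  · rintro _ ⟨C, hC, rfl⟩ a
    exact one_ne_zero (hC.symm.trans (G.alg C a))

end Pool.Agent.MP_f3836a_nt.GP
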