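import Pool.Agent.MP_f3836a_nt.GP.Base

/-! Part GP: local reciprocity from global reciprocity. -/

set_option autoImplicit false

namespace Pool.Agent.MP_f3836a_nt.GP

open Polynomial IsLocalRing PK VE.W VE.Z

namespace GSr

variable {K : Type} [Field K] [CharZero K] {P C : Set (Subring K)} {M : ℕ} {D O : Subring K}
  {g : K}

omit [CharZero K] in
theorem ord0 {u : K} (h : Dvr O) (hu : Ut O u) : ordR O u = 0 := (((dvA h).ut u).1 hu).2

theorem ex_t (hF : FexS) (S : Sf P C) (hM : M ≠ 0) (hD : D ∈ P) (ho : Ho O) (hg : Eqn D O g) :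
    ∃ t, Ut D t ∧ ∀ V ∈ C, Nu V M → ordR V (g * t) = 0 := by
  classical
  have fin : {V | V ∈ C ∧ Nu V M ∧ ¬D ≤ V}.Finite :=
    (S.fin_vv hM).subset fun V k => ⟨k.1, k.2.1⟩
  have mem : ∀ V, V ∈ insert D fin.toFinset ↔ V = D ∨ V ∈ C ∧ Nu V M ∧ ¬D ≤ V := fun V =>
    Finset.mem_insert.trans (or_congr_right fin.mem_toFinset)
  obtain ⟨t, t0, ht⟩ := hF K P C M S hM (insert D fin.toFinset) (fun V => -ordR V g)
    (fun V k => ((mem V).1 k).imp (fun e : V = D => e ▸ hD) fun e => e.1) fun V k V' k' e => by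
      rcases (mem V).1 k with rfl | k <;> rcases (mem V').1 k' with rfl | k'
      exacts [rfl, (k'.2.2 e).elim, (not_le (S.dv V k.1) (S.rg _ hD) e).elim,
        dvr_eq (S.dv V k.1) (S.dv V' k'.1) e]
  have u := (ht D ((mem D).2 (.inl rfl))).1 hD
  refine ⟨t, u, fun V hV n => ?_⟩
  by_cases e : D ≤ V
  · exact ord0 (S.dv V hV) ((hg.oth V ((S.cur D hD V).2 ⟨hV, e⟩) fun k =>
      n.not (k ▸ ho_ut ho hM)).mul (u.mono e))
  · rw [(dvA (S.dv V hV)).mul g t hg.ne t0, (ht V ((mem V).2 (.inr ⟨hV, n, e⟩))).2 hV,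
      add_neg_cancel]

theorem ex_T (hS : SecS) (S : Sf P C) (hM : M ≠ 0) (hD : D ∈ P) {f : K} (f0 : f ≠ 0)
    (hf : ∀ V ∈ C, Nu V M → ordR V f = 0) : ∃ T : Finset (Subring K),
      (∀ D' ∈ T, D' ∈ P ∧ D' ≠ D) ∧ (∀ V ∈ C, Nu V M → ∃ D' ∈ T, D' ≤ V) ∧
      ∀ D' ∈ P, Nu D' M → D' ≠ D → D' ∉ T → Ut D' f := by
  choose! pt h1 h2 h3 using fun V (k : V ∈ C ∧ Nu V M) =>
    (hS K P C M S hM).1 V k.1 (fun e => k.2.not (ho_ut e hM)) D hD
  have fin : (((⋃ O ∈ {O | O ∈ C ∧ Ho O ∧ ordR O f ≠ 0}, {D' | Ov P M O D'}) ∪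
      pt '' {V | V ∈ C ∧ Nu V M}) \ {D}).Finite :=
    ((((S.fin f).subset fun O k => ⟨k.1, k.2.2⟩).biUnion fun O k =>
      S.fin_ov hM k.1 k.2.1).union ((S.fin_vv hM).image pt)).sdiff
  refine ⟨fin.toFinset, fun D' k => ?_, fun V hV n => ⟨pt V, fin.mem_toFinset.2
    ⟨.inr ⟨V, ⟨hV, n⟩, rfl⟩, h2 V ⟨hV, n⟩⟩, h3 V ⟨hV, n⟩⟩, fun D' hD' n ne k =>
      ut_of (S.rg D' hD') f0 fun O o => ?_⟩
  · obtain ⟨a | ⟨V, hV, rfl⟩, b⟩ := fin.mem_toFinset.1 k
    · obtain ⟨O, -, o⟩ := Set.mem_iUnion₂.1 a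
      exact ⟨o.1, b⟩
    · exact ⟨h1 V hV, b⟩
  · obtain ⟨a, b | b⟩ := S.cm hD' n o
    · exact by_contra fun e => k (fin.mem_toFinset.2 ⟨.inl (Set.mem_iUnion₂.2
        ⟨O, ⟨a, b, e⟩, hD', ((S.cur D' hD' O).1 o).2, n⟩), ne⟩)
    · exact hf O a b

end GSr

open GSr in
theorem gSr : OfSr := by
  classical
  intro hS hF K _ _ P C M S hM lam B hK hB D hD hDM O g hO ho hg
  obtain ⟨t, ut, hf⟩ := ex_t hF S hM hD ho hg
  have f0 := mul_ne_zero hg.ne ut.1
  obtain ⟨T, t1, t2, t3⟩ := ex_T hS S hM hD f0 hf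
  refine ⟨T, t1, fun w _ hw => ?_⟩
  have vw : ∀ V ∈ C, Nu V M → Ut V w := fun V hV n =>
    let ⟨D', a, b⟩ := t2 V hV n
    (hw D' a).mono b
  refine ⟨fun V o n => vw V (S.cm hD hDM o).1 ((S.cm hD hDM o).2.resolve_left n), fun uw => ?_⟩
  have key : ∀ O', ∑ᶠ (_ : Cm C M O'), lam O' (tameE O' w (g * t)) =
      (if O' = O then B D O w else 0) - ∑ᶠ (_ : H1 D O'), (ordR O' w : ℝ) * B D O' g := by
    intro O'
    by_cases c : Cm C M O'
    swap
    · have n : ¬H1 D O' := fun e => c (S.cm hD hDM e)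
      rw [if_neg fun e : O' = O => n (e ▸ hO)]
      simp [c, n]
    have dv := S.dv O' c.1
    rw [finsum_eq_if, if_pos c]
    by_cases h : Ho O'
    swap
    · have n := c.2.resolve_left h
      have e := ord0 dv (vw O' c.1 n)
      rw [if_neg fun e : O' = O => h (e ▸ ho), tame_l e, hf O' c.1 n, zpow_zero, (hK.fn O' c).one]
      simp [e]
    have uu := tame_ut dv uw.1 f0
    refine ((hB.sum O' _ c.1 h uu).trans (finsum_eq_single _ D fun D' ne =>
      (finsum_congr fun o => hB.un O' D' _ c.1 h o uu (uc_of ?_)).trans finsum_zero)).trans ?_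
    · by_cases k : D' ∈ T
      · rw [tame_l (ord0 dv ((hw D' k).mono o.2.1))]
        exact (hw D' k).zpow _
      · rw [tame_r (ord0 dv ((t3 D' o.1 o.2.2 ne k).mono o.2.1))]
        exact (t3 D' o.1 o.2.2 ne k).zpow _
    by_cases le : D ≤ O'
    swap
    · have n : ¬H1 D O' := fun e => le ((S.cur D hD O').1 e).2
      rw [if_neg fun e : O' = O => n (e ▸ hO)]
      simp [Ov, le, n]
    have o : Ov P M O' D := ⟨hD, le, hDM⟩
    have h1 := (S.cur D hD O').2 ⟨c.1, le⟩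
    have ut' := ut.mono le
    rw [finsum_eq_if, if_pos o, finsum_eq_if, if_pos h1]
    by_cases e : O' = O
    · subst e
      rw [if_pos rfl, tame_l (ord0 dv uw), (dvA dv).mul g t hg.ne ut.1, hg.ord, ord0 dv ut',
        ord0 dv uw]
      simp
    · have ug := hg.oth O' h1 e
      have fn := hB.fn O' D c.1 h o
      rw [if_neg e, tame_r (ord0 dv (ug.mul ut')), fn.zpow (ug.mul ut'), fn.mul g t ug ut',
        hB.un O' D t c.1 h o ut' (uc_of ut)]
      simp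
  have := hK.bd w (g * t) uw.1 f0
  have a : Function.HasFiniteSupport fun O' => if O' = O then B D O w else 0 :=
    (Set.finite_singleton O).subset fun O' k => by_contra fun e => k (if_neg e)
  have b : Function.HasFiniteSupport fun O' => ∑ᶠ (_ : H1 D O'), (ordR O' w : ℝ) * B D O' g :=
    ((rgA (S.rg D hD)).fin w).subset fun O' k => by_contra fun e => k ((finsum_congr fun o => by
      rw [not_not.1 fun k => e ⟨o, k⟩, Int.cast_zero, zero_mul]).trans finsum_zero)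
  rw [finsum_congr key, finsum_sub_distrib a b, finsum_eq_single _ O fun O' e => if_neg e,
    if_pos rfl] at this
  exact sub_eq_zero.1 this

end Pool.Agent.MP_f3836a_nt.GP
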