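import Pool.Agent.MP_f3836a_nt.GP.Base

/-! Part GP: functionals attached to points, vertical functionals. -/

set_option autoImplicit false

namespace Pool.Agent.MP_f3836a_nt.GP

open Polynomial IsLocalRing PK VE.W VE.Z

namespace GSw

open Classical in
theorem fs_eq {α A : Type} [AddCommMonoid A] {p : α → Prop} {f : α → A} {t : Set α} (ht : t.Finite)
    (h : ∀ a, p a → f a ≠ 0 → a ∈ t) :
    ∑ᶠ (a) (_ : p a), f a = ∑ a ∈ ht.toFinset, if p a then f a else 0 := by
  simp only [finsum_eq_if]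
  exact finsum_eq_sum_of_support_subset _ fun a ha => by
    by_cases e : p a
    · simpa using h a e (by simpa [e] using ha)
    · simp [e] at ha

variable {K : Type} [Field K] {P C : Set (Subring K)} {M : ℕ} {O D : Subring K} {u : K}

theorem h1 (S : Sf P C) (hO : O ∈ C) (h : Ov P M O D) : H1 D O := (S.cur D h.1 O).2 ⟨hO, h.2.1⟩

theorem sup (S : Sf P C) (hO : O ∈ C) (α : Subring K → ℝ) (u : K) (D : Subring K)
    (h : Ov P M O D) (e : α D * oK O D u ≠ 0) : D ∈ P ∧ D ≤ O ∧ ¬Ut D u :=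
  ⟨h.1, h.2.1, fun k => e (by rw [(uc_of k).ok (S.rg D h.1) (h1 S hO h), Int.cast_zero, mul_zero])⟩

theorem fn (S : Sf P C) (α : Subring K → ℝ) (hO : O ∈ C) : Fn O (dl P M α O) := by
  have f := fun u hu => (S.fin2 O hO u hu).subset
    (t := {D | Ov P M O D} ∩ Function.support fun D => α D * oK O D u)
    fun D h => sup S hO α u D h.1 h.2
  refine ⟨fun u u' a b => .trans (finsum_congr fun D => finsum_congr fun h => ?_)
    (finsum_mem_add_distrib' (f u a) (f u' b)),
    fun u u' a b c => finsum_congr fun D => finsum_congr fun h => ?_⟩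
  · rw [(rgA (S.rg D h.1)).mul O u u' (h1 S hO h) a b, Int.cast_add, mul_add]
  · rw [(rgA (S.rg D h.1)).cg O (h1 S hO h) u a.2.1 u' b.2.1 c]

end GSw

open GSw Classical in
theorem gSw : SwS := by
  intro K _ _ P C M S _ α
  refine ⟨fun O => fn S α, fun ψ h => ?_⟩
  have u := fun O hO => h.us O (S.dv O hO)
  have ht := h.fin.biUnion fun O hO => S.fin2 O hO.1 _ (u O hO.1)
  rw [fs_eq h.fin fun O a b => ⟨a.1, fun e => b ((fn S α a.1).nu (u O a.1) e)⟩,
    Finset.sum_congr rfl (g := fun O => ∑ D ∈ ht.toFinset,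
      if Cm C M O ∧ Ov P M O D then α D * oK O D (ψ O) else 0) fun O hO => ?_, Finset.sum_comm]
  · refine Finset.sum_eq_zero fun D _ => ?_
    by_cases e : D ∈ P ∧ Nu D M
    · have R := rgA (S.rg D e.1)
      have k := (h.cyc D e.1).2
      rw [fs_eq h.fin fun O a b => ⟨((S.cur D e.1 O).1 a).1, fun n =>
        b (R.tor O _ a (h.us O (R.dvr O a).1) n.tor)⟩] at k
      refine .trans ?_ ((congrArg (fun z : ℤ => α D * z) k).trans (by simp))
      rw [Int.cast_sum, Finset.mul_sum]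
      refine Finset.sum_congr rfl fun O _ => ?_
      have i : Cm C M O ∧ Ov P M O D ↔ H1 D O :=
        ⟨fun a => h1 S a.1.1 a.2, fun a => ⟨S.cm e.1 e.2 a, e.1, (R.dvr O a).2.1, e.2⟩⟩
      simp [i]
    · exact Finset.sum_eq_zero fun O _ => if_neg fun a => e ⟨a.2.1, a.2.2.2⟩
  · by_cases e : Cm C M O
    · simp only [e, if_true, true_and]
      exact fs_eq ht fun D a b => Set.mem_biUnion (h.fin.mem_toFinset.1 hO) (sup S e.1 α _ D a b)
    · simp [e]

open Classical in
theorem gVt : OfVt := by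
  intro hP hF K _ _ P C M S hM lam kb h0 V u hV hu
  by_cases ho : Ho V
  · exact h0 V hV.1 ho u hu
  have m := fun O => (S.fin_vv hM).mem_toFinset (a := O)
  have h1 : ∀ O ∈ (S.fin_vv hM).toFinset, O ∈ P ∨ O ∈ C := fun O a => .inr ((m O).1 a).1
  have h2 : Anti (S.fin_vv hM).toFinset := fun O a O' b =>
    dvr_eq (S.dv O ((m O).1 a).1) (S.dv O' ((m O').1 b).1)
  have v := (m V).2 ⟨hV.1, hV.2.resolve_left ho⟩
  have hs : ∀ O, Ut O (sg V u O) := fun O => by
    unfold sg
    split_ifs with e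
    exacts [e ▸ hu, ut_one]
  obtain ⟨w, hw⟩ := S.crt _ h1 h2 (sg V u) 1 fun O _ => (hs O).2.1
  obtain ⟨t, t0, ht⟩ := hF K P C M S hM _ (fun O => if O = V then 1 else 0) h1 h2
  have k : ∀ O ∈ (S.fin_vv hM).toFinset, Ut O w ∧ lam O w = lam O (sg V u O) := fun O a =>
    have := (dvA (S.dv O ((m O).1 a).1)).loc
    have n := (hP K O).2.2.1 this 1 _ one_pos (hw O a).2
    ⟨ut_of_nu (hs O) n, (kb.fn O ⟨((m O).1 a).1, .inr ((m O).1 a).2⟩).cg _ _
      (ut_of_nu (hs O) n) (hs O) n⟩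
  have w0 := (k V v).1.1
  have o : ∀ O ∈ (S.fin_vv hM).toFinset, tameE O w t = w ^ (if O = V then 1 else 0 : ℤ) :=
    fun O a => by
      rw [tame_l (((dvA (S.dv O ((m O).1 a).1)).ut w).1 (k O a).1).2, (ht O a).2 ((m O).1 a).1]
  have b := kb.bd w t w0 t0
  rw [finsum_eq_single _ V, finsum_eq_if, if_pos hV, o V v, if_pos rfl, zpow_one, (k V v).2, sg,
    if_pos rfl] at b
  · exact b
  · refine fun O e => finsum_eq_if.trans (ite_eq_right_iff.2 fun a => ?_)
    rcases a.2 with c | c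
    · exact h0 O a.1 c _ (tame_ut (S.dv O a.1) w0 t0)
    · rw [o O ((m O).2 ⟨a.1, c⟩), if_neg e, zpow_zero, (kb.fn O a).one]

end Pool.Agent.MP_f3836a_nt.GP
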