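import Pool.Agent.MP_f3836a_nt.GP.Base

/-! Part GP: the top step and injectivity. -/

set_option autoImplicit false

namespace Pool.Agent.MP_f3836a_nt.GP

open Polynomial IsLocalRing PK VE.W VE.Z

namespace GTop

theorem adr_pow {k : Type} [Field k] {μ : k → ℝ} (h : Adr μ) {a : k} (a0 : a ≠ 0) (n : ℕ) :
    μ (a ^ n) = n * μ a := by
  induction n with
  | zero =>
    have := h 1 1 one_ne_zero one_ne_zero
    rw [mul_one] at this
    rw [pow_zero, Nat.cast_zero, zero_mul]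
    linarith
  | succ n ih => rw [pow_succ, h _ _ (pow_ne_zero n a0) a0, ih]; push_cast; ring

theorem itg {K : Type} [Field K] (O : Subring K) {z : K} (h : IsIntegral ℤ z) :
    Itg O ((1 : ℕ) * z) := by
  obtain ⟨q, a, b⟩ := h
  refine ⟨q, a, ?_⟩
  rw [Nat.cast_one, one_mul, aeval_def, b]
  exact nu_zero

end GTop

open GTop

theorem gTop : OfTop := by
  intro hN h1 h2 K _ _ P C M S hM k _ _ nm C₀ ψ N c0 hψ
  obtain ⟨ν0, -, M₁, hM₁, hj⟩ := h2 K P C M S hM k nm ψ N hψ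
  have hM' : M * M₁ ≠ 0 := mul_ne_zero hM hM₁
  refine ⟨M * M₁, hM', dvd_mul_right _ _, fun lam kb hc => ?_⟩
  obtain ⟨j, i1, i2⟩ := hj (M * M₁) (dvd_mul_left _ _)
  generalize M * M₁ = M' at hM' kb i1 i2 ⊢
  have hU := (h2 K P C M' S hM' k nm ψ N hψ).2.1
  have hc' : ∀ O, Pl O ∨ O ∈ {V | V ∈ C ∧ Nu V M'} ↔ Cm C M' O := fun O => by
    rw [S.pl, Cm, and_or_left]
    rfl
  obtain ⟨μ, a, e⟩ := N.eng M' {V | V ∈ C ∧ Nu V M'} lam hM' (S.fin_vv hM')
    (fun V v => ⟨S.dv V v.1, v.2⟩) (fun O o => kb.fn O ((hc' O).1 o))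
    fun f g f0 g0 => by simpa only [hc'] using kb.bd f g f0 g0
  have T := fun μ' a e => h1 K P C M' S hM' k nm lam μ' ψ N kb a e hψ
  generalize ∏ᶠ (O) (_ : Pl O), nm O (ψ O) = ν at ν0 i1 i2 T
  obtain ⟨n1, n2⟩ := (hN k M' j ν ν0).2 (fun v b hv => by
    have := T (fun x => μ x + v x) (fun x y x0 y0 => by simp only [a x y x0 y0, b x y x0 y0]; ring)
      fun O u o hu su => by rw [e O u o hu su, hv _ (N.ne O u o hu) (hU O u o hu su), add_zero]
    rw [T μ a e] at this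
    linarith) i1 i2
  obtain ⟨d, d0, hd⟩ := N.con C₀ c0
  obtain ⟨u, e'⟩ := hd ν ν0
  have m1 := map_isIntegral_int (algebraMap k K) n1
  have m2 := map_isIntegral_int (algebraMap k K) n2
  rw [map_inv₀] at m2
  have := e C₀ _ c0 u ⟨1, one_ne_zero, Nat.coprime_one_left _, itg _ m1, itg _ m2⟩
  rw [hc _ u.1 m1 m2, e', adr_pow a ν0] at this
  rw [T μ a e]
  exact (mul_eq_zero.1 this.symm).resolve_left (Nat.cast_ne_zero.2 d0.ne')

theorem gInj : OfInj := by
  intro hN K _ _ P C M S hM k _ _ nm C₀ c l N c0 hc hl hb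
  obtain ⟨a, rfl⟩ := N.cst c fun O o => (hc O o).2.1
  have a0 : a ≠ 0 := fun e => (hc C₀ c0).1 (by rw [e, map_zero])
  obtain ⟨d, d0, hd⟩ := N.con C₀ c0
  obtain ⟨n, n0, e⟩ := (hN k 0 0 a a0).1 fun μ hμ => by
    have F : ∀ O, Pl O → O ∈ C ∧ Fn O fun u => μ (nm O u) := fun O o => ⟨S.hor O o,
      fun u u' x y => by rw [N.mul O u u' o x y, hμ _ _ (N.ne O u o x) (N.ne O u' o y)],
      fun u u' x y z => by rw [N.cg O u u' o x y z]⟩
    have key : ∀ l, NZ l → ∑ᶠ O ∈ {O | Pl O}, μ (nm O (bdE l O)) = 0 := fun l hl => by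
      induction l with
      | nil => exact finsum_mem_of_eqOn_zero fun O o => (F O o).2.one
      | cons s l ih =>
        have hs := hl s List.mem_cons_self
        have hl' : NZ l := fun t ht => hl t (List.mem_cons_of_mem _ ht)
        refine (finsum_mem_congr (t := {O | Pl O})
          (g := fun O => μ (nm O (tameE O s.1 s.2)) + μ (nm O (bdE l O))) rfl fun O o =>
          (F O o).2.mul _ _ (tame_ut o.1 hs.1 hs.2) ((dvA o.1).bd l hl').1).trans ?_
        rw [finsum_mem_add_distrib' (S.fin_fn (S.cy_tame hs.1 hs.2) F) (S.fin_fn (S.cy_bd hl') F),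
          ih hl', add_zero]
        exact N.weil μ hμ _ _ hs.1 hs.2
    have k1 := key l hl
    have b0 := hb C₀ c0
    rw [sg, if_pos rfl] at b0
    rw [finsum_mem_inter_support_eq' _ _ {C₀} fun O o => ⟨fun p => by_contra fun q => o (by
        have b := hb O p
        rw [sg, if_neg (show O ≠ C₀ from q)] at b
        exact ((F O p).2.cg _ _ ut_one ((dvA p.1).bd l hl).1 b).symm.trans (F O p).2.one),
      fun p => p ▸ c0⟩, finsum_mem_singleton,
      ← N.cg C₀ _ _ c0 (hd a a0).1 ((dvA c0.1).bd l hl).1 b0, (hd a a0).2, adr_pow hμ a0] at k1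
    exact (mul_eq_zero.1 k1).resolve_left (Nat.cast_ne_zero.2 d0.ne')
  exact ⟨n, n0, by rw [← map_pow, e, map_one]⟩

end Pool.Agent.MP_f3836a_nt.GP
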