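import Pool.Agent.MP_f3836a_nt.GP.Base

/-! Part GP: functionals on cycles and the norm of a cycle. -/

set_option autoImplicit false

namespace Pool.Agent.MP_f3836a_nt.GP

open Polynomial IsLocalRing PK VE.W VE.Z

namespace GTop1

variable {K k : Type} [Field K] [Field k] [Algebra k K] {nm : Subring K → K → k}
  {P C : Set (Subring K)} {O : Subring K} {u : K} {ψ : Subring K → K} {μ : k → ℝ}

theorem nm_one (N : Nm nm) (h : Pl O) : nm O 1 = 1 := by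
  obtain ⟨d, -, e⟩ := N.con O h
  simpa using (e 1 one_ne_zero).2

theorem nm_inv (N : Nm nm) (h : Pl O) (hu : Ut O u) : nm O u⁻¹ = (nm O u)⁻¹ :=
  eq_inv_of_mul_eq_one_right (by rw [← N.mul O _ _ h hu hu.inv, mul_inv_cancel₀ hu.1, nm_one N h])

theorem nm_fn (N : Nm nm) (a : Adr μ) (h : Pl O) : Fn O fun u => μ (nm O u) :=
  ⟨fun u u' b c => by rw [N.mul O u u' h b c, a _ _ (N.ne O u h b) (N.ne O u' h c)],
    fun u u' b c e => by rw [N.cg O u u' h b c e]⟩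

theorem adr_prod (a : Adr μ) {ι : Type} (T : Finset ι) {x : ι → k} (h : ∀ i ∈ T, x i ≠ 0) :
    μ (∏ i ∈ T, x i) = ∑ i ∈ T, μ (x i) := by
  induction T using Finset.cons_induction with
  | empty => simpa using a 1 1 one_ne_zero one_ne_zero
  | cons i T hi ih =>
    have h' : ∀ j ∈ T, x j ≠ 0 := fun j hj => h j (Finset.mem_cons_of_mem hj)
    rw [Finset.prod_cons, Finset.sum_cons, a _ _ (h i (Finset.mem_cons_self _ _))
      (Finset.prod_ne_zero_iff.2 h'), ih h']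

theorem ex_T (N : Nm nm) (S : Sf P C) (h : Cy P C ψ) : ∃ T : Finset (Subring K),
    (∀ O ∈ T, Pl O) ∧ ∏ᶠ (O) (_ : Pl O), nm O (ψ O) = ∏ O ∈ T, nm O (ψ O) ∧
      ∀ μ, Adr μ → ∑ᶠ (O) (_ : Pl O), μ (nm O (ψ O)) = ∑ O ∈ T, μ (nm O (ψ O)) := by
  have f : {O | Pl O ∧ ¬Nu O (ψ O - 1)}.Finite := h.fin.subset fun O o => ⟨S.hor O o.1, o.2⟩
  refine ⟨f.toFinset, fun O o => (f.mem_toFinset.1 o).1,
    finprod_cond_eq_prod_of_cond_iff _ fun {O} e => ?_,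
    fun μ a => finsum_cond_eq_sum_of_cond_iff _ fun {O} e => ?_⟩ <;>
  refine ⟨fun o => f.mem_toFinset.2 ⟨o, fun b => e ?_⟩, fun o => (f.mem_toFinset.1 o).1⟩
  · rw [N.cg O _ _ o (h.us O o.1) ut_one b, nm_one N o]
  · exact (nm_fn N a o).nu (h.us O o.1) b

theorem nm_int [CharZero K] (N : Nm nm) (h : Pl O) : ∃ d : ℕ, ∀ n : ℕ, n ≠ 0 → ∀ u, Ut O u →
    Itg O (n * u) → ∀ m : ℕ, n ∣ m → IsIntegral ℤ ((m : k) ^ d * nm O u) := by
  obtain ⟨d, -, e⟩ := N.con O h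
  refine ⟨d, fun n hn u hu hi m ⟨c, hc⟩ => ?_⟩
  have a := (e n fun z => hn (by simpa using congrArg (algebraMap k K) z)).2
  have b := N.int O _ h ((ho_ut h.2 hn).mul hu) hi
  rw [map_natCast] at a
  rw [N.mul O _ _ h (ho_ut h.2 hn) hu, a] at b
  rw [hc, Nat.cast_mul, mul_comm (n : k), mul_pow, mul_assoc]
  exact (IsIntegral.pow (by simpa using isIntegral_algebraMap (R := ℤ) (A := k) (x := c)) d).mul b

end GTop1

open GTop1

theorem gTop1 : OfTop1 := by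
  classical
  intro hS hM K _ _ P C M S M0 k _ _ nm lam μ ψ N hK a e hψ
  let m : Subring K → K → ℝ := fun O u => if Ho O then μ (nm O u) else 0
  have fm : ∀ O, Cm C M O → Fn O (m O) := fun O o => by
    by_cases h : Ho O
    · simpa only [m, if_pos h] using nm_fn N a (S.pl.2 ⟨o.1, h⟩)
    · exact ⟨fun _ _ _ _ => by simp [m, h], fun _ _ _ _ _ => by simp [m, h]⟩
  have key : ∀ ψ, Cy P C ψ → ∑ᶠ (O) (_ : Cm C M O), (lam O (ψ O) - m O (ψ O)) =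
      ∑ᶠ (O) (_ : Cm C M O), lam O (ψ O) - ∑ᶠ (O) (_ : Pl O), μ (nm O (ψ O)) := fun ψ h => by
    have := finsum_mem_add_distrib'
      (S.fin_fn (c := Cm C M) h fun O o => ⟨o.1, (hK.fn O o).sub (fm O o)⟩)
      (S.fin_fn (c := Cm C M) h fun O o => ⟨o.1, fm O o⟩)
    simp only [sub_add_cancel] at this
    refine (eq_sub_of_add_eq this.symm).trans (congrArg _ (finsum_congr fun O => ?_))
    rw [finsum_eq_if, finsum_eq_if]
    by_cases o : Pl O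
    · rw [if_pos o, if_pos (show O ∈ {O | Cm C M O} from ⟨S.hor O o, .inl o.2⟩)]
      exact if_pos o.2
    · rw [if_neg o]
      exact ite_eq_right_iff.2 fun b => if_neg fun c => o (S.pl.2 ⟨b.1, c⟩)
  have := hM K P C M S M0 (fun O u => lam O u - m O u)
    ⟨fun O o => (hK.fn O o).sub (fm O o), fun f g f0 g0 => by
      rw [key _ (S.cy_tame f0 g0), hK.bd f g f0 g0, N.weil μ a f g f0 g0, sub_zero]⟩
    (fun O o h u hu b => by
      simp only [m, if_pos h, e O u (S.pl.2 ⟨o, h⟩) hu ((hS K P C M S M0).2.2 O o h u hu b),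
        sub_self]) ψ hψ
  obtain ⟨T, t1, t2, t3⟩ := ex_T N S hψ
  rw [key ψ hψ, sub_eq_zero] at this
  rw [this, t2, t3 μ a, adr_prod a T fun O o => N.ne O _ (t1 O o) (hψ.us O (t1 O o).1)]

theorem gTop2 : Top2 := by
  intro K _ _ P C M S _ k _ _ nm ψ N hψ
  obtain ⟨T, t1, t2, -⟩ := ex_T N S hψ
  rw [t2]
  refine ⟨Finset.prod_ne_zero_iff.2 fun O o => N.ne O _ (t1 O o) (hψ.us O (t1 O o).1),
    fun O u o hu ⟨n, n0, c, a, b⟩ => ?_, Finset.prod_induction _ (fun x : k => ∃ M' : ℕ, M' ≠ 0 ∧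
      ∀ M'' : ℕ, M' ∣ M'' → ∃ j : ℕ, IsIntegral ℤ ((M'' : k) ^ j * x) ∧
        IsIntegral ℤ ((M'' : k) ^ j * x⁻¹)) ?_
      ⟨1, one_ne_zero, fun _ _ => ⟨0, by simpa using isIntegral_one⟩⟩ fun O o => ?_⟩
  · obtain ⟨d, h⟩ := nm_int N o
    refine ⟨n ^ d, pow_ne_zero d n0, c.pow_left d, ?_⟩
    rw [Nat.cast_pow, ← nm_inv N o hu]
    exact ⟨h n n0 u hu a n dvd_rfl, h n n0 _ hu.inv b n dvd_rfl⟩
  · rintro x y ⟨a, a0, ha⟩ ⟨b, b0, hb⟩
    refine ⟨a * b, mul_ne_zero a0 b0, fun m hm => ?_⟩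
    obtain ⟨i, i1, i2⟩ := ha m (dvd_of_mul_right_dvd hm)
    obtain ⟨j, j1, j2⟩ := hb m (dvd_of_mul_left_dvd hm)
    exact ⟨i + j, by rw [pow_add, mul_mul_mul_comm]; exact i1.mul j1,
      by rw [pow_add, mul_inv, mul_mul_mul_comm]; exact i2.mul j2⟩
  · have p := t1 O o
    have hu := hψ.us O p.1
    obtain ⟨d, h⟩ := nm_int N p
    obtain ⟨a, a0, ha⟩ := N.alg O _ p hu.2.1
    obtain ⟨b, b0, hb⟩ := N.alg O _ p hu.2.2
    exact ⟨a * b, mul_ne_zero a0 b0, fun m hm => ⟨d, h a a0 _ hu ha m (dvd_of_mul_right_dvd hm),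
      nm_inv N p hu ▸ h b b0 _ hu.inv hb m (dvd_of_mul_left_dvd hm)⟩⟩

end Pool.Agent.MP_f3836a_nt.GP
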