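import Pool.Agent.MP_f3836a_nt.GP.Base

/-! Part GP: valuation rings inside a discrete valuation ring. -/

set_option autoImplicit false

namespace Pool.Agent.MP_f3836a_nt.GP

open Polynomial IsLocalRing PK VE.W VE.Z

namespace GVal

theorem int_of {A κ : Type} [CommRing A] [Field κ] [Algebra A κ] (x : κ)
    (h : ∀ V : ValuationSubring κ, (∀ a, algebraMap A κ a ∈ V) → x ∈ V) : IsIntegral A x := by
  have hx : x ∈ (integralClosure (Subring.closure (Set.range (algebraMap A κ))) κ).toSubring := by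
    rw [← iInf_valuationSubring_superset]
    exact Subring.mem_iInf.2 fun V => h V.1 fun a => V.2 ⟨a, rfl⟩
  have e : Subring.closure (Set.range (algebraMap A κ)) = (algebraMap A κ).range :=
    Subring.closure_eq (algebraMap A κ).range
  rw [e] at hx
  let _ : Algebra A (algebraMap A κ).range := (algebraMap A κ).rangeRestrict.toAlgebra
  have : IsScalarTower A (algebraMap A κ).range κ := .of_algebraMap_eq' rfl
  have : Algebra.IsIntegral A (algebraMap A κ).range :=
    ⟨RingHom.isIntegral_of_surjective _ (algebraMap A κ).rangeRestrict_surjective⟩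
  exact isIntegral_trans (A := (algebraMap A κ).range) x hx

theorem int_loc {R κ : Type} [CommRing R] [Field κ] [Algebra R κ] (T : Submonoid R)
    (hT : ∀ t : T, algebraMap R κ t ≠ 0) (x : κ)
    (h : ∀ V : ValuationSubring κ, (∀ t : T, (algebraMap R κ t)⁻¹ ∈ V) → x ∈ V) :
    ∃ t : T, IsIntegral R (algebraMap R κ t * x) := by
  have hT' : ∀ t : T, IsUnit (algebraMap R κ t) := fun t => (hT t).isUnit
  let _ : Algebra (Localization T) κ := (IsLocalization.lift hT').toAlgebra
  have : IsScalarTower R (Localization T) κ :=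
    .of_algebraMap_eq' (IsLocalization.lift_comp hT').symm
  obtain ⟨t, ht⟩ := IsIntegral.exists_multiple_integral_of_isLocalization T x
    (int_of (A := Localization T) _ fun V hV => h V fun t => by
      convert hV (IsLocalization.mk' _ 1 t) using 1
      symm
      refine (IsLocalization.lift_mk'_spec hT' _ _ _).2 ?_
      rw [map_one, mul_inv_cancel₀ (hT t)])
  exact ⟨t, by rwa [Submonoid.smul_def, Algebra.smul_def] at ht⟩

theorem tor {κ : Type} [Field κ] {x : κ} {p : ℕ} (p0 : p ≠ 0) (hp : (p : κ) = 0) (x0 : x ≠ 0)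
    (h : IsIntegral ℤ x) : ∃ j : ℕ, 0 < j ∧ x ^ j = 1 := by
  have := Algebra.finite_adjoin_simple_of_isIntegral h
  have : Finite (Algebra.adjoin ℤ {x}) := Module.finite_of_fg_torsion _ fun y =>
    ⟨⟨p, mem_nonZeroDivisors_of_ne_zero (Nat.cast_ne_zero.2 p0)⟩, Subtype.ext (by
      simp [Submonoid.smul_def, hp])⟩
  have k : IsOfFinOrder (Units.mk0 x x0) := by
    by_contra k
    obtain ⟨i, j, h1, h2⟩ := Finite.exists_ne_map_eq_of_infinite fun n : ℕ =>
      (⟨x, Algebra.self_mem_adjoin_singleton ℤ x⟩ : Algebra.adjoin ℤ {x}) ^ n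
    exact h1 (injective_pow_iff_not_isOfFinOrder.2 k (Units.ext (by
      simpa using congrArg Subtype.val h2)))
  obtain ⟨j, hj, e⟩ := isOfFinOrder_iff_pow_eq_one.1 k
  exact ⟨j, hj, by simpa using congrArg Units.val e⟩

variable {K : Type} [Field K] {O : Subring K} [IsLocalRing O]

theorem nu_res (a : O) : Nu O a ↔ residue O a = 0 := by
  rw [nu_iff, residue_eq_zero_iff, mem_maximalIdeal, mem_nonunits_iff]

theorem itg (a : O) : Itg O a ↔ IsIntegral ℤ (residue O a) := by
  refine exists_congr fun q => and_congr_right fun _ => ?_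
  have e1 : aeval (a : K) q = (aeval a q : O) :=
    aeval_algHom_apply O.subtype.toIntAlgHom a q
  have e2 : aeval (residue O a) q = residue O (aeval a q) :=
    aeval_algHom_apply (residue O).toIntAlgHom a q
  rw [e1, nu_res, ← e2, aeval_def]

theorem res_inv {a : K} (h : Ut O a) :
    residue O ⟨a⁻¹, h.2.2⟩ = (residue O ⟨a, h.2.1⟩)⁻¹ := by
  refine eq_inv_of_mul_eq_one_left ?_
  rw [← map_mul, ← map_one (residue O)]
  exact congrArg _ (Subtype.ext (inv_mul_cancel₀ h.1))

/-- the composite valuation ring -/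
def up (V : ValuationSubring (ResidueField O)) : Subring K :=
  (V.toSubring.comap (residue O)).map O.subtype

theorem mem_up {V : ValuationSubring (ResidueField O)} (a : O) :
    (a : K) ∈ up V ↔ residue O a ∈ V :=
  ⟨fun ⟨_, h, e⟩ => Subtype.ext e ▸ h, fun h => ⟨a, h, rfl⟩⟩

theorem up_le (V : ValuationSubring (ResidueField O)) : up V ≤ O := fun _ ⟨a, _, e⟩ => e ▸ a.2

theorem up_vr (h : Vr O) (V : ValuationSubring (ResidueField O)) : Vr (up V) := by
  have k : ∀ a ∈ O, a ∈ up V ∨ a⁻¹ ∈ up V := fun a ha => by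
    rcases nu_or ha with n | u
    · exact .inl ((mem_up ⟨a, ha⟩).2 ((nu_res ⟨a, ha⟩).1 n ▸ V.zero_mem))
    · exact (V.mem_or_inv_mem (residue O ⟨a, ha⟩)).imp (mem_up ⟨a, ha⟩).2 fun e =>
        (mem_up ⟨a⁻¹, u.2.2⟩).2 (res_inv u ▸ e)
  exact fun z => (h z).elim (k z) fun e => by simpa [or_comm] using k _ e

theorem three (hv : Vr O) (M : ℕ) (z : O) (ho : Ho O)
    (h : ∀ W, Vr W → W ≤ O → (∀ n : ℕ, n.Coprime M → (n : K)⁻¹ ∈ W) → (z : K) ∈ W) :
    ∃ n : ℕ, n ≠ 0 ∧ n.Coprime M ∧ ∀ m : ℕ, n ∣ m → Itg O (m * z) := by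
  let T : Submonoid ℤ :=
    { carrier := {t | (t : ResidueField O) ≠ 0 ∧ IsCoprime t M}
      mul_mem' := fun a b => ⟨by push_cast; exact mul_ne_zero a.1 b.1, a.2.mul_left b.2⟩
      one_mem' := ⟨by simp, isCoprime_one_left⟩ }
  obtain ⟨t, ht⟩ := int_loc T (fun t => t.2.1) (residue O z) fun V hV =>
    (mem_up z).1 (h _ (up_vr hv V) (up_le V) fun n hn => by
      by_cases n0 : (n : K) = 0
      · rw [n0, inv_zero]; exact Subring.zero_mem _
      have u : Ut O (n : K) := ⟨n0, natCast_mem O n, ho n fun e => n0 (by simp [e])⟩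
      have e : residue O ⟨n, u.2.1⟩ = n := map_natCast (residue O) n
      have n1 : (n : ResidueField O) ≠ 0 := fun k =>
        ((nu_res (O := O) ⟨n, u.2.1⟩).2 (e.trans k)).not u
      refine (mem_up ⟨_, u.2.2⟩).2 ?_
      rw [res_inv u, e]
      simpa using hV ⟨n, by simpa using n1, Nat.isCoprime_iff_coprime.2 hn⟩)
  refine ⟨(t : ℤ).natAbs, Int.natAbs_ne_zero.2 fun e => t.2.1 (by simp [e]),
    Int.isCoprime_iff_gcd_eq_one.1 t.2.2, fun m hm => ?_⟩
  obtain ⟨c, hc⟩ : (t : ℤ) ∣ m := Int.natAbs_dvd.1 (Int.natCast_dvd_natCast.2 hm)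
  have e : (m : K) * z = ((m : O) * z : O) := by simp
  have k := (isIntegral_algebraMap (x := c)).mul ht
  rw [← mul_assoc, ← map_mul, mul_comm c, ← hc, map_natCast] at k
  rwa [e, itg, map_mul, map_natCast]

end GVal

open GVal in
theorem gVal : ValS := fun K _ O hO => by
  have := (dvA hO).loc
  have hv : Vr O := (dvA hO).val
  refine ⟨fun W hW e => ⟨inferInstanceAs (IsLocalRing (ValuationSubring.ofSubring W hW)),
    fun z hz => hz.2.elim (fun k => k ▸ W.zero_mem) fun k => (hW z).resolve_right fun k' =>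
      k (e k')⟩, fun z hz h => ?_, fun M z hz => three hv M ⟨z, hz⟩, fun p z hp n u h => ?_⟩
  · exact (itg ⟨z, hz⟩).2 (int_of _ fun V _ => (mem_up ⟨z, hz⟩).1 (h _ (up_vr hv V) (up_le V)))
  · obtain ⟨j, hj, e⟩ := tor hp.ne_zero ((map_natCast (residue O) p).symm.trans
      ((nu_res (p : O)).1 n)) (fun k => ((nu_res ⟨z, u.2.1⟩).2 k).not u) ((itg ⟨z, u.2.1⟩).1 h)
    exact ⟨j, hj, (nu_res ((⟨z, u.2.1⟩ : O) ^ j - 1)).2
      (by rw [map_sub, map_pow, e, map_one, sub_self])⟩

end Pool.Agent.MP_f3836a_nt.GP
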