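import Pool.Agent.MP_f3836a_nt.GP.Base

/-! Part GP: the differentials are cyclic away from finitely many primes. -/

set_option autoImplicit false

namespace Pool.Agent.MP_f3836a_nt.GP

open Polynomial IsLocalRing PK VE.W VE.Z

namespace GdA

variable {B : Type} [CommRing B]

/-- a local form of the lemma of Nakayama -/
theorem nak {M : Type} [AddCommGroup M] [Module B M] [Module.Finite B M] {q : Ideal B}
    (hq : q.IsPrime) (P : Submodule B M) (h : ∀ m, ∃ s, s ∉ q ∧ s • m ∈ q • ⊤ ⊔ P) :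
    ∃ r, r ∉ q ∧ ∀ m, r • m ∈ P := by
  have h1 : (⟨q, hq⟩ : PrimeSpectrum B) ∉
      Module.support B ((M ⧸ P) ⧸ (q • ⊤ : Submodule B (M ⧸ P))) := by
    refine Module.notMem_support_iff'.2 fun m => ?_
    obtain ⟨m, rfl⟩ := Submodule.mkQ_surjective _ m
    obtain ⟨m, rfl⟩ := P.mkQ_surjective m
    obtain ⟨s, hs, e⟩ := h m
    refine ⟨s, hs, ?_⟩
    rw [← map_smul, ← map_smul, Submodule.mkQ_apply, Submodule.Quotient.mk_eq_zero]
    have := Submodule.mem_map_of_mem (f := P.mkQ) e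
    rw [Submodule.map_sup, Submodule.mkQ_map_self, sup_bot_eq, Submodule.map_smul''] at this
    exact Submodule.smul_mono le_rfl le_top this
  rw [Module.support_quotient] at h1
  have h2 := mt (Module.mem_support_iff_of_finite (p := ⟨q, hq⟩)).2 fun e =>
    h1 ⟨e, fun _ h => h⟩
  obtain ⟨r, h3, h4⟩ := SetLike.not_le_iff_exists.1 h2
  exact ⟨r, h4, fun m => (Submodule.Quotient.mk_eq_zero P).1
    (Module.mem_annihilator.1 h3 (P.mkQ m))⟩

/-- a relation of least degree -/
theorem least {A : Type} [CommRing A] [IsDomain A] [CharZero A] (f : A →+* B) {q : Ideal B}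
    (hf : ∀ a, f a ∈ q → a = 0) (b : B) (P : A[X]) (h0 : P ≠ 0) (h : eval₂ f b P ∈ q) :
    ∃ P : A[X], eval₂ f b P ∈ q ∧ eval₂ f b (derivative P) ∉ q := by
  induction hn : P.natDegree using Nat.strong_induction_on generalizing P with
  | _ n ih =>
    by_cases h1 : eval₂ f b (derivative P) ∈ q
    · have h2 : derivative P ≠ 0 := fun e => by
        rw [eq_C_of_derivative_eq_zero e, eval₂_C] at h
        exact h0 (by rw [eq_C_of_derivative_eq_zero e, hf _ h, C_0])
      exact ih _ (hn ▸ natDegree_derivative_lt (mt derivative_eq_zero.2 h2)) _ h2 h1 rfl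
    · exact ⟨P, h, h1⟩

theorem chain {A M : Type} [CommRing A] [AddCommGroup M] [Module B M] (D : Derivation ℤ B M)
    (f : A →+* B) {W : Submodule B M} (hD : ∀ a, D (f a) ∈ W) (b : B) (P : A[X]) :
    D (eval₂ f b P) - eval₂ f b (derivative P) • D b ∈ W := by
  induction P using Polynomial.induction_on' with
  | add P Q h h' =>
    rw [eval₂_add, map_add, map_add, eval₂_add, add_smul, add_sub_add_comm]
    exact add_mem h h'
  | monomial n a =>
    rw [derivative_monomial, eval₂_monomial, eval₂_monomial, D.leibniz, D.leibniz_pow, map_mul,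
      map_natCast, ← Nat.cast_smul_eq_nsmul B, smul_smul, smul_smul, add_sub_cancel_left]
    exact W.smul_mem _ (hD a)

theorem key [Algebra.FiniteType ℤ B] {A : Type} [CommRing A] [IsDomain A] [CharZero A]
    (f : A →+* B) {q : Ideal B} (hq : q.IsPrime) (t : B) (hf : ∀ a, f a ∈ q → a = 0)
    (hD : ∀ a, KaehlerDifferential.D ℤ B (f a) ∈ B ∙ KaehlerDifferential.D ℤ B t)
    (h1 : ∀ a ∈ q, ∃ s, s ∉ q ∧
      s • KaehlerDifferential.D ℤ B a ∈ q • ⊤ ⊔ B ∙ KaehlerDifferential.D ℤ B t)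
    (h2 : ∀ b, ∃ P : A[X], P ≠ 0 ∧ eval₂ f b P ∈ q) : ∃ s, s ∉ q ∧ Cy1 s t := by
  obtain ⟨r, h3, h4⟩ := nak hq (B ∙ KaehlerDifferential.D ℤ B t) fun m => by
    have hm : m ∈ Submodule.span B (Set.range (KaehlerDifferential.D ℤ B)) :=
      (KaehlerDifferential.span_range_derivation ℤ B).symm ▸ Submodule.mem_top
    induction hm using Submodule.span_induction with
    | mem m hm =>
      obtain ⟨b, rfl⟩ := hm
      obtain ⟨P, p0, p1⟩ := h2 b
      obtain ⟨P, p2, p3⟩ := least f hf b P p0 p1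
      obtain ⟨s, s1, s2⟩ := h1 _ p2
      refine ⟨s * eval₂ f b (derivative P), fun e => (hq.mem_or_mem e).elim s1 p3, ?_⟩
      have := sub_mem s2 (Submodule.mem_sup_right (Submodule.smul_mem _ s (chain _ f hD b P)))
      rwa [smul_sub, sub_sub_cancel, smul_smul] at this
    | zero => exact ⟨1, (Ideal.ne_top_iff_one q).1 hq.ne_top, by simp⟩
    | add m m' _ _ h h' =>
      obtain ⟨s, s1, s2⟩ := h
      obtain ⟨s', s1', s2'⟩ := h'
      refine ⟨s * s', fun e => (hq.mem_or_mem e).elim s1 s1', ?_⟩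
      rw [smul_add]
      refine add_mem ?_ (mul_smul s s' m' ▸ Submodule.smul_mem _ s s2')
      rw [mul_comm, mul_smul]
      exact Submodule.smul_mem _ s' s2
    | smul c m _ h =>
      obtain ⟨s, s1, s2⟩ := h
      exact ⟨s, s1, smul_comm c s m ▸ Submodule.smul_mem _ c s2⟩
  exact ⟨r, h3, fun b => (Submodule.mem_span_singleton.1 (h4 _)).imp fun _ => Eq.symm⟩

end GdA

theorem gdA : GdA := by
  intro B _ _ _ _ td ⟨t, ht⟩ hπ
  by_contra hn
  obtain ⟨q, hq, h1, h2⟩ := (Ideal.span {s : B | ∃ t, Cy1 s t}).exists_le_prime_disjoint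
    ((nonZeroDivisors ℤ).map (Int.castRingHom B)) (Set.disjoint_left.2 (by
      rintro _ h ⟨n, h0, rfl⟩
      refine hn ⟨n.natAbs, Int.natAbs_ne_zero.2 (nonZeroDivisors.ne_zero h0), ?_⟩
      rw [Nat.cast_natAbs]
      rcases abs_choice n with e | e <;> rw [e]
      · exact h
      · rw [Int.cast_neg]
        exact neg_mem h))
  have h3 : ∀ n : ℤ, (n : B) ∈ q → n = 0 := fun n h => by
    by_contra h0
    exact Set.disjoint_left.1 h2 h ⟨n, mem_nonZeroDivisors_of_ne_zero h0, rfl⟩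
  suffices ∃ t s, s ∉ q ∧ Cy1 s t by
    obtain ⟨t, s, h4, h5⟩ := this
    exact h4 (h1 (Ideal.subset_span ⟨t, h5⟩))
  by_cases h0 : q = ⊥
  · subst h0
    refine ⟨t, GdA.key (aeval t : ℤ[X] →ₐ[ℤ] B).toRingHom hq t
      (fun a h => transcendental_iff.1 ht a h) (fun a => ?_)
      (fun a h => ⟨1, by simp, by simp [show a = 0 from h]⟩) fun b => td b t⟩
    exact Submodule.mem_span_singleton.2 ⟨_, (Derivation.map_aeval _ a t).symm⟩
  · obtain ⟨π, p1, p2⟩ := hπ q hq h0 h3
    refine ⟨π, GdA.key (algebraMap ℤ B) hq π h3 (fun a => by simp) (fun a h => ?_) fun b => ?_⟩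
    · obtain ⟨s, s1, c, e⟩ := p2 a h
      refine ⟨s, s1, ?_⟩
      have e' := congrArg (KaehlerDifferential.D ℤ B) e
      rw [Derivation.leibniz, Derivation.leibniz] at e'
      rw [eq_sub_of_add_eq e']
      exact sub_mem (Submodule.add_mem_sup (Submodule.smul_mem_smul p1 Submodule.mem_top)
        (Submodule.smul_mem _ _ (Submodule.mem_span_singleton_self _)))
        (Submodule.mem_sup_left (Submodule.smul_mem_smul h Submodule.mem_top))
    · have := Ideal.isPrime_bot (α := B)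
      obtain ⟨a, a1, a0⟩ := SetLike.exists_of_lt (bot_lt_iff_ne_bot.2 h0)
      obtain ⟨P, hP, e⟩ := td a b
      obtain ⟨Q, hQ, e'⟩ := za_low _ ⊥ ⊥ a0 P ⟨_, leadingCoeff_ne_zero.2 hP⟩
        (fun c hc => by rw [show c = 0 from hc, map_zero]; exact zero_mem _) e
      exact ⟨Q, hQ, sup_le bot_le ((Ideal.span_singleton_le_iff_mem _).2 a1) e'⟩

end Pool.Agent.MP_f3836a_nt.GP
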