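import Pool.Agent.MP_f3836a_nt.GP.SpecT
import Pool.Agent.MP_f3836a_nt.GP.GSf

/-! Part T: weak approximation and finiteness of the extensions. -/

set_option autoImplicit false

namespace Pool.Agent.MP_f3836a_nt.GP

open Polynomial IsLocalRing PK VE.W VE.Z IntermediateField Filter

namespace TAp

variable {K : Type} [Field K] {S S' : Subring K} {y z : K}

theorem inv (h : Dvr S) (hz : z ∉ S) : Nu S z⁻¹ :=
  ⟨((dvA h).val z).resolve_left hz, .inr (by rwa [inv_inv])⟩

theorem pw (h : Nu S z) (n : ℕ) : Nu S (z ^ (n + 1)) := pow_succ z n ▸ h.mul (pow_mem h.1 n)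

theorem pair (h : Dvr S) (h' : Dvr S') (e : S' ≠ S) : ∃ y, Nu S y ∧ y ∉ S' := by
  obtain ⟨a, a1, a2⟩ := SetLike.not_le_iff_exists.1 fun l => e (dvr_eq h h' l).symm
  obtain ⟨b, b1, b2⟩ := SetLike.not_le_iff_exists.1 fun l => e (dvr_eq h' h l)
  refine ⟨_, (inv h b2).mul a1, fun c => a2 ?_⟩
  have := mul_mem c b1
  rwa [inv_mul_cancel_right₀ fun o => b2 (by rw [o]; exact S.zero_mem)] at this

theorem arch (h : Dvr S) (hz : z ∉ S) (y : K) : ∀ᶠ n : ℕ in atTop, Nu S (y * z⁻¹ ^ n) := by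
  have A := dvA h
  have z0 : z⁻¹ ≠ 0 := inv_ne_zero fun o => hz (by rw [o]; exact S.zero_mem)
  have z1 := ((A.nu _).1 (inv h hz)).resolve_left z0
  filter_upwards [eventually_gt_atTop (ordR S y).natAbs] with n hn
  by_cases y0 : y = 0
  · rw [y0, zero_mul]; exact nu_zero
  refine (A.nu _).2 (.inr ?_)
  rw [A.mul _ _ y0 (pow_ne_zero n z0), ← zpow_natCast, A.zpow _ _ z0]
  have : (n : ℤ) * 1 ≤ n * ordR S z⁻¹ := mul_le_mul_of_nonneg_left z1 (Int.natCast_nonneg n)
  omega

theorem sep (h : Dvr S) (T : Finset (Subring K)) (hT : ∀ S' ∈ T, Dvr S') :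
    ∃ z, Nu S z ∧ ∀ S' ∈ T, S' ≠ S → z ∉ S' := by
  classical
  have := (dvA h).loc
  induction T using Finset.induction_on with
  | empty => exact ⟨0, nu_zero, by simp⟩
  | insert U T _ ih =>
    rw [Finset.forall_mem_insert] at hT
    obtain ⟨z, z1, z2⟩ := ih hT.2
    by_cases c : U ≠ S → z ∉ U
    · exact ⟨z, z1, (Finset.forall_mem_insert _ _ _).2 ⟨c, z2⟩⟩
    rw [Classical.not_imp, not_not] at c
    obtain ⟨y, y1, y2⟩ := pair h hT.1 c.1
    obtain ⟨n, hn⟩ := eventually_atTop.1 ((eventually_all_finset T).2 fun S' k =>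
      show ∀ᶠ n : ℕ in atTop, S' ≠ S → Nu S' (y * z⁻¹ ^ n) from
        eventually_imp_distrib_left.2 fun e => arch (hT.2 S' k) (z2 S' k e) y)
    refine ⟨z ^ (n + 1) + y, (pw z1 n).add y1, (Finset.forall_mem_insert _ _ _).2
      ⟨fun _ k => y2 (by simpa using sub_mem k (pow_mem c.2 (n + 1))), fun S' k e m => ?_⟩⟩
    have := (dvA (hT.2 S' k)).loc
    have z0 : z ≠ 0 := fun o => z2 S' k e (by rw [o]; exact S'.zero_mem)
    have := (pw (inv (hT.2 S' k) (z2 S' k e)) n).mul m
    rw [add_mul, ← mul_pow, mul_inv_cancel₀ z0, one_pow] at this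
    exact this.not (ut_one.add (hn _ n.le_succ S' k e))

end TAp

open TAp in
theorem tAp : ApS := by
  intro F _ T hT a N ha
  classical
  choose! z z1 z2 using fun S h => sep (hT S h) T hT
  obtain ⟨n, hn⟩ := eventually_atTop.1 ((eventually_all_finset T).2 fun S k =>
    (eventually_all_finset T).2 fun S' k' =>
      show ∀ᶠ n : ℕ in atTop, S' ≠ S → Nu S' (a S * (z S)⁻¹ ^ n) from
        eventually_imp_distrib_left.2 fun e => arch (hT S' k') (z2 S k S' k' e) _)
  refine ⟨∑ S ∈ T, a S / (1 + z S ^ (N + n + 1)), fun S h => ?_⟩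
  have := (dvA (hT S h)).loc
  suffices k : Pw S N _ from ⟨by
    simpa using add_mem ((AddSubgroup.closure_le S.toAddSubgroup).2 (by
      rintro _ ⟨s, c, h1, h2, rfl⟩
      exact S.mul_mem (pow_mem h1.1 N) h2) k : _ ∈ S) (ha S h), k⟩
  rw [← Finset.add_sum_erase _ _ h, add_sub_right_comm]
  refine add_mem (AddSubgroup.subset_closure ?_) (sum_mem fun S' e => AddSubgroup.subset_closure ?_)
  · have u := ut_one.add (pw (z1 S h) (N + n))
    refine ⟨_, _, z1 S h, neg_mem (mul_mem (mul_mem (ha S h) (pow_mem (z1 S h).1 (n + 1))) u.2.2),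
      ?_⟩
    have := u.1
    field_simp
    ring
  · obtain ⟨e, h'⟩ := Finset.mem_erase.1 e
    have k := z2 S' h' S h e.symm
    have u := ut_one.add (pw (inv (hT S h) k) (N + n))
    have z0 : z S' ≠ 0 := fun o => k (by rw [o]; exact S.zero_mem)
    refine ⟨_, _, inv (hT S h) k, mul_mem (hn _ n.le_succ S' h' S h e.symm).1 u.2.2, ?_⟩
    have e1 : 1 + z S' ^ (N + n + 1) = z S' ^ (N + n + 1) * (1 + (z S')⁻¹ ^ (N + n + 1)) := by
      rw [mul_add, ← mul_pow, mul_inv_cancel₀ z0, one_pow, mul_one, add_comm]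
    rw [e1, div_eq_mul_inv, mul_inv, ← inv_pow, Nat.succ_eq_add_one]
    ring

theorem tFe : FeS := by
  intro F F' _ _ _ _ _ O hO
  classical
  by_contra c
  obtain ⟨T, hT, e⟩ := Set.Infinite.exists_subset_card_eq c (Module.finrank F F' + 1)
  have dv : ∀ S ∈ T, Dvr S := fun S h => (hT h).1
  choose z z1 z2 using fun S : T => TAp.sep (dv S S.2) T dv
  have li : LinearIndependent F fun S : T => (1 + z S)⁻¹ := Fintype.linearIndependent_iff.2
    fun g hg => by
      by_contra! k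
      obtain ⟨i, hi, m⟩ := GSf.cht k (dvA hO).val
      have := (dvA (dv i i.2)).loc
      have h1 := congrArg (fun x => (g i)⁻¹ • x) hg
      simp only [Finset.smul_sum, smul_smul, smul_zero, inv_mul_eq_div] at h1
      simp only [Algebra.smul_def] at h1
      rw [← Finset.add_sum_erase _ _ (Finset.mem_univ i), div_self hi, map_one, one_mul] at h1
      refine ((ut_one.add (z1 i)).inv.add (Finset.sum_induction _ _ (fun _ _ => Nu.add) nu_zero
        fun j hj => Nu.mul (TAp.inv (dv i i.2) fun o => z2 j i i.2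
          (fun p => Finset.ne_of_mem_erase hj (Subtype.ext p.symm)) ?_) ?_)).1 h1
      · simpa using sub_mem o (one_mem i.1)
      · exact ((hT i.2).2.ge (m j) :)
  have := li.fintype_card_le_finrank
  rw [Fintype.card_coe] at this
  omega

end Pool.Agent.MP_f3836a_nt.GP
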