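import Pool.Agent.MP_f3836a_nt.GP.SpecT

/-! Part T: extension of the constants. -/

set_option autoImplicit false

namespace Pool.Agent.MP_f3836a_nt.GP

open Polynomial IsLocalRing PK VE.W VE.Z IntermediateField

namespace TBc

variable {k F : Type} [Field k] [Field F] [Algebra k F]

theorem lift (h : Cl k F) {q : k[X]} (hq : q.Monic) {f : F[X]} (hf : f.Monic)
    (e : f ∣ q.map (algebraMap k F)) : ∃ g : k[X], g.map (algebraMap k F) = f ∧ g.Monic := by
  have : Algebra.IsAlgebraic ℤ k := ⟨h.al⟩
  obtain ⟨g, a, -, b⟩ := lifts_and_natDegree_eq_and_monic ((lifts_iff_coeff_lifts f).2 fun n =>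
    h.cl _ ((isIntegral_coeff_of_dvd q f hq hf e n).trans_isAlgebraic ℤ)) hf
  exact ⟨g, a, b⟩

theorem irr (h : Cl k F) {q : k[X]} (hq : q.Monic) (hi : Irreducible q) :
    Irreducible (q.map (algebraMap k F)) := by
  have j := map_injective _ (algebraMap k F).injective
  refine (irreducible_of_monic (hq.map _) fun e => hi.ne_one (j (e.trans
    (Polynomial.map_one _).symm))).2 fun f g hf hg e => ?_
  obtain ⟨f, rfl, a⟩ := lift h hq hf (e ▸ dvd_mul_right f g)
  obtain ⟨g, rfl, b⟩ := lift h hq hg (e ▸ dvd_mul_left g _)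
  exact ((irreducible_of_monic hq hi.ne_one).1 hi f g a b (j ((Polynomial.map_mul _).trans e))).imp
    (fun r => by rw [r, Polynomial.map_one]) fun r => by rw [r, Polynomial.map_one]

theorem le [CharZero k] (h : Cl k F) {F' : Type} [Field F'] [Algebra F F'] [Algebra k F']
    [IsScalarTower k F F'] [FiniteDimensional F F'] (E : IntermediateField k F')
    [FiniteDimensional k E] : Module.finrank k E ≤ Module.finrank F F' := by
  let pb := Field.powerBasisOfFiniteOfSeparable k E
  have m := minpoly.monic pb.isIntegral_gen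
  have := minpoly.natDegree_le (A := F) (pb.gen : F')
  rwa [← minpoly.eq_of_irreducible_of_monic (irr h m (minpoly.irreducible pb.isIntegral_gen))
    (by rw [aeval_map_algebraMap, E.minpoly_eq, minpoly.aeval]) (m.map _), natDegree_map,
    pb.natDegree_minpoly, ← pb.finrank] at this

end TBc

open TBc

theorem tBc : BcS := by
  intro k k' F _ _ _ _ _ _ _ h
  have : CharZero k := (algebraMap k F).charZero
  have : Algebra.IsAlgebraic ℤ k := ⟨h.al⟩
  let pb := Field.powerBasisOfFiniteOfSeparable k k'
  have m := minpoly.monic pb.isIntegral_gen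
  have i : Fact (Irreducible ((minpoly k pb.gen).map (algebraMap k F))) :=
    ⟨irr h m (minpoly.irreducible pb.isIntegral_gen)⟩
  let F' := AdjoinRoot ((minpoly k pb.gen).map (algebraMap k F))
  let φ : k' →ₐ[k] F' := pb.lift (AdjoinRoot.root _) (by
    rw [← aeval_map_algebraMap F, AdjoinRoot.aeval_eq, AdjoinRoot.mk_self])
  let pb' := AdjoinRoot.powerBasis i.out.ne_zero
  have fd : FiniteDimensional F F' := pb'.finite
  have e : Module.finrank F F' = Module.finrank k k' := by
    rw [pb'.finrank, AdjoinRoot.powerBasis_dim, natDegree_map, pb.natDegree_minpoly, pb.finrank]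
  let _ : Algebra k' F' := φ.toRingHom.toAlgebra
  refine ⟨F', inferInstance, inferInstance, inferInstance, inferInstance, inferInstance,
    .of_algebraMap_eq fun x => (φ.commutes x).symm, fd, e, top_le_iff.1
      (AdjoinRoot.adjoinRoot_eq_top.ge.trans (Algebra.adjoin_mono ?_)),
    fun c => (Algebra.IsIntegral.isIntegral (R := k) c).trans_isAlgebraic ℤ, fun z hz => ?_⟩
  · exact Set.singleton_subset_iff.2 ⟨pb.gen, pb.lift_gen _ _⟩
  · have := adjoin.finiteDimensional (hz.extendScalars (algebraMap ℤ k).injective_int).isIntegral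
    have := φ.equivFieldRange.toLinearEquiv.finiteDimensional
    have r := eq_of_le_of_finrank_le (le_sup_left : φ.fieldRange ≤ φ.fieldRange ⊔ k⟮z⟯)
      ((le h _).trans (e.trans φ.equivFieldRange.toLinearEquiv.finrank_eq).le)
    exact (r ▸ (le_sup_right : k⟮z⟯ ≤ φ.fieldRange ⊔ k⟮z⟯) (mem_adjoin_simple_self k z) :
      z ∈ φ.fieldRange)

end Pool.Agent.MP_f3836a_nt.GP
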