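import Pool.Agent.MP_f3836a_nt.GP.SpecT

/-! Part T: the sum of the norms of the tame symbols is a symbol, and vanishes on the line. -/

set_option autoImplicit false

namespace Pool.Agent.MP_f3836a_nt.GP

open Polynomial IsLocalRing PK VE.W VE.Z IntermediateField

namespace TBt

variable {k F : Type} [Field k] [Field F] [Algebra k F] {μ : k → ℝ} {O : Subring F} {f g : F}

theorem fn (N : Nb k F) (hμ : Adr μ) (h : Pl O) : Fn O fun u => μ (nmK k O u) :=
  ⟨fun u u' a b => by rw [N.mul O u u' h a b, hμ _ _ (N.ne O u h a) (N.ne O u' h b)],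
    fun u u' a b c => by rw [N.cg O u u' h a b c]⟩

theorem ord0 (h : Pl O) (hu : Ut O f) : ordR O f = 0 := (((dvA h.1).ut f).1 hu).2

theorem zero (N : Nb k F) (hμ : Adr μ) (h : Pl O) (a : ordR O f = 0) (b : ordR O g = 0) :
    μ (nmK k O (tameE O f g)) = 0 := by
  rw [tame_l a, b, zpow_zero]
  exact (fn N hμ h).one

theorem fin (N : Nb k F) (hμ : Adr μ) (hF : Fi F) (f g : F) :
    ({O | Pl O} ∩ Function.support fun O => μ (nmK k O (tameE O f g))).Finite :=
  ((hF.fin f).union (hF.fin g)).subset fun _ o => by_contra fun e => o.2 (zero N hμ o.1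
    (by_contra fun a => e (.inl ⟨o.1, a⟩)) (by_contra fun a => e (.inr ⟨o.1, a⟩)))

theorem swap (f0 : f ≠ 0) (g0 : g ≠ 0) : tameE O f g = (tameE O g f)⁻¹ := by
  have := zpow_ne_zero (ordR O g) f0
  have := zpow_ne_zero (ordR O f) g0
  rw [tameE, tameE, mul_comm (ordR O g)]
  rcases Int.even_or_odd (ordR O f * ordR O g) with c | c <;> rw [c.neg_one_zpow] <;> field_simp

theorem two {t : Subring F → ℝ} {O₁ O₂ : Subring F} (ne : O₁ ≠ O₂) (h₁ : Pl O₁) (h₂ : Pl O₂)
    (h : ∀ O, Pl O → O ≠ O₁ → O ≠ O₂ → t O = 0) : ∑ᶠ (O) (_ : Pl O), t O = t O₁ + t O₂ := by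
  refine (finsum_mem_inter_support_eq t {O | Pl O} {O₁, O₂} (Set.ext fun O => ⟨fun o =>
    ⟨by_contra fun e => o.2 (h O o.1 (fun a => e (.inl a)) fun a => e (.inr a)), o.2⟩, ?_⟩)).trans
    (finsum_mem_pair ne)
  rintro ⟨rfl | rfl, o⟩
  exacts [⟨h₁, o⟩, ⟨h₂, o⟩]

theorem adr_one {A : Type} [Field A] {l : A → ℝ} (h : Adr l) : l 1 = 0 := by
  have := h 1 1 one_ne_zero one_ne_zero
  rw [mul_one] at this
  linarith

theorem adr_pow (h : Adr μ) {a : k} (ha : a ≠ 0) (n : ℕ) : μ (a ^ n) = n * μ a := by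
  induction n with
  | zero => simp [adr_one h]
  | succ n ih => rw [pow_succ, h _ _ (pow_ne_zero n ha) ha, ih]; push_cast; ring

theorem adr_neg (h : Adr μ) : μ (-1) = 0 := by
  have := adr_pow h (neg_ne_zero.2 one_ne_zero) 2
  rw [neg_one_sq, adr_one h] at this
  simpa using this

variable (k) in
/-- constants and irreducible polynomials -/
def Gn (x z : F) : Prop := (∃ c : k, c ≠ 0 ∧ z = algebraMap k F c) ∨
  ∃ π : k[X], π.Monic ∧ Irreducible π ∧ z = aeval x π

theorem ne0 {x : F} (hx : Transcendental k x) {a : k[X]} (ha : a ≠ 0) : aeval x a ≠ 0 :=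
  fun e => ha (transcendental_iff.1 hx a e)

theorem Gn.ne {x z : F} (hx : Transcendental k x) (h : Gn k x z) : z ≠ 0 := by
  obtain ⟨c, hc, rfl⟩ | ⟨π, hm, -, rfl⟩ := h
  exacts [(_root_.map_ne_zero _).2 hc, ne0 hx hm.ne_zero]

theorem red {x : F} (hx : Transcendental k x) (ht : k⟮x⟯ = ⊤) {l : F → ℝ} (hl : Adr l)
    (h : ∀ z, Gn k x z → l z = 0) (f0 : f ≠ 0) : l f = 0 := by
  have c : ∀ c : k, c ≠ 0 → l (aeval x (C c)) = 0 := fun c hc => h _ (.inl ⟨c, hc, aeval_C x c⟩)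
  have key : ∀ a : k[X], a ≠ 0 → l (aeval x a) = 0 := fun a => by
    induction a using WfDvdMonoid.induction_on_irreducible with
    | zero => exact fun e => (e rfl).elim
    | unit u hu =>
      obtain ⟨r, hr, rfl⟩ := Polynomial.isUnit_iff.1 hu
      exact fun _ => c r hr.ne_zero
    | mul a i ha hi ih =>
      have i0 := hi.ne_zero
      have l0 := inv_ne_zero (leadingCoeff_ne_zero.2 i0)
      have := h _ (.inr ⟨_, monic_mul_leadingCoeff_inv i0,
        irreducible_mul_leadingCoeff_inv.2 hi, rfl⟩)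
      rw [map_mul, hl _ _ (ne0 hx i0) (ne0 hx (C_ne_zero.2 l0)), c _ l0, add_zero] at this
      intro _
      rw [map_mul, hl _ _ (ne0 hx i0) (ne0 hx ha), this, ih ha, add_zero]
  obtain ⟨a, b, e⟩ := (mem_adjoin_simple_iff k f).1 (ht ▸ mem_top : f ∈ k⟮x⟯)
  have a0 : a ≠ 0 := fun a0 => f0 (by rw [e, a0, map_zero, zero_div])
  have b0 : b ≠ 0 := fun b0 => f0 (by rw [e, b0, map_zero, div_zero])
  have := hl f _ f0 (ne0 hx b0)
  rw [e, div_mul_cancel₀ _ (ne0 hx b0), key a a0, key b b0, ← e] at this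
  linarith

theorem inf {l : F → ℝ} [IsLocalRing O] (h : Fn O l) {x : F} (x0 : x ≠ 0) {d e : ℕ}
    (a : ordR O f = -d ∧ Nu O (f / x ^ d - 1)) (b : ordR O g = -e ∧ Nu O (g / x ^ e - 1)) :
    l (tameE O f g) = 0 := by
  have u := ut_of_nu ut_one a.2
  have u' := ut_of_nu ut_one b.2
  have m : Ut O (-1) := ⟨by simp, by simp, by simp⟩
  have m0 : l (-1) = 0 := h.tor m ⟨2, two_pos, by simpa using nu_zero⟩
  have e1 : tameE O f g =
      (-1) ^ (-d * -e : ℤ) * (f / x ^ d) ^ (-e : ℤ) / (g / x ^ e) ^ (-d : ℤ) := by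
    have := zpow_ne_zero (d * -e : ℤ) x0
    rw [tameE, a.1, b.1, div_zpow, div_zpow, ← zpow_natCast, ← zpow_natCast, ← zpow_mul,
      ← zpow_mul, show (e * -d : ℤ) = d * -e by ring]
    field_simp
  rw [e1, h.div ((m.zpow _).mul (u.zpow _)) (u'.zpow _), h.mul _ _ (m.zpow _) (u.zpow _),
    h.zpow m, h.zpow u, h.zpow u', m0, h.nu u a.2, h.nu u' b.2]
  simp

end TBt

open TBt

theorem tBt : OfBt := by
  intro hN k F _ _ _ _ μ hk hF hμ
  have N := hN k F hk hF
  have sw : ∀ f g : F, f ≠ 0 → g ≠ 0 → bt k μ f g = -bt k μ g f := fun f g f0 g0 => by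
    rw [bt, bt, ← finsum_neg_distrib]
    refine finsum_congr fun O => ?_
    rw [← finsum_neg_distrib]
    refine finsum_congr fun o => ?_
    rw [swap f0 g0]
    exact (fn N hμ o).inv (tame_ut o.1 g0 f0)
  refine ⟨fun f f' g f0 f0' g0 => ?_, sw, fun f f0 f1 => ?_, fun f f0 => by linarith [sw f f f0 f0]⟩
  · refine Eq.trans (finsum_congr fun O => finsum_congr fun o => ?_)
      (finsum_mem_add_distrib' (fin N hμ hF f g) (fin N hμ hF f' g))
    have := (dvA o.1).loc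
    rw [VE.T.TTame.emul (dvA o.1).dv f0 f0' g0]
    exact (fn N hμ o).mul _ _ (tame_ut o.1 f0 g0) (tame_ut o.1 f0' g0)
  · refine (finsum_congr fun O => (finsum_congr fun o => ?_).trans finsum_zero).trans finsum_zero
    have := (dvA o.1).loc
    have u := tame_ut o.1 f0 (sub_ne_zero.2 f1.symm)
    exact (fn N hμ o).nu u (((dvA o.1).res _ _ (dvA o.1).dv _ u.2.1 _ O.one_mem).1
      ((VE.T.TTame.stein (dvA o.1).dv f0 f1).trans EDVA.res_one.symm))

theorem tP1 : OfP1 := by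
  intro hN hB hP k F _ _ _ _ x hk hF hx ht μ f g hμ f0 g0
  have N := hN k F hk hF
  obtain ⟨b1, b2, -, b4⟩ := hB k F μ hk hF hμ
  obtain ⟨-, p2, I, i1, i2, i3⟩ := hP k F x hk hF hx ht
  have x0 : x ≠ 0 := by simpa using ne0 hx X_ne_zero
  have xm : ∀ O, Pl O → O ≠ I → x ∈ O := fun O o e => by_contra fun a => e ((i2 O o).1 a)
  have oc : ∀ O, Pl O → ∀ c : k, c ≠ 0 → ordR O (algebraMap k F c) = 0 := fun O o c hc =>
    ord0 o ((N.con O o).2 c hc).1
  have cp : ∀ c : k, c ≠ 0 → ∀ π : k[X], π.Monic → Irreducible π →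
      bt k μ (algebraMap k F c) (aeval x π) = 0 := fun c hc π hm hi => by
    obtain ⟨O, o1, o2, o3, o4, o5⟩ := p2 π hm hi
    have e := (o5 (C c) fun a => hi.not_isUnit (isUnit_of_dvd_unit a (isUnit_C.2 hc.isUnit))).2
    rw [aeval_C, natDegree_C, resultant_C_zero_right] at e
    rw [bt, two (fun a : O = I => (i2 I i1.1).2 rfl (a ▸ o2)) o1 i1.1 fun O' o a b =>
      zero N hμ o (oc O' o c hc) (ord0 o (o4 O' o (xm O' o b) a)), tame_l (oc O o1 c hc),
      tame_l (oc I i1.1 c hc), o3, zpow_one, e, adr_pow hμ hc, (i3 π hm).1]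
    have := (fn N hμ i1.1).zpow ((N.con I i1.1).2 c hc).1 (-π.natDegree)
    rw [((N.con I i1.1).2 c hc).2, (N.rat I i1).1, pow_one] at this
    rw [this]
    simp
  have pp : ∀ π π' : k[X], π.Monic → Irreducible π → π'.Monic → Irreducible π' → π ≠ π' →
      bt k μ (aeval x π) (aeval x π') = 0 := fun π π' hm hi hm' hi' ne => by
    obtain ⟨O, o1, o2, o3, o4, o5⟩ := p2 π hm hi
    obtain ⟨O', o1', o2', o3', o4', o5'⟩ := p2 π' hm' hi'
    obtain ⟨u, e⟩ := o5 π' fun a =>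
      ne (eq_of_monic_of_associated hm hm' (hi.associated_of_dvd hi' a))
    obtain ⟨u', e'⟩ := o5' π fun a =>
      ne (eq_of_monic_of_associated hm' hm (hi'.associated_of_dvd hi a)).symm
    have := (dvA i1.1.1).loc
    rw [bt, two (fun a : O = O' => one_ne_zero (o3'.symm.trans (ord0 o1' (a ▸ u)))) o1 o1'
      fun V o a b => ?_,
      tame_r (ord0 o1 u), tame_l (ord0 o1' u'), o3, o3', zpow_one, zpow_neg_one, e']
    · have r := e' ▸ N.ne O' _ o1' u'
      have := (fn N hμ o1).inv u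
      rw [e, resultant_comm π, hμ _ _ (by simp) r, adr_pow hμ (by simp), adr_neg hμ] at this
      rw [this]
      simp
    · by_cases c : V = I
      · exact c ▸ inf (fn N hμ i1.1) x0 (i3 π hm) (i3 π' hm')
      · exact zero N hμ o (ord0 o (o4 V o (xm V o c) a)) (ord0 o (o4' V o (xm V o c) b))
  have gg : ∀ z z', Gn k x z → Gn k x z' → bt k μ z z' = 0 := by
    rintro z z' (⟨c, hc, rfl⟩ | ⟨π, hm, hi, rfl⟩) (⟨c', hc', rfl⟩ | ⟨π', hm', hi', rfl⟩)
    · exact (finsum_congr fun O => (finsum_congr fun o =>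
        zero N hμ o (oc O o c hc) (oc O o c' hc')).trans finsum_zero).trans finsum_zero
    · exact cp c hc π' hm' hi'
    · rw [b2 _ _ (ne0 hx hm.ne_zero) ((_root_.map_ne_zero _).2 hc'), cp c' hc' π hm hi, neg_zero]
    · by_cases e : π = π'
      · exact e ▸ b4 _ (ne0 hx hm.ne_zero)
      · exact pp π π' hm hi hm' hi' e
  refine red hx ht (l := fun f => bt k μ f g) (fun a b a0 b0 => b1 a b g a0 b0 g0)
    (fun z hz => ?_) f0
  have z0 := hz.ne hx
  rw [b2 z g z0 g0, neg_eq_zero]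
  exact red hx ht (l := fun f => bt k μ f z) (fun a b a0 b0 => b1 a b z a0 b0 z0)
    (fun z' hz' => gg z' z hz' hz) g0

end Pool.Agent.MP_f3836a_nt.GP
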