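import Pool.Agent.MP_f3836a_nt.GP.SpecT

/-! Part T: the fundamental equality. -/

set_option autoImplicit false

namespace Pool.Agent.MP_f3836a_nt.GP

open Polynomial IsLocalRing PK VE.W VE.Z IntermediateField

namespace TEf

section
variable {R S : Type} (T : Type) [CommRing R] [CommRing S] [CommRing T] [IsLocalRing R]
  [IsLocalRing T] [Algebra R S] [Algebra S T] (q : Ideal S) [q.IsMaximal]
  [q.LiesOver (maximalIdeal R)] [IsLocalization.AtPrime T q]

omit [IsLocalRing T] in
theorem ram {π : R} (h : maximalIdeal R = Ideal.span {π}) :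
    q.ramificationIdx R = (Ring.ord T (algebraMap S T (algebraMap R S π))).toNat := by
  let f := IsLocalization.algEquiv q.primeCompl (Localization.AtPrime q) T
  let := f.toRingHom.toAlgebra
  have e := Ideal.quotientEquivAlg (Ideal.span {algebraMap R (Localization.AtPrime q) π})
    (Ideal.span {algebraMap S T (algebraMap R S π)})
    (AlgEquiv.ofBijective (Algebra.ofId (Localization.AtPrime q) T) f.bijective) (by
      rw [Ideal.map_span, Set.image_singleton, ← f.commutes]
      rfl)
  rw [Ideal.ramificationIdx_eq (maximalIdeal R) q, h, Ideal.map_span, Set.image_singleton,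
    e.toLinearEquiv.length_eq, Module.length_eq_of_surjective f.surjective, Ring.ord]

theorem ine {k : Type} [Field k] (i : k →+* R) (j : k →+* T)
    (h : j = (algebraMap S T).comp ((algebraMap R S).comp i)) :
    @Module.finrank k (ResidueField T) _ _ ((residue T).comp j).toAlgebra.toModule =
      q.inertiaDeg R *
        @Module.finrank k (ResidueField R) _ _ ((residue R).comp i).toAlgebra.toModule := by
  subst h
  let := i.toAlgebra
  let := ((algebraMap R S).comp i).toAlgebra
  let := Ideal.Quotient.field (maximalIdeal R)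
  have : IsScalarTower k (R ⧸ maximalIdeal R) (S ⧸ q) := .of_algebraMap_eq' rfl
  have e := Module.finrank_mul_finrank k (R ⧸ maximalIdeal R) (S ⧸ q)
  rw [Ideal.inertiaDeg_eq_of_isMaximal (maximalIdeal R) q, mul_comm]
  exact (e.trans (@Algebra.finrank_eq_of_equiv_equiv k (S ⧸ q) _ _ _ k (ResidueField T) _ _
    (RingHom.toAlgebra _) (.refl k) (IsLocalization.AtPrime.equivQuotMaximalIdeal q T) rfl)).symm

end

variable {F F' : Type} [Field F] [Field F'] [Algebra F F'] {O : Subring F} {π : F}

theorem uni (h : Dvr O) (e : ordR O π = 1) [IsLocalRing O] :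
    π ≠ 0 ∧ ∃ m : π ∈ O, maximalIdeal O = Ideal.span {⟨π, m⟩} := by
  have A := dvA h
  have p0 : π ≠ 0 := fun z => by simp [z, ordR] at e
  have n := (A.nu π).2 (.inr (by omega))
  refine ⟨p0, n.1, le_antisymm (fun a ha => Ideal.mem_span_singleton'.2
    ⟨⟨a / π, ?_⟩, Subtype.ext (div_mul_cancel₀ _ p0)⟩)
    ((Ideal.span_singleton_le_iff_mem _).2 ((nu_iff ⟨π, n.1⟩).1 n))⟩
  rcases eq_or_ne (a : F) 0 with z | z
  · rw [z, zero_div]
    exact O.zero_mem
  · have := ZMe.ord_div A z p0 1
    have k := ((A.nu a).1 ((nu_iff a).2 ha)).resolve_left z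
    rw [pow_one] at this
    exact (A.mem _ (div_ne_zero z p0)).2 (by omega)

theorem main (k : Type) [Field k] [Algebra k F] [Algebra k F'] [IsScalarTower k F F'] [CharZero F]
    [FiniteDimensional F F'] (B : Subring F') [Algebra O B] [IsScalarTower O B F']
    [IsIntegralClosure B O F'] (h : Dvr O) (e : ordR O π = 1) (m : ∀ c : k, algebraMap k F c ∈ O) :
    ∑ᶠ (O' : Subring F') (_ : Ab O O'), ordR O' (algebraMap F F' π) * dgK k O' =
      Module.finrank F F' * dgK k O := by
  have := h.dvr
  have : IsFractionRing O F := IsFractionRing.of_field O F fun z => by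
    obtain ⟨a, b, hb, e⟩ := h.fr z
    exact ⟨a, b, eq_div_of_mul_eq hb e⟩
  have := Module.IsTorsionFree.trans_faithfulSMul O F F'
  have := IsIntegralClosure.isDedekindDomain O F F' B
  have := IsIntegralClosure.finite O F F' B
  have := IsIntegralClosure.module_free O F F' B
  have := IsIntegralClosure.isFractionRing_of_finite_extension O F F' B
  have fr : Fr B := fun z => by
    obtain ⟨a, b, hb, rfl⟩ := IsFractionRing.div_surjective (A := B) z
    have : (b : F') ≠ 0 := fun z => nonZeroDivisors.ne_zero hb (Subtype.ext z)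
    exact ⟨a, b, this, div_mul_cancel₀ _ this⟩
  obtain ⟨p0, pm, hp⟩ := uni h e
  have L := wLc F' B
  have co : ∀ a : O, (algebraMap O B a : F') = algebraMap F F' a := fun a =>
    (IsScalarTower.algebraMap_apply O B F' a).symm
  have p1 : algebraMap O B ⟨π, pm⟩ ≠ 0 := fun z =>
    (map_ne_zero (algebraMap F F')).2 p0 ((co ⟨π, pm⟩).symm.trans (congrArg Subtype.val z))
  have p2 : ∀ q : (maximalIdeal O).primesOver B, algebraMap O B ⟨π, pm⟩ ∈ q.1 := fun q =>
    (Ideal.mem_of_liesOver q.1 (maximalIdeal O) _).1 (hp ▸ Ideal.mem_span_singleton_self _)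
  have q0 : ∀ q : (maximalIdeal O).primesOver B, q.1 ≠ ⊥ := fun q z => p1 (by simpa [z] using p2 q)
  have ab : ∀ q : (maximalIdeal O).primesOver B, Ab O (lc B q.1) := fun q =>
    ⟨⟨IsLocalization.AtPrime.isDiscreteValuationRing_of_dedekind_domain B (q0 q) _, fun z =>
      let ⟨a, b, c⟩ := fr z
      ⟨⟨a, le_lc B _ a.2⟩, ⟨b, le_lc B _ b.2⟩, c⟩⟩,
      ((dvA h).max _ fun a ha => le_lc B _ (co ⟨a, ha⟩ ▸ (algebraMap O B ⟨a, ha⟩).2)).resolve_right
        fun z => (L.inv q.1 _ p1).1 (by
          rw [co, ← map_inv₀, ← Subring.mem_comap, z]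
          trivial) (p2 q)⟩
  have rg : {O' | Ab O O'} = Set.range fun q : (maximalIdeal O).primesOver B => lc B q.1 := by
    refine Set.Subset.antisymm (fun O' o => ?_) (Set.range_subset_iff.2 ab)
    have A := dvA o.1
    have := A.loc
    have hle : B ≤ O' := fun z hz => by
      obtain ⟨p, a, b⟩ := (IsIntegralClosure.isIntegral_iff (A := B) (R := O) (x := z)).2
        ⟨⟨z, hz⟩, rfl⟩
      refine A.int z (p.map ((algebraMap O F').codRestrict O' fun x => ?_)) (a.map _) ?_
      · exact (o.2.ge x.2 :)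
      · rw [aeval_def, eval₂_map]
        exact b
    obtain ⟨q, hq, a, b⟩ := L.cen O' hle
    have : q.LiesOver (maximalIdeal O) := ⟨Ideal.ext fun x => by
      rw [Ideal.mem_under, b, ← nu_iff, mem_maximalIdeal, mem_nonunits_iff, ← nu_iff,
        Subring.coe_inclusion, co]
      generalize (x : F) = y
      simp only [← o.2, Nu, Subring.mem_comap, map_inv₀, map_eq_zero]⟩
    exact ⟨⟨q, hq, this⟩, dvr_eq (ab ⟨q, hq, this⟩).1 o.1 a⟩
  let := Fintype.ofFinite ((maximalIdeal O).primesOver B)
  refine (congrArg (fun s => ∑ᶠ O' ∈ s, ordR O' (algebraMap F F' π) * dgK k O') rg).trans ?_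
  rw [finsum_mem_range fun q q' z => Subtype.ext
      (le_antisymm ((L.le _ _).1 z.ge) ((L.le _ _).1 z.le)), finsum_eq_sum_of_fintype,
    ← IsIntegralClosure.rank O F F' B, ← Ideal.sum_ramification_inertia_eq_finrank (maximalIdeal O),
    Nat.cast_sum, Finset.sum_mul]
  refine Finset.sum_congr rfl fun q _ => ?_
  have := q.2.1.isMaximal (q0 q)
  have := (ab q).1.dvr
  have m' : ∀ c : k, algebraMap k F' c ∈ lc B q.1 := fun c => by
    rw [IsScalarTower.algebraMap_apply k F F']
    exact ((ab q).2.ge (m c) :)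
  rw [dgK_eq k _ m', dgK_eq k _ m, emb, emb, ine (lc B q.1) q.1
    ((algebraMap k F).codRestrict O m) _ (RingHom.ext fun c => Subtype.ext
      ((IsScalarTower.algebraMap_apply k F F' c).trans (co ⟨_, m c⟩).symm)),
    ram (lc B q.1) q.1 hp, ← co ⟨π, pm⟩]
  refine (congrArg (· * _) (Ord.coe (a := algebraMap B (lc B q.1) (algebraMap O B ⟨π, pm⟩))
    fun z => p1 (Subtype.ext (congrArg Subtype.val z :)))).trans ?_
  rw [Ord.o]
  push_cast
  ring

end TEf

theorem tEf : OfEf := by
  intro nb k F F' _ _ _ _ _ _ _ _ _ _ al fi _ O π hO e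
  let B := (integralClosure O F').toSubring
  let : Algebra O B := (integralClosure O F').algebra
  have : IsScalarTower O B F' := .of_algebraMap_eq fun _ => rfl
  have : IsIntegralClosure B O F' := ⟨Subtype.coe_injective,
    ⟨fun h => ⟨⟨_, h⟩, rfl⟩, fun ⟨y, hy⟩ => hy ▸ y.2⟩⟩
  exact TEf.main k B hO.1 e ((nb k F al fi).mem O hO)

end Pool.Agent.MP_f3836a_nt.GP
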