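import Pool.Agent.MP_f3836a_nt.GP.SpecT

/-! Part T: global properties of the places of a function field. -/

set_option autoImplicit false

namespace Pool.Agent.MP_f3836a_nt.GP

open Polynomial IsLocalRing PK VE.W VE.Z IntermediateField IsDedekindDomain

namespace TFin

variable {F : Type} [Field F]

theorem cen {S : Type} [CommRing S] [IsDedekindDomain S] [Algebra S F] [IsFractionRing S F]
    {W : Subring F} (hW : Vr W) (h0 : W ≠ ⊤) (h : ∀ s, algebraMap S F s ∈ W) :
    ∃ v : HeightOneSpectrum S, (v.valuationSubringAtPrime F).toSubring = W := by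
  let V : ValuationSubring F := ⟨W, hW⟩
  let P := (maximalIdeal V).comap ((algebraMap S F).codRestrict V h)
  have i : ∀ s ∉ P, (algebraMap S F s)⁻¹ ∈ V := fun s hs => by_contra fun hn =>
    hs (ValuationSubring.coe_mem_nonunits_iff.1 (V.mem_nonunits_iff_or.2 (Or.inr hn)))
  refine ⟨⟨P, inferInstance, fun e => h0 (eq_top_iff.2 fun z _ => ?_)⟩, congrArg _
    (ValuationSubring.eq_of_le_of_ne_top (B := V) _ ?_ fun e => h0 (congrArg (·.toSubring) e))⟩
  · obtain ⟨a, s, hs, rfl⟩ := IsFractionRing.div_surjective (A := S) z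
    rw [div_eq_mul_inv]
    exact mul_mem (h a) (i s fun k => nonZeroDivisors.ne_zero hs (Ideal.mem_bot.1 (e ▸ k)))
  · rintro z ⟨a, s, hs, rfl⟩
    exact mul_mem (h a) (i s hs)

variable [CharZero F]

theorem rat {W : Subring F} (h : Ho W) (q : ℚ) : algebraMap ℚ F q ∈ W := by
  rw [eq_ratCast, Rat.cast_def, div_eq_mul_inv]
  exact mul_mem (intCast_mem W _) (h _ q.den_ne_zero)

theorem tr {t : F} (ht : Transcendental ℤ t) : Transcendental ℚ t :=
  fun h => ht ((IsFractionRing.isAlgebraic_iff ℤ ℚ F).2 h)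

open scoped algebraAdjoinAdjoin in
theorem chart {t : F} (ht : Transcendental ℤ t) (hf : FiniteDimensional ℚ⟮t⟯ F) :
    ∃ (S : Type) (_ : CommRing S) (_ : IsDedekindDomain S) (_ : Algebra S F)
      (_ : IsFractionRing S F) (_ : Algebra ℚ S), Algebra.FiniteType ℚ S ∧
      ∀ W : Subring F, Vr W → W ≠ ⊤ → Ho W → t ∈ W →
        ∃ v : HeightOneSpectrum S, (v.valuationSubringAtPrime F).toSubring = W := by
  let A := Algebra.adjoin ℚ {t}
  have : IsPrincipalIdealRing A := .of_surjective (algEquivOfTranscendental ℚ t (tr ht)).toRingHom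
    (algEquivOfTranscendental ℚ t (tr ht)).surjective
  have : Algebra.FiniteType ℚ A := .adjoin_of_finite (Set.finite_singleton t)
  have := IsIntegralClosure.finite A ℚ⟮t⟯ F (integralClosure A F)
  have := integralClosure.isDedekindDomain A ℚ⟮t⟯ F
  have := integralClosure.isFractionRing_of_finite_extension (A := A) ℚ⟮t⟯ F
  refine ⟨integralClosure A F, _, ‹_›, _, ‹_›, inferInstance,
    .trans (S := A) inferInstance inferInstance, fun W hW h0 h ht => cen hW h0 fun s => ?_⟩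
  let V : ValuationSubring F := ⟨W, hW⟩
  have e : A ≤ ⟨W.toSubsemiring, rat h⟩ := Algebra.adjoin_le (Set.singleton_subset_iff.2 ht)
  let := ((algebraMap A F).codRestrict V fun a => e a.2).toAlgebra
  have : IsScalarTower A V F := .of_algebraMap_eq fun _ => rfl
  obtain ⟨y, hy⟩ := (IsIntegrallyClosed.isIntegral_iff (R := V)).1 (IsIntegral.tower_top s.2)
  exact Set.mem_of_eq_of_mem hy.symm y.2

theorem one {t : F} (ht : Transcendental ℤ t) (hf : FiniteDimensional ℚ⟮t⟯ F) :
    (∀ W : Subring F, Vr W → W ≠ ⊤ → Ho W → t ∈ W → IsDiscreteValuationRing W ∧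
      ∀ [IsLocalRing W] [Algebra ℚ (ResidueField W)], FiniteDimensional ℚ (ResidueField W)) ∧
    ∀ f : F, {O | (Pl O ∧ ordR O f ≠ 0) ∧ t ∈ O}.Finite := by
  obtain ⟨S, _, _, _, _, _, _, h⟩ := chart ht hf
  refine ⟨fun W a b c d => ?_, fun f => ?_⟩
  · obtain ⟨v, rfl⟩ := h W a b c d
    refine ⟨IsLocalization.AtPrime.isDiscreteValuationRing_of_dedekind_domain S v.ne_bot
      (v.valuationSubringAtPrime F), fun {_ _} => ?_⟩
    have := v.isMaximal
    let e : _ ≃+* ResidueField (v.valuationSubringAtPrime F).toSubring :=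
      IsLocalization.AtPrime.equivQuotMaximalIdeal v.asIdeal (v.valuationSubringAtPrime F)
    have := Algebra.FiniteType.of_surjective (e.toRingHom.comp (Ideal.Quotient.mk _)).toRatAlgHom
      (e.surjective.comp Ideal.Quotient.mk_surjective)
    exact finite_of_finite_type_of_isJacobsonRing ℚ _
  rcases eq_or_ne f 0 with rfl | f0
  · exact Set.finite_empty.subset fun O o => o.1.2 (dif_neg fun k => k.1 rfl)
  obtain ⟨a, b, hb, rfl⟩ := IsFractionRing.div_surjective (A := S) f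
  have a0 : a ≠ 0 := fun e => f0 (by rw [e, map_zero, zero_div])
  refine ((Ideal.finite_factors (I := Ideal.span {a * b}) (by
    simpa using ⟨a0, nonZeroDivisors.ne_zero hb⟩)).image
    fun v => (v.valuationSubringAtPrime F).toSubring).subset fun O o => ?_
  have k := dvA o.1.1.1
  obtain ⟨v, rfl⟩ := h O k.val k.ne o.1.1.2 o.2
  refine ⟨v, Ideal.dvd_span_singleton.2 (by_contra fun n => o.1.2 ((k.ut _).1 ⟨f0,
    ⟨a, b, fun e => n (Ideal.mul_mem_left _ _ e), div_eq_mul_inv _ _⟩,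
    b, a, fun e => n (Ideal.mul_mem_right _ _ e), ?_⟩).2), rfl⟩
  rw [inv_div, div_eq_mul_inv]

end TFin

theorem tFin : FinS := by
  rintro F _ _ ⟨t, ht, hf⟩
  have e : ℚ⟮t⁻¹⟯ = ℚ⟮t⟯ := le_antisymm
    (adjoin_simple_le_iff.2 (inv_mem (mem_adjoin_simple_self ℚ t)))
    (adjoin_simple_le_iff.2 (inv_mem_iff.1 (mem_adjoin_simple_self ℚ t⁻¹)))
  obtain ⟨a, b⟩ := TFin.one ht hf
  obtain ⟨a', b'⟩ := TFin.one (t := t⁻¹) (fun h => ht (IsAlgebraic.inv_iff.1 h)) (e ▸ hf)
  have c := fun W (h : Vr W) h0 k => (h t).elim (a W h h0 k) (a' W h h0 k)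
  have d : ∀ W : Subring F, Vr W → W ≠ ⊤ → Ho W → Dvr W := fun W h h0 k =>
    ⟨(c W h h0 k).1, fun z => by
      rcases eq_or_ne z 0 with rfl | z0
      · exact ⟨0, 1, one_ne_zero, zero_mul _⟩
      · exact (h z).elim (fun m => ⟨⟨z, m⟩, 1, one_ne_zero, mul_one z⟩)
          fun m => ⟨1, ⟨_, m⟩, inv_ne_zero z0, mul_inv_cancel₀ z0⟩⟩
  refine ⟨d, fun O o => (c O (dvA o.1).val (dvA o.1).ne o.2).2, fun f => ((b f).union
    (b' f)).subset fun O o => ((dvA o.1.1).val t).imp (fun m => ⟨o, m⟩) fun m => ⟨o, m⟩,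
    fun z hz => ?_⟩
  obtain ⟨V, h1, h2⟩ := Subring.exists_le_valuationSubring_of_isIntegrallyClosedIn
    (R := (integralClosure ℚ F).toSubring) (x := z) fun h => TFin.tr hz (IsIntegral.isAlgebraic h)
  have k : Ho V.toSubring := fun n _ => h1 (by
    simpa using (integralClosure ℚ F).algebraMap_mem (n : ℚ)⁻¹)
  exact ⟨_, ⟨d _ V.mem_or_inv_mem' (fun e => h2 (e.ge trivial)) k, k⟩, h2⟩

end Pool.Agent.MP_f3836a_nt.GP
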