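import Pool.Agent.MP_f3836a_nt.GP.SpecT

/-! Part T: families of norm one. -/

set_option autoImplicit false

namespace Pool.Agent.MP_f3836a_nt.GP

open Polynomial IsLocalRing PK VE.W VE.Z IntermediateField

namespace TKer

variable {k F : Type} [Field k] [Field F] [Algebra k F] {M : ℕ} {VV : Set (Subring F)}
  {lam : Subring F → F → ℝ} {O : Subring F} {u : F}

theorem ks_map (h : Ks M VV lam) (hF : Fi F) (ψ : ℝ →+ ℝ) : Ks M VV fun O u => ψ (lam O u) :=
  ⟨h.ne, h.fin, h.dv, fun O o => ⟨fun u u' a b => by rw [(h.fn O o).mul u u' a b, map_add],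
    fun u u' a b c => by rw [(h.fn O o).cg u u' a b c]⟩, fun f g f0 g0 => by
    refine (ψ.map_finsum_mem' (s := {O | Pl O ∨ O ∈ VV}) ((h.fin.union
      ((hF.fin f).union (hF.fin g))).subset fun O o => ?_)).symm.trans
      ((congrArg ψ (h.bd f g f0 g0)).trans ψ.map_zero)
    by_contra e
    simp only [Set.mem_union, Set.mem_ofPred_eq, not_or, not_and, not_not] at e
    have p := o.1.resolve_right e.1
    exact o.2 (by simp only [tame_l (e.2.1 p), e.2.2 p, zpow_zero, (h.fn O o.1).one])⟩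

theorem adr_prod {ι : Type} {μ : k → ℝ} (h : Adr μ) (s : Finset ι) {c : ι → k}
    (hc : ∀ i ∈ s, c i ≠ 0) : μ (∏ i ∈ s, c i) = ∑ i ∈ s, μ (c i) := by
  classical
  induction s using Finset.induction_on with
  | empty => simpa using h 1 1 one_ne_zero one_ne_zero
  | insert a s ha ih =>
    rw [Finset.forall_mem_insert] at hc
    rw [Finset.prod_insert ha, Finset.sum_insert ha, h _ _ hc.1 (Finset.prod_ne_zero_iff.2 hc.2),
      ih hc.2]

theorem ex_sp [CharZero k] (N : Nb k F) (hO : Pl O) : ∃ q : k[X], q ≠ 0 ∧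
    ∀ (k' : Type) [Field k'] [Algebra k k'], (q.map (algebraMap k k')).Splits → Sp k k' O := by
  have := (dvA hO.1).loc
  let := (emb k O (N.mem O hO)).toAlgebra
  have : Module.Finite k (ResidueField O) :=
    Module.finite_of_finrank_pos (dgK_eq k O (N.mem O hO) ▸ (N.con O hO).1)
  obtain ⟨α, hα⟩ := Field.exists_primitive_element k (ResidueField O)
  refine ⟨minpoly k α, minpoly.ne_zero_of_finite k α, fun k' _ _ h u hu => ?_⟩
  let β := residue O ⟨u, hu⟩
  refine ⟨minpoly k β, minpoly.monic (.of_finite k β), splits_of_mem_adjoin k _ (S := {α})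
    (fun x e => e ▸ ⟨.of_finite k α, h⟩) (hα ▸ mem_top), ?_⟩
  have e := hom_eval₂ (minpoly k β) ((algebraMap k F).codRestrict O (N.mem O hO)) O.subtype ⟨u, hu⟩
  exact (show _ = aeval u (minpoly k β) from e) ▸ (nu_iff _).2 ((residue_eq_zero_iff _).1
    ((hom_eval₂ _ _ _ _).trans (minpoly.aeval k β)))

theorem int_nm [CharZero k] (N : Nb k F) (hO : Rat k O) (hu : Ut O u) {n : ℕ} (hn : n ≠ 0)
    (h : Itg O (n * u)) : IsIntegral ℤ (n * nmK k O u) := by
  have c := (N.con O hO.1).2 n (Nat.cast_ne_zero.2 hn)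
  rw [map_natCast, (N.rat O hO).1, pow_one] at c
  rw [← c.2, ← N.mul O _ _ hO.1 c.1 hu]
  exact N.int O _ hO.1 (c.1.mul hu) h

theorem um [CharZero k] (N : Nb k F) (hO : Rat k O) (hu : Ut O u) (h : SU O M u) :
    Um M (nmK k O u) := by
  obtain ⟨n, h0, h1, h2, h3⟩ := h
  have e := N.mul O _ _ hO.1 hu hu.inv
  have c := ((N.con O hO.1).2 1 one_ne_zero).2
  rw [map_one, one_pow] at c
  rw [mul_inv_cancel₀ hu.1, c] at e
  exact ⟨n, h0, h1, int_nm N hO hu h0 h2,
    (eq_inv_of_mul_eq_one_right e.symm) ▸ int_nm N hO hu.inv h0 h3⟩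

variable {F' : Type} [Field F'] [Algebra F F'] {O' : Subring F'}

theorem ut_up (h : Ab O O') (hu : Ut O u) : Ut O' (algebraMap F F' u) := by
  simpa only [← h.2, Ut, Subring.mem_comap, map_inv₀, _root_.map_ne_zero] using hu

theorem itg_up (h : Ab O O') (hu : Itg O u) : Itg O' (algebraMap F F' u) := hu.imp fun q e =>
  ⟨e.1, by simpa only [← h.2, Nu, Subring.mem_comap, map_inv₀, map_eq_zero,
    aeval_algebraMap_apply] using e.2⟩

theorem su_up (h : Ab O O') (hu : SU O M u) : SU O' M (algebraMap F F' u) := hu.imp fun n e =>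
  ⟨e.1, e.2.1, by simpa using itg_up h e.2.2.1, by simpa using itg_up h e.2.2.2⟩

end TKer

open TKer in
theorem tKer : OfKer := by
  intro hFf hFin hNb hFe hBc hSp hLi hEn k F _ _ _ _ _ M VV lam s u hG hC hK hs h1
  rcases s.eq_empty_or_nonempty with rfl | ⟨O1, o1⟩
  · rfl
  have fi := hFin F hG
  have N := hNb k F hC.al fi
  choose! q q0 hq using fun O => ex_sp (O := O) N
  let p : k[X] := (X ^ 2 + C 1) * ∏ O ∈ s, q O
  have p0 : p ≠ 0 := mul_ne_zero (X_pow_add_C_ne_zero two_pos _)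
    (Finset.prod_ne_zero_iff.2 fun O o => q0 O (hs O o).1)
  have sp : ∀ r, r ∣ p → (r.map (algebraMap k p.SplittingField)).Splits := fun r h =>
    (SplittingField.splits p).of_dvd (Polynomial.map_ne_zero p0) (Polynomial.map_dvd _ h)
  have := NumberField.of_module_finite k p.SplittingField
  obtain ⟨i, hi⟩ := (sp _ (dvd_mul_right _ _)).exists_eval_eq_zero (by
    rw [degree_map, degree_X_pow_add_C two_pos]; simp)
  obtain ⟨F', _, _, _, _, _, _, _, b1, b2, hC'⟩ := hBc k p.SplittingField F hC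
  have := charZero_of_injective_algebraMap (algebraMap F F').injective
  have hG' := ((hFf F).2.1 hG).2 F' ‹_›
  have fi' := hFin F' hG'
  have N' := hNb _ F' hC'.al fi'
  have S := fun O o => hSp k F F' hC.al fi fi' _ O b1 b2 (hs O o).1
    (hq O (hs O o).1 _ (sp _ ((Finset.dvd_prod_of_mem q o).mul_left _)))
  obtain ⟨O0, o0⟩ := (S O1 o1).1
  have r0 := ((S O1 o1).2.1 O0 o0).1
  refine (Module.forall_dual_apply_eq_zero_iff ℚ _).1 fun φ => Rat.cast_injective (α := ℝ) ?_
  obtain ⟨VV', L, hL, e⟩ := hLi F F' M VV _ fi' (ks_map hK fi ((Rat.castHom ℝ).toAddMonoidHom.comp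
    φ.toAddMonoidHom)) fun _ _ => ⟨_, rfl⟩
  have ad : Adr fun c => L O0 (algebraMap p.SplittingField F' c) := fun a b a0 b0 => by
    simp only [map_mul, (hL.fn O0 (.inl r0.1)).mul _ _ ((N'.con _ r0.1).2 a a0).1
      ((N'.con _ r0.1).2 b b0).1]
  have e1 := adr_prod ad s (c := fun O => algebraMap k _ (nmK k O (u O))) fun O o =>
    (_root_.map_ne_zero _).2 (N.ne O _ (hs O o).1 (hs O o).2.1)
  rw [← map_prod, h1, map_one, map_one, (hL.fn O0 (.inl r0.1)).one] at e1
  rw [map_sum, Rat.cast_sum, Rat.cast_zero, e1]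
  refine Finset.sum_congr rfl fun O o => ?_
  obtain ⟨a1, a2, a3⟩ := hs O o
  obtain ⟨π, -, hπ⟩ := (dvA a1.1).uni
  have fin := hFe F F' O a1.1
  have r := fun O' a => (S O o).2.1 O' (fin.mem_toFinset.1 a)
  have ut := fun O' a => ut_up (O' := O') (fin.mem_toFinset.1 a) a2
  have ne := fun O' a => N'.ne O' _ (r O' a).1.1 (ut O' a)
  refine (e O π _ a1 hπ a2).symm.trans ((finsum_mem_eq_finite_toFinset_sum _ fin).trans ?_)
  rw [((S O o).2.2 _ a2).trans (finprod_mem_eq_finite_toFinset_prod _ fin)]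
  refine (Finset.sum_congr rfl fun O' a => ?_).trans (adr_prod ad _ ne).symm
  rw [(r O' a).2 π hπ, Int.cast_one, one_mul, (hL.fn O' (.inl (r O' a).1.1)).cg _ _ (ut O' a)
    ((N'.con _ (r O' a).1.1).2 _ (ne O' a)).1 ((N'.rat _ (r O' a).1).2 _ (ut O' a))]
  exact hEn _ F' M VV' L O' O0 hG' hC' ⟨i, eq_neg_of_add_eq_zero_left (by simpa using hi)⟩ hL
    (r O' a).1 r0 _ (ne O' a) (um N' (r O' a).1 (ut O' a) (su_up (fin.mem_toFinset.1 a) a3))

end Pool.Agent.MP_f3836a_nt.GP
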