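import Pool.Agent.MP_f3836a_nt.GP.SpecT
import Pool.Agent.MP_f3836a_nt.GP.GDu
import Pool.Agent.MP_f3836a_nt.VE.ZExA
import Pool.Agent.MP_f3836a_nt.PK.EMean
import Pool.Agent.MP_f3836a_nt.PK.EBT
import Pool.Agent.MP_f3836a_nt.PK.EVD
import Pool.Agent.MP_f3836a_nt.PK.EBeta
import Pool.Agent.MP_f3836a_nt.PK.EDesc

/-! Part T: lifting a family of functionals to a finite extension. -/

set_option autoImplicit false

namespace Pool.Agent.MP_f3836a_nt.GP

open Polynomial IsLocalRing PK VE.W VE.Z IntermediateField GDu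

namespace TLift

theorem desc : RDesc.{0} :=
  rDesc rDVA rMean rAdm (rVD rDVA rExt) (rBeta rDVA rAdm rBT) (rFinI rDVA (rVD rDVA rExt))

theorem cast_fs {ι : Sort*} (F : ι → ℚ) : ((∑ᶠ i, F i : ℚ) : ℝ) = ∑ᶠ i, (F i : ℝ) :=
  (Rat.castHom ℝ).toAddMonoidHom.map_finsum_of_injective Rat.cast_injective _

variable {K : Type} [Field K]

theorem ex_q {O : Subring K} [IsLocalRing O] {l : K → ℝ} (h : Fn O l)
    (hq : ∀ u, ∃ q : ℚ, l u = q) : ∃ m : ResidueField O → ℚ, Addv m ∧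
      ∀ u, Ut O u → (m (resR O (residue O) u) : ℝ) = l u := by
  choose q hq using hq
  choose s hs using residue_surjective (R := O)
  have e : ∀ a, resR O (residue O) (s a) = a := fun a => (EDVA.res_mem (s a).2).trans (hs a)
  have key : ∀ u, Ut O u → (q (s (resR O (residue O) u)) : ℝ) = l u := fun u hu => by
    have n := (res_eq O (s _).2 hu.2.1).1 (e _)
    rw [← hq]
    exact h.cg _ _ (ut_of_nu hu n) hu n
  have ut : ∀ a, a ≠ 0 → Ut O (s a) := fun a ha => (ut_iff _).2 (by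
    rwa [← hs a, Ne, residue_eq_zero_iff, mem_maximalIdeal, mem_nonunits_iff, not_not] at ha)
  refine ⟨fun a => q (s a), fun a b ha hb => Rat.cast_injective (α := ℝ) ?_, key⟩
  have k := key _ ((ut a ha).mul (ut b hb))
  rw [EDVA.rmul (s a).2 (s b).2, e, e, h.mul _ _ (ut a ha) (ut b hb), hq, hq] at k
  rw [k, Rat.cast_add]

theorem fn_of {O : Subring K} [IsLocalRing O] {m : ResidueField O → ℚ} (h : Addv m) :
    Fn O fun u => (m (resR O (residue O) u) : ℝ) :=
  ⟨fun u u' a b => by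
    rw [EDVA.rmul a.2.1 b.2.1, h _ _ (res_ne O a) (res_ne O b), Rat.cast_add],
    fun u u' a b k => by rw [(res_eq O a.2.1 b.2.1).2 k]⟩

theorem ho_iff {K' : Type} [Field K'] (i : K →+* K') (V : Subring K') : Ho (V.comap i) ↔ Ho V := by
  simp only [Ho, Subring.mem_comap, map_inv₀, map_natCast]

end TLift

open TLift

theorem tLift : OfLift := by
  intro hFe F F' _ _ _ _ _ _ M VV lam hF hK hq
  classical
  let VV' : Set (Subring F') := {O' | ∃ V ∈ VV, Ab V O'}
  let c : Subring F → Prop := fun O => Pl O ∨ O ∈ VV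
  let c' : Subring F' → Prop := fun O => Pl O ∨ O ∈ VV'
  have fin' : VV'.Finite := (hK.fin.biUnion fun V hV => hFe F F' V (hK.dv V hV).1).subset
    fun O' ⟨V, a, b⟩ => Set.mem_biUnion a b
  have hd : ∀ O, c O → Dvr O := fun O h => h.elim And.left fun a => (hK.dv O a).1
  have hc : ∀ O', c' O' ↔ Dvr O' ∧ c (O'.comap (algebraMap F F')) := fun O' =>
    ⟨fun h => h.elim (fun a => ⟨a.1, .inl ⟨(zExA zDv F F' O' a.1).1, (ho_iff _ _).2 a.2⟩⟩)
      fun ⟨V, a, b⟩ => ⟨b.1, .inr (b.2 ▸ a)⟩,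
    fun h => h.2.imp (fun a => ⟨h.1, (ho_iff _ _).1 a.2⟩) fun a => ⟨_, a, h.1, rfl⟩⟩
  have hl : ∀ i : {O // c O}, IsLocalRing i.1 := fun i => (dvA (hd _ i.2)).loc
  have hl' : ∀ j : {O // c' O}, IsLocalRing j.1 := fun j => (dvA ((hc _).1 j.2).1).loc
  choose m m1 m2 using fun i : {O // c O} => ex_q (hK.fn i.1 i.2) (hq i.1)
  obtain ⟨m', a1, a2, a3⟩ := desc F F' {O // c O} {O // c' O} (fun i => ResidueField i.1)
    (fun j => ResidueField j.1) (fun i => i.1) (fun i => residue i.1) (fun j => j.1)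
    (fun j => residue j.1) (fun j => ⟨_, ((hc _).1 j.2).2⟩)
    ⟨fun i => (dvA (hd _ i.2)).dv, fun j => (dvA ((hc _).1 j.2).1).dv, fun _ _ => Iff.rfl,
      fun _ _ e => Subtype.ext e, fun i W h =>
        have e : W.toSubring.comap (algebraMap F F') = i.1 := Subring.ext fun f => (h f).symm
        ⟨⟨W.toSubring, (hc _).2 ⟨((zExB zDv).1 F F').1 W (e ▸ hd _ i.2), e ▸ i.2⟩⟩,
          Subtype.ext e, rfl⟩,
      fun f => (((hF.fin f).union fin').preimage Subtype.val_injective.injOn).subset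
        fun j hj => j.2.imp (fun a => ⟨a, hj⟩) id⟩
    m m1 fun f g f0 g0 => Rat.cast_injective (α := ℝ) (by
      rw [cast_fs, Rat.cast_zero, ← hK.bd f g f0 g0,
        ← finsum_subtype_eq_finsum_cond (p := c) (f := fun O => lam O (tameE O f g))]
      exact finsum_congr fun i => m2 i _ (tame_ut (hd _ i.2) f0 g0))
  let lam' : Subring F' → F' → ℝ := fun O u => if h : c' O then
    (m' ⟨O, h⟩ (resR O (@residue O _ (hl' ⟨O, h⟩)) u) : ℝ) else 0
  refine ⟨VV', lam', ⟨hK.ne, fin', fun V' ⟨V, a, b⟩ => ⟨b.1, ?_⟩, fun O h => ?_,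
    fun f g f0 g0 => ?_⟩, fun O π u hO hπ hu => ?_⟩
  · have := (hK.dv V a).2
    rwa [← b.2, ZExA.nu_comap, map_natCast] at this
  · have := hl' ⟨O, h⟩
    simp only [lam', dif_pos (show c' O from h)]
    exact fn_of (a1 ⟨O, h⟩)
  · rw [← finsum_subtype_eq_finsum_cond (p := c') (f := fun O => lam' O (tameE O f g)),
      ← Rat.cast_zero, ← a2 f g f0 g0, cast_fs]
    exact finsum_congr fun j => dif_pos j.2
  · have k := (dvA hO.1).ut u
    rw [← m2 ⟨O, .inl hO⟩ u hu, ← a3 ⟨O, .inl hO⟩ u π hu.1 (k.1 hu).2 hπ, cast_fs]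
    refine Eq.trans (finsum_congr fun O' => ?_) ((finsum_subtype_eq_finsum_cond (p := c')
      (f := fun O' => ∑ᶠ _ : Ab O O', (ordR O' (algebraMap F F' π) : ℝ) *
        lam' O' (algebraMap F F' u))).symm.trans (finsum_congr fun j => ?_))
    · by_cases h : Ab O O'
      · rw [finsum_eq_if (p := c' O'), if_pos ((hc _).2 ⟨h.1, h.2 ▸ .inl hO⟩)]
      · simp [h]
    · rw [cast_fs]
      refine finsum_congr_Prop (propext ⟨fun h => Subtype.ext h.2,
        fun h => ⟨((hc _).1 j.2).1, congrArg Subtype.val h⟩⟩) fun _ => ?_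
      simp only [lam', dif_pos j.2, Rat.cast_mul, Rat.cast_intCast]

end Pool.Agent.MP_f3836a_nt.GP
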