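import Pool.Agent.MP_f3836a_nt.GP.SpecT

/-! Row TNb: elementary properties of the norm of a residue. -/

set_option autoImplicit false

namespace Pool.Agent.MP_f3836a_nt.GP

open Polynomial IsLocalRing PK VE.W VE.Z IntermediateField

namespace TNb

theorem mult {A : Type} [CommRing A] {a : A} (h : IsAlgebraic ℤ a) :
    ∃ n : ℕ, n ≠ 0 ∧ IsIntegral ℤ (n * a) := by
  obtain ⟨d, h0, h1⟩ := h.exists_integral_multiple
  refine ⟨d.natAbs, Int.natAbs_ne_zero.2 h0, ?_⟩
  obtain ⟨m, rfl | rfl⟩ := d.eq_nat_or_neg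
  · simpa using h1
  · simpa using h1.neg

theorem alg {A : Type} [Field A] [CharZero A] [FiniteDimensional ℚ A] (z : A) : IsAlgebraic ℤ z :=
  (IsFractionRing.isAlgebraic_iff ℤ ℚ _).2 (Algebra.IsAlgebraic.isAlgebraic z)

variable {k F : Type} [Field k] [Field F] [Algebra k F] {O : Subring F} {u : F}

theorem nint (h : IsIntegral ℤ u) : IsIntegral ℤ (Algebra.norm k u) := Algebra.isIntegral_norm k h

theorem mem [CharZero F] (hk : Al k) (h : Pl O) (c : k) : algebraMap k F c ∈ O := by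
  obtain ⟨n, h0, h1⟩ := mult (hk c)
  have h2 := int_mem h.1 (h1.map (algebraMap k F).toIntAlgHom)
  have h3 := O.mul_mem (h.2 n h0) h2
  rwa [RingHom.toIntAlgHom_apply, map_mul, map_natCast,
    inv_mul_cancel_left₀ (Nat.cast_ne_zero.2 h0)] at h3

variable [IsLocalRing O]

theorem nu_res (z : O) : Nu O z ↔ residue O z = 0 := by
  rw [nu_iff, residue_eq_zero_iff, mem_maximalIdeal, mem_nonunits_iff]

theorem res_eq (h : u ∈ O) : resR O (residue O) u = residue O ⟨u, h⟩ := dif_pos h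

theorem nu_sub {u' : F} (h : u ∈ O) (h' : u' ∈ O) :
    Nu O (u - u') ↔ residue O ⟨u, h⟩ = residue O ⟨u', h'⟩ := by
  rw [← sub_eq_zero, ← map_sub]
  exact nu_res (⟨u, h⟩ - ⟨u', h'⟩ : O)

theorem itg (h : u ∈ O) : Itg O u ↔ IsIntegral ℤ (residue O ⟨u, h⟩) := by
  refine exists_congr fun q => and_congr_right fun _ => ?_
  have e1 := aeval_algHom_apply O.subtype.toIntAlgHom ⟨u, h⟩ q
  have e2 := aeval_algHom_apply (residue O).toIntAlgHom ⟨u, h⟩ q
  exact (iff_of_eq (congrArg (Nu O) e1)).trans ((nu_res _).trans (iff_of_eq (congrArg (· = 0) e2.symm)))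

theorem fin [CharZero F] (hF : Fi F) (hO : Pl O) (h : ∀ c : k, algebraMap k F c ∈ O) :
    @Module.Finite k (ResidueField O) _ _ (emb k O h).toAlgebra.toModule ∧
      ∀ z : ResidueField O, IsAlgebraic ℤ z := by
  have := (algebraMap k F).charZero
  let _ := (emb k O h).toAlgebra
  have : CharZero (ResidueField O) := charZero_of_injective_ringHom (emb k O h).injective
  have := hF.fd O hO
  exact ⟨Module.Finite.of_restrictScalars_finite ℚ k _, alg⟩

end TNb

open TNb in
theorem tNb : NbS := by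
  intro k F _ _ _ _ hk hF
  have con : ∀ O : Subring F, Pl O → ∀ c : k, nmK k O (algebraMap k F c) = c ^ dgK k O :=
    fun O hO c => by
      have := (dvA hO.1).loc
      let _ := (emb k O (mem hk hO)).toAlgebra
      rw [nmK_eq k O (mem hk hO), dgK_eq k O (mem hk hO), res_eq (mem hk hO c)]
      exact Algebra.norm_algebraMap c
  have cg : ∀ (O : Subring F) u u', Pl O → u ∈ O → u' ∈ O → Nu O (u - u') →
      nmK k O u = nmK k O u' := fun O u u' hO h h' e => by
    have := (dvA hO.1).loc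
    rw [nmK_eq k O (mem hk hO), nmK_eq k O (mem hk hO), res_eq h, res_eq h', (nu_sub h h').1 e]
  refine ⟨fun O hO => mem hk hO, fun O u hO h => ?_, fun O u u' hO h h' => ?_,
    fun O u u' hO h h' => cg O u u' hO h.2.1 h'.2.1, fun O hO => ⟨?_, fun c hc => ⟨?_, con O hO c⟩⟩,
    fun O u hO h h' => ?_, fun O u hO h => ?_, fun O hO => ?_⟩
  · have := (dvA hO.1).loc
    let _ := (emb k O (mem hk hO)).toAlgebra
    have := (fin hF hO (mem hk hO)).1
    rw [nmK_eq k O (mem hk hO), res_eq h.2.1, Algebra.norm_ne_zero_iff]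
    exact fun e => ((nu_res _).2 e).not h
  · have := (dvA hO.1).loc
    let _ := (emb k O (mem hk hO)).toAlgebra
    rw [nmK_eq k O (mem hk hO), nmK_eq k O (mem hk hO), nmK_eq k O (mem hk hO), res_eq h.2.1,
      res_eq h'.2.1, res_eq (h.mul h').2.1, ← map_mul, ← map_mul]
    rfl
  · have := (dvA hO.1).loc
    let _ := (emb k O (mem hk hO)).toAlgebra
    have := (fin hF hO (mem hk hO)).1
    rw [dgK_eq k O (mem hk hO)]
    exact Module.finrank_pos
  · exact ⟨(_root_.map_ne_zero _).2 hc, mem hk hO c, map_inv₀ (algebraMap k F) c ▸ mem hk hO c⁻¹⟩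
  · have := (dvA hO.1).loc
    let _ := (emb k O (mem hk hO)).toAlgebra
    rw [nmK_eq k O (mem hk hO), res_eq h.2.1]
    exact nint ((itg h.2.1).1 h')
  · have := (dvA hO.1).loc
    obtain ⟨n, h0, h1⟩ := mult ((fin hF hO (mem hk hO)).2 (residue O ⟨u, h⟩))
    refine ⟨n, h0, (itg (O.mul_mem (natCast_mem O n) h)).2 ?_⟩
    rwa [← map_natCast (residue O), ← map_mul] at h1
  · have := (dvA hO.1.1).loc
    have e : dgK k O = 1 := by
      let _ := (emb k O (mem hk hO.1)).toAlgebra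
      rw [dgK_eq k O (mem hk hO.1), finrank_eq_one_iff_of_nonzero' 1 one_ne_zero]
      intro z
      obtain ⟨⟨u, h⟩, rfl⟩ := residue_surjective z
      obtain ⟨c, hc⟩ := hO.2 u h
      exact ⟨c, (Algebra.algebraMap_eq_smul_one c).symm.trans ((nu_sub h (mem hk hO.1 c)).1 hc).symm⟩
    refine ⟨e, fun u h => ?_⟩
    obtain ⟨c, hc⟩ := hO.2 u h.2.1
    rwa [cg O u _ hO.1 h.2.1 (mem hk hO.1 c) hc, con O hO.1, e, pow_one]

end Pool.Agent.MP_f3836a_nt.GP
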