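import Pool.Agent.MP_f3836a_nt.GP.SpecT
import Pool.Agent.MP_f3836a_nt.GP.GDu
import Pool.Agent.MP_f3836a_nt.GP.GTop1

/-! Part T: the field of constants, and the theorem on curves. -/

set_option autoImplicit false

namespace Pool.Agent.MP_f3836a_nt.GP

open Polynomial IsLocalRing PK VE.W VE.Z IntermediateField

namespace TNm

variable {F : Type} [Field F] {O : Subring F} {u : F}

theorem cmem (h : Pl O) (hc : IsAlgebraic ℤ u) [CharZero F] : u ∈ O := by
  obtain ⟨y, y0, e⟩ := hc.exists_integral_multiple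
  have a := h.2 y.natAbs (Int.natAbs_ne_zero.2 y0)
  have b : (y : F)⁻¹ ∈ O := by
    rcases Int.natAbs_eq y with k | k <;> rw [k]
    · rwa [Int.cast_natCast]
    · rw [Int.cast_neg, Int.cast_natCast, inv_neg]
      exact O.neg_mem a
  have := O.mul_mem b (int_mem h.1 e)
  rwa [zsmul_eq_mul, inv_mul_cancel_left₀ (Int.cast_ne_zero.2 y0)] at this

theorem itg_mul (h : Itg O u) (m : ℕ) : Itg O (m * u) := by
  obtain ⟨q, a, b⟩ := h
  refine ⟨q.scaleRoots m, (monic_scaleRoots_iff _).2 a, ?_⟩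
  have := scaleRoots_eval₂_mul (p := q) (algebraMap ℤ F) u m
  rw [map_natCast] at this
  rw [aeval_def, this]
  exact b.mul (O.pow_mem (natCast_mem O m) _)

theorem su {k : Type} [Field k] [Algebra k F] {nm : Subring F → F → k} (N : Nm nm) (h : Pl O)
    (hu : Ut O u) : SU O 1 u := by
  obtain ⟨n, n0, a⟩ := N.alg O u h hu.2.1
  obtain ⟨m, m0, b⟩ := N.alg O u⁻¹ h hu.2.2
  refine ⟨m * n, mul_ne_zero m0 n0, Nat.coprime_one_right _, ?_, ?_⟩
  · rw [Nat.cast_mul, mul_assoc]
    exact itg_mul a m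
  · rw [mul_comm m, Nat.cast_mul, mul_assoc]
    exact itg_mul b n

end TNm

open TNm

theorem tNm : OfNm := by
  intro hF hI hN K _ _ hK
  have G := (hF K).1 hK
  have I := hI K G
  obtain ⟨t, ht, -⟩ := id G
  obtain ⟨O, o, -⟩ := I.ex t ht
  let k := algebraicClosure ℚ K
  have al : ∀ z : K, IsAlgebraic ℤ z ↔ z ∈ k := fun z =>
    (IsFractionRing.isAlgebraic_iff ℤ ℚ K).trans mem_algebraicClosure_iff.symm
  have := (dvA o.1).loc
  let e := emb k O fun c => cmem o ((al _).2 c.2)
  let := (e.comp (algebraMap ℚ k)).toAlgebra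
  have := I.fd O o
  have : NumberField k :=
    { to_finiteDimensional := FiniteDimensional.of_injective e.toRatAlgHom.toLinearMap e.injective }
  exact ⟨k, inferInstance, inferInstance, _, hN k K G
    ⟨fun c => (IsFractionRing.isAlgebraic_iff ℤ ℚ k).2 (Algebra.IsAlgebraic.isAlgebraic c),
      fun z hz => ⟨⟨z, (al z).1 hz⟩, rfl⟩⟩⟩

theorem tFinalV : OfFinalV := by
  intro hF hI hN k F _ _ _ _ ⟨t, ht, hd⟩ hc u h0 hf h1
  have : CharZero F := charZero_of_injective_algebraMap (algebraMap k F).injective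
  have G := (hF F).2.2 k t inferInstance ht hd
  have I := hI F G
  have N := hN k F G
    ⟨fun c => (IsFractionRing.isAlgebraic_iff ℤ ℚ k).2 (Algebra.IsAlgebraic.isAlgebraic c),
      fun z hz => hc z (hz.extendScalars (algebraMap ℤ k).injective_int)⟩
  let R : Place k F → Subring F := fun P => P.V.toSubring
  have inj : Function.Injective R := fun P Q e =>
    Place.ext (ValuationSubring.toSubring_injective e)
  have lo : ∀ P, IsLocalRing (R P) := fun P => inferInstanceAs (IsLocalRing P.V)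
  have pl : ∀ P, Pl (R P) := fun P =>
    have ho : Ho (R P) := fun n _ => by simpa [R] using P.const (n : k)⁻¹
    ⟨I.dvr _ P.V.mem_or_inv_mem (fun e => P.ne (ValuationSubring.toSubring_injective e)) ho, ho⟩
  have rg : ∀ O, Pl O ↔ O ∈ Set.range R := fun O => ⟨fun o =>
    ⟨⟨⟨O, (dvA o.1).val⟩, fun e => (dvA o.1).ne (congrArg ValuationSubring.toSubring e), fun c => by
      by_cases c0 : c = 0
      · rw [c0, map_zero]
        exact zero_mem _
      · obtain ⟨d, -, e⟩ := N.con O o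
        exact (e c c0).1.2.1⟩, rfl⟩, fun ⟨P, e⟩ => e ▸ pl P⟩
  choose w hw using fun P : Place k F => residue_surjective (u P)
  let ψ := Function.extend R (fun P => (w P : F)) 1
  have eψ : ∀ P, ψ (R P) = w P := fun P => inj.extend_apply _ _ P
  have rψ : ∀ P, resR (R P) (residue (R P)) (ψ (R P)) = u P := fun P => by
    rw [eψ]
    exact (EDVA.res_mem (w P).2).trans (hw P)
  have uψ : ∀ P, Ut (R P) (ψ (R P)) := fun P => by
    rw [eψ]
    refine (ut_iff (D := R P) (w P)).2 ?_
    by_contra e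
    exact h0 P ((hw P).symm.trans ((residue_eq_zero_iff (w P)).2 e))
  have nψ : ∀ P, nmK k (R P) (ψ (R P)) = P.nm (u P) := fun P => by
    rw [nmK_eq k (R P) P.const, rψ]
    rfl
  obtain ⟨n, hn, l, e⟩ := gDu F {a : F × F // a.1 ≠ 0 ∧ a.2 ≠ 0} Pl
    (fun s O => tameE O s.1.1 s.1.2) ψ (fun _ o => o.1) (fun s O o => tame_ut o.1 s.2.1 s.2.2)
    (fun s => ((I.fin s.1.1).union (I.fin s.1.2)).subset fun O o => by
      by_contra e
      simp only [Set.mem_union, Set.mem_ofPred_eq, not_or, not_and, not_not] at e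
      exact o.2 (by rw [tame_l (e.1 o.1), e.2 o.1, zpow_zero, sub_self]; exact nu_zero))
    (fun s => ⟨⟨(s.1.2, s.1.1), s.2.2, s.2.1⟩, fun O o => by
      simpa [bdE] using ((dvA o.1).bd [s.1] (by simp [NZ, s.2.1, s.2.2])).2.1⟩)
    (fun O o => by obtain ⟨P, rfl⟩ := (rg O).1 o; exact uψ P)
    ((hf.image R).subset fun O o => by
      obtain ⟨P, rfl⟩ := (rg O).1 o.1
      exact ⟨P, fun e => o.2 ((GDu.res_one_iff _ (uψ P).2.1).1 ((rψ P).trans e)), rfl⟩)
    fun lam a b => by
      obtain ⟨μ, m, e⟩ := N.eng 1 ∅ lam one_ne_zero Set.finite_empty (by simp) (by simpa using a)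
        fun f g f0 g0 => by simpa using b ⟨(f, g), f0, g0⟩
      have n0 : ∀ P : Place k F, P.nm (u P) ≠ 0 := fun P => nψ P ▸ N.ne _ _ (pl P) (uψ P)
      have n1 : ∀ P : Place k F, P.nm (u P) ≠ 1 → P ∈ hf.toFinset := fun P h =>
        hf.mem_toFinset.2 fun e => h (by rw [e]; exact map_one _)
      have m1 : μ 1 = 0 := by simpa using m 1 1 one_ne_zero one_ne_zero
      rw [finprod_eq_prod_of_mulSupport_subset (s := hf.toFinset) _ n1] at h1
      simp only [rg]
      rw [finsum_mem_range inj, finsum_congr fun P =>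
        (e _ _ (pl P) (uψ P) (su N (pl P) (uψ P))).trans (congrArg μ (nψ P)),
        finsum_eq_sum_of_support_subset (s := hf.toFinset) _ fun P h =>
          n1 P fun e => h (by simp only [e, m1]),
        ← GTop1.adr_prod m _ fun P _ => n0 P, h1, m1]
  refine ⟨n, hn, l.map Subtype.val, fun a ha => ?_, fun P => ?_⟩
  · obtain ⟨s, -, rfl⟩ := List.mem_map.1 ha
    exact s.2
  · have k := GDu.res_prod (R P) (fun s : {a : F × F // a.1 ≠ 0 ∧ a.2 ≠ 0} =>
      tameE (R P) s.1.1 s.1.2) (fun s => (tame_ut (pl P).1 s.2.1 s.2.2).2.1) l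
    have e' := (GDu.res_eq (R P) (((uψ P).pow n).2.1) k.1).2 (e _ (pl P))
    rw [k.2, GDu.res_pow _ (uψ P).2.1, rψ] at e'
    rw [List.map_map]
    exact e'

end Pool.Agent.MP_f3836a_nt.GP
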