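import Pool.Agent.MP_f3836a_nt.GP.SpecT

/-! Row TNmK: the norm to the field of constants. -/

set_option autoImplicit false

namespace Pool.Agent.MP_f3836a_nt.GP

open Polynomial IsLocalRing PK VE.W VE.Z IntermediateField

namespace TNmK

theorem ext {k : Type} [Field k] (R : k → ℝ → Prop) (h1 : R 1 0)
    (hm : ∀ a r a' r', R a r → R a' r' → R (a * a') (r + r')) (hi : ∀ a r, R a r → R a⁻¹ (-r))
    (hk : ∀ r, R 1 r → r = 0) : ∃ μ, Adr μ ∧ ∀ a r, a ≠ 0 → R a r → r = μ a := by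
  classical
  let G : AddSubgroup (Additive kˣ × ℝ) :=
    { carrier := {x | R (x.1.toMul : kˣ) x.2}
      zero_mem' := h1
      add_mem' := fun a b => hm _ _ _ _ a b
      neg_mem' := fun {x} a => by simpa using hi _ _ a }
  obtain ⟨l, hl⟩ := (Module.Baer.of_divisible ℝ).extension_property_addMonoidHom
    ((AddMonoidHom.fst _ _).comp G.subtype) ((injective_iff_map_eq_zero _).2 fun x e => by
      have e' : x.1.1 = 0 := e
      have h : R (x.1.1.toMul : kˣ) x.1.2 := x.2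
      rw [e'] at h
      exact Subtype.ext (Prod.ext e' (hk _ h))) ((AddMonoidHom.snd _ _).comp G.subtype)
  refine ⟨fun a => if h : a = 0 then 0 else l (Additive.ofMul (Units.mk0 a h)),
    fun a b ha hb => ?_, fun a r h0 h => ?_⟩
  · simp only [dif_neg ha, dif_neg hb, dif_neg (mul_ne_zero ha hb), Units.mk0_mul, ofMul_mul,
      map_add]
  · simp only [dif_neg h0]
    exact (DFunLike.congr_fun hl ⟨(Additive.ofMul (Units.mk0 a h0), r), h⟩).symm

variable {F : Type} [Field F] {O : Subring F} {M : ℕ} {u u' : F}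

theorem itg_iff [IsLocalRing O] (z : O) : Itg O z ↔ IsIntegral ℤ (residue O z) :=
  exists_congr fun q => and_congr_right fun _ => by
    have e1 : aeval (z : F) q = (aeval z q : O) := aeval_algHom_apply O.subtype.toIntAlgHom z q
    have e2 : aeval (residue O z) q = residue O (aeval z q) :=
      aeval_algHom_apply (residue O).toIntAlgHom z q
    rw [e1, nu_iff, ← aeval_def, e2, residue_eq_zero_iff, mem_maximalIdeal, mem_nonunits_iff]

theorem itg_mul [IsLocalRing O] (a : u ∈ O) (b : u' ∈ O) {n n' : ℕ} (h : Itg O (n * u))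
    (h' : Itg O (n' * u')) : Itg O ((n * n' : ℕ) * (u * u')) := by
  have := (itg_iff _).2 (map_mul (residue O) _ _ ▸ ((itg_iff ((n : O) * (⟨u, a⟩ : O))).1 h).mul
    ((itg_iff ((n' : O) * (⟨u', b⟩ : O))).1 h'))
  convert this using 1
  push_cast
  ring

theorem su_one : SU O M 1 :=
  have : Itg O 1 := ⟨X - C 1, monic_X_sub_C 1, by simpa using nu_zero⟩
  ⟨1, one_ne_zero, Nat.coprime_one_left M, by simpa using this, by simpa using this⟩

theorem su_mul [IsLocalRing O] (a : Ut O u) (b : Ut O u') (h : SU O M u) (h' : SU O M u') :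
    SU O M (u * u') := by
  obtain ⟨n, h1, h2, h3, h4⟩ := h
  obtain ⟨n', h1', h2', h3', h4'⟩ := h'
  exact ⟨n * n', mul_ne_zero h1 h1', h2.mul_left h2', itg_mul a.2.1 b.2.1 h3 h3',
    mul_inv u u' ▸ itg_mul a.2.2 b.2.2 h4 h4'⟩

end TNmK

open TNmK in
theorem tNmK : OfNmK := by
  intro hF hN hW hK k F _ _ _ _ _ fg cl
  classical
  have N := hN k F cl.al (hF F fg)
  refine ⟨N.ne, N.mul, N.cg, fun O h => ⟨_, N.con O h⟩, N.int, N.alg,
    fun z h => cl.cl z (by_contra fun e => ?_), fun μ h f g => hW k F fg μ f g h,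
    fun M VV lam h1 h2 h3 h4 h5 => ?_⟩
  · obtain ⟨O, a, b⟩ := (hF F fg).ex z e
    exact b (h O a)
  have n1 : ∀ O : Subring F, Pl O → nmK k O 1 = 1 := fun O h => by
    simpa using ((N.con O h).2 1 one_ne_zero).2
  obtain ⟨μ, a, b⟩ := ext (fun (a : k) r => ∃ (s : Finset (Subring F)) (u : Subring F → F),
    (∀ O ∈ s, Pl O) ∧ (∀ O, Pl O → Ut O (u O) ∧ SU O M (u O)) ∧ ∀ t, s ⊆ t → (∀ O ∈ t, Pl O) →
      ∏ O ∈ t, nmK k O (u O) = a ∧ ∑ O ∈ t, lam O (u O) = r)
    ⟨∅, fun _ => 1, by simp, fun _ _ => ⟨ut_one, su_one⟩, fun t _ ht =>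
      ⟨Finset.prod_eq_one fun O h => n1 O (ht O h),
        Finset.sum_eq_zero fun O h => (h4 O (.inl (ht O h))).one⟩⟩
    (by
      rintro a r a' r' ⟨s, u, s1, s2, s3⟩ ⟨s', u', t1, t2, t3⟩
      refine ⟨s ∪ s', fun O => u O * u' O, fun O h => (Finset.mem_union.1 h).elim (s1 O) (t1 O),
        fun O h => ⟨(s2 O h).1.mul (t2 O h).1, ?_⟩, fun t e ht => ?_⟩
      · have := (dvA h.1).loc
        exact su_mul (s2 O h).1 (t2 O h).1 (s2 O h).2 (t2 O h).2
      · obtain ⟨rfl, rfl⟩ := s3 t (Finset.union_subset_left e) ht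
        obtain ⟨rfl, rfl⟩ := t3 t (Finset.union_subset_right e) ht
        rw [← Finset.prod_mul_distrib, ← Finset.sum_add_distrib]
        exact ⟨Finset.prod_congr rfl fun O h => N.mul O _ _ (ht O h) (s2 O (ht O h)).1
          (t2 O (ht O h)).1, Finset.sum_congr rfl fun O h => (h4 O (.inl (ht O h))).mul _ _
          (s2 O (ht O h)).1 (t2 O (ht O h)).1⟩)
    (by
      rintro a r ⟨s, u, s1, s2, s3⟩
      refine ⟨s, fun O => (u O)⁻¹, s1, fun O h => ⟨(s2 O h).1.inv, (s2 O h).2.imp fun n e =>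
        ⟨e.1, e.2.1, e.2.2.2, by simpa using e.2.2.1⟩⟩, fun t e ht => ?_⟩
      obtain ⟨rfl, rfl⟩ := s3 t e ht
      rw [← Finset.prod_inv_distrib, ← Finset.sum_neg_distrib]
      refine ⟨Finset.prod_congr rfl fun O h => eq_inv_of_mul_eq_one_right ?_,
        Finset.sum_congr rfl fun O h => (h4 O (.inl (ht O h))).inv (s2 O (ht O h)).1⟩
      have c := (s2 O (ht O h)).1
      rw [← N.mul O _ _ (ht O h) c c.inv, mul_inv_cancel₀ c.1, n1 O (ht O h)])
    (by
      rintro r ⟨s, u, s1, s2, s3⟩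
      obtain ⟨e, rfl⟩ := s3 s le_rfl s1
      exact hK k F M VV lam s u fg cl ⟨h1, h2, h3, h4, h5⟩ (fun O h => ⟨s1 O h, s2 O (s1 O h)⟩) e)
  refine ⟨μ, a, fun O u p c d => b _ _ (N.ne O u p c) ⟨{O}, sg O u, by simpa using p,
    fun O' h => ?_, fun t e ht => ⟨?_, ?_⟩⟩⟩
  · unfold sg
    split_ifs with e
    exacts [e ▸ ⟨c, d⟩, ⟨ut_one, su_one⟩]
  · rw [Finset.prod_eq_single_of_mem O (by simpa using e) fun O' h e' => by
      rw [sg, if_neg e', n1 O' (ht O' h)], sg, if_pos rfl]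
  · rw [Finset.sum_eq_single_of_mem O (by simpa using e) fun O' h e' => by
      rw [sg, if_neg e', (h4 O' (.inl (ht O' h))).one], sg, if_pos rfl]

end Pool.Agent.MP_f3836a_nt.GP
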