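import Pool.Agent.MP_f3836a_nt.GP.SpecT
import Pool.Agent.MP_f3836a_nt.VE.ZExA

/-! Part T: norms and symbols in a finite extension. -/

set_option autoImplicit false

namespace Pool.Agent.MP_f3836a_nt.GP

open Polynomial IsLocalRing PK VE.W VE.Z IntermediateField

namespace TNx

theorem tower {k κ κ' : Type} [Field k] [Field κ] [Field κ'] (a : k →+* κ) (b : κ →+* κ')
    (c : k →+* κ') (h : ∀ x, c x = b (a x)) : ∃ f : ℕ,
    @Module.finrank k κ' _ _ c.toAlgebra.toModule =
      f * @Module.finrank k κ _ _ a.toAlgebra.toModule ∧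
    ∀ x, @Algebra.norm k κ' _ _ c.toAlgebra (b x) = @Algebra.norm k κ _ _ a.toAlgebra x ^ f := by
  let := a.toAlgebra
  let := b.toAlgebra
  let := c.toAlgebra
  have : IsScalarTower k κ κ' := IsScalarTower.of_algebraMap_eq h
  refine ⟨Module.finrank κ κ', by rw [mul_comm, Module.finrank_mul_finrank], fun x => ?_⟩
  rw [← Algebra.norm_norm (R := k) (S := κ), ← map_pow]
  exact congrArg _ (Algebra.norm_algebraMap x)

theorem adr_one {k : Type} [Field k] {μ : k → ℝ} (h : Adr μ) : μ 1 = 0 := by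
  have := h 1 1 one_ne_zero one_ne_zero
  rw [mul_one] at this
  linarith

theorem adr_pow {k : Type} [Field k] {μ : k → ℝ} (h : Adr μ) {a : k} (ha : a ≠ 0) (n : ℕ) :
    μ (a ^ n) = n * μ a := by
  induction n with
  | zero => simp [adr_one h]
  | succ n ih => rw [pow_succ, h _ _ (pow_ne_zero n ha) ha, ih]; push_cast; ring

theorem fn {k F : Type} [Field k] [Field F] [Algebra k F] (N : Nb k F) {μ : k → ℝ} (h : Adr μ)
    {O : Subring F} (o : Pl O) : Fn O fun u => μ (nmK k O u) :=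
  ⟨fun u u' a b => by rw [N.mul O u u' o a b, h _ _ (N.ne O u o a) (N.ne O u' o b)],
    fun u u' a b c => by rw [N.cg O u u' o a b c]⟩

theorem ut_neg {F : Type} [Field F] (O : Subring F) : Ut O (-1) :=
  ⟨neg_ne_zero.2 one_ne_zero, O.neg_mem O.one_mem, by simp⟩

theorem fn_neg {F : Type} [Field F] {O : Subring F} {l : F → ℝ} (h : Fn O l) : l (-1) = 0 := by
  have := h.pow (ut_neg O) 2
  rw [neg_one_sq, h.one] at this
  push_cast at this
  linarith

theorem tame_map {F F' : Type} [Field F] [Field F'] (i : F →+* F') (O : Subring F)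
    (O' : Subring F') (e : ℕ) (f g : F) (a : ordR O' (i f) = e * ordR O f)
    (b : ordR O' (i g) = e * ordR O g) : tameE O' (i f) (i g) =
      (-1) ^ (e * (e - 1) * (ordR O f * ordR O g) : ℤ) * i (tameE O f g) ^ e := by
  have h1 : (-1 : F') ≠ 0 := neg_ne_zero.2 one_ne_zero
  rw [tameE, tameE, a, b, map_div₀, map_mul, map_zpow₀, map_zpow₀, map_zpow₀, map_neg, map_one,
    div_pow, mul_pow, ← zpow_natCast, ← zpow_natCast, ← zpow_natCast, ← zpow_mul, ← zpow_mul,
    ← zpow_mul, mul_div_assoc', ← mul_assoc ((-1 : F') ^ _), ← zpow_add₀ h1]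
  rw [mul_comm (ordR O g) (e : ℤ), mul_comm (ordR O f) (e : ℤ)]
  congr 3
  ring

end TNx

open TNx

theorem tNx : OfNx := by
  intro hN k F F' _ _ _ _ _ _ _ _ _ _ al fi fi' O O' h
  obtain ⟨h', rfl⟩ := h
  have hO := (zExA zDv F F' O' h').1
  have e : Pl (O'.comap (algebraMap F F')) ↔ Pl O' := by
    simp only [Pl, Ho, hO, h', true_and, Subring.mem_comap, map_inv₀, map_natCast]
  refine ⟨e, fun o => ?_⟩
  have m := (hN k F al fi).mem _ o
  have m' := (hN k F' al fi').mem _ (e.1 o)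
  have := (dvA hO).loc
  have := (dvA h').loc
  let j : O'.comap (algebraMap F F') →+* O' :=
    ((algebraMap F F').comp (Subring.subtype _)).codRestrict O' fun z => z.2
  have : IsLocalHom j := ⟨fun z hz => (ut_iff z).1 ((ZExA.ut_comap _ _ _).2 ((ut_iff (j z)).2 hz))⟩
  obtain ⟨f, a, b⟩ := tower (emb k _ m) (ResidueField.map j) (emb k O' m') fun x =>
    congrArg (residue O') (Subtype.ext (IsScalarTower.algebraMap_apply k F F' x))
  refine ⟨f, by rw [dgK_eq k _ m, dgK_eq k _ m', a], fun u hu => ?_⟩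
  rw [nmK_eq k _ m, nmK_eq k _ m', ← b, EDVA.res_mem hu.2.1, EDVA.res_mem (O := O') hu.2.1]
  rfl

theorem tCmp : OfCmp := by
  intro hN hFe hEf hNx k F F' _ _ _ _ _ _ _ _ _ _ al fi fi' μ f g hμ f0 g0
  have N := hN k F al fi
  have N' := hN k F' al fi'
  have loc : ∀ (O : Subring F) (O' : Subring F') (π : F), Pl O → π ≠ 0 → ordR O π = 1 → Ab O O' →
      (dgK k O : ℝ) * μ (nmK k O' (tameE O' (algebraMap F F' f) (algebraMap F F' g))) =
        ((ordR O' (algebraMap F F' π) * dgK k O' : ℤ) : ℝ) * μ (nmK k O (tameE O f g)) := by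
    intro O O' π o π0 π1 h
    obtain ⟨e1, e2⟩ := hNx k F F' al fi fi' O O' h
    obtain ⟨c, c1, c2⟩ := e2 o
    obtain ⟨h', rfl⟩ := h
    obtain ⟨-, e, -, he⟩ := zExA zDv F F' O' h'
    have u := tame_ut o.1 f0 g0
    have u' := (ZExA.ut_comap _ _ _).1 u
    have L := fn N' hμ (e1.1 o)
    have := L.mul _ _ ((ut_neg O').zpow (e * (e - 1) * (ordR (O'.comap (algebraMap F F')) f *
      ordR (O'.comap (algebraMap F F')) g) : ℤ)) (u'.pow e)
    rw [L.zpow (ut_neg O'), L.pow u', fn_neg L, c2 _ u, adr_pow hμ (N.ne _ _ o u)] at this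
    rw [tame_map _ _ O' e f g (he f f0) (he g g0), this, he π π0, π1, c1]
    push_cast
    ring
  have sum : ∀ O : Subring F, Pl O → ∑ᶠ (O' : Subring F') (_ : O' ∈ {O' | Ab O O'}),
      μ (nmK k O' (tameE O' (algebraMap F F' f) (algebraMap F F' g))) =
        Module.finrank F F' * μ (nmK k O (tameE O f g)) := by
    intro O o
    obtain ⟨π, π0, π1⟩ := (dvA o.1).uni
    have fe := hFe F F' O o.1
    have ef : ∑ᶠ (O' : Subring F') (_ : O' ∈ {O' | Ab O O'}),
      ordR O' (algebraMap F F' π) * dgK k O' = _ := hEf k F F' al fi fi' O π o π1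
    have d0 : (dgK k O : ℝ) ≠ 0 := Nat.cast_ne_zero.2 (N.con O o).1.ne'
    refine mul_left_cancel₀ d0 ?_
    rw [finsum_mem_eq_finite_toFinset_sum _ fe] at ef ⊢
    rw [Finset.mul_sum, Finset.sum_congr rfl fun O' h => loc O O' π o π0 π1 (fe.mem_toFinset.1 h),
      ← Finset.sum_mul, ← Int.cast_sum, ef]
    push_cast
    ring
  have triv : ∀ O : Subring F, Pl O → ordR O f = 0 → ordR O g = 0 →
      μ (nmK k O (tameE O f g)) = 0 := fun O o a b => by
    rw [tame_l a, b, zpow_zero]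
    exact (fn N hμ o).one
  have hT := (fi.fin f).union (fi.fin g)
  have e1 : bt k μ f g = ∑ᶠ O ∈ {O | Pl O ∧ ordR O f ≠ 0} ∪ {O | Pl O ∧ ordR O g ≠ 0},
      μ (nmK k O (tameE O f g)) := by
    refine finsum_mem_inter_support_eq' _ {O | Pl O} _ fun O h => ⟨fun o => ?_, fun o => ?_⟩
    · by_contra n
      simp only [Set.mem_union, Set.mem_ofPred_eq, not_or, not_and, not_not] at n
      exact h (triv O o (n.1 o) (n.2 o))
    · exact o.elim (·.1) (·.1)
  have e2 : bt k μ (algebraMap F F' f) (algebraMap F F' g) =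
      ∑ᶠ O' ∈ ⋃ O ∈ {O | Pl O ∧ ordR O f ≠ 0} ∪ {O | Pl O ∧ ordR O g ≠ 0}, {O' | Ab O O'},
        μ (nmK k O' (tameE O' (algebraMap F F' f) (algebraMap F F' g))) := by
    refine finsum_mem_inter_support_eq' _ {O | Pl O} _ fun O' h => ⟨fun o => ?_, fun o => ?_⟩
    · have a : Ab (O'.comap (algebraMap F F')) O' := ⟨o.1, rfl⟩
      have p := (hNx k F F' al fi fi' _ O' a).1.2 o
      refine Set.mem_biUnion (x := O'.comap (algebraMap F F')) ?_ a
      by_contra n
      simp only [Set.mem_union, Set.mem_ofPred_eq, not_or, not_and, not_not] at n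
      obtain ⟨π, π0, π1⟩ := (dvA p.1).uni
      have := loc _ O' π p π0 π1 a
      rw [triv _ p (n.1 p) (n.2 p), mul_zero] at this
      exact h ((mul_eq_zero.1 this).resolve_left (Nat.cast_ne_zero.2 (N.con _ p).1.ne'))
    · obtain ⟨O, a, b⟩ := Set.mem_iUnion₂.1 o
      exact (hNx k F F' al fi fi' O O' b).1.1 (a.elim (·.1) (·.1))
  rw [e1, e2, finsum_mem_biUnion _ hT fun O a => hFe F F' O (a.elim (·.1.1) (·.1.1)),
    finsum_mem_eq_finite_toFinset_sum _ hT, finsum_mem_eq_finite_toFinset_sum _ hT, Finset.mul_sum]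
  · exact Finset.sum_congr rfl fun O a => sum O ((hT.mem_toFinset.1 a).elim (·.1) (·.1))
  · exact fun O _ O₁ _ n => Set.disjoint_left.2 fun O' a b => n (a.2.symm.trans b.2)

end Pool.Agent.MP_f3836a_nt.GP
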