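import Pool.Agent.MP_f3836a_nt.GP.SpecT
import Pool.Agent.MP_f3836a_nt.VE.TNR

/-! The places of the line. -/

set_option autoImplicit false

namespace Pool.Agent.MP_f3836a_nt.GP

open Polynomial IsLocalRing PK VE.W VE.Z IntermediateField

namespace TP0

variable {k F : Type} [Field k] [Field F] [Algebra k F] {O : Subring F} {x : F} {π a : k[X]}

theorem mem (hk : ∀ c : k, algebraMap k F c ∈ O) (hx : x ∈ O) (a : k[X]) : aeval x a ∈ O := by
  rw [aeval_eq_sum_range]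
  exact O.sum_mem fun i _ => by
    rw [Algebra.smul_def]
    exact O.mul_mem (hk _) (O.pow_mem hx _)

theorem ut_c (hk : ∀ c : k, algebraMap k F c ∈ O) {c : k} (h : c ≠ 0) : Ut O (algebraMap k F c) :=
  ⟨(_root_.map_ne_zero _).2 h, hk c, map_inv₀ (algebraMap k F) c ▸ hk _⟩

theorem frac (ht : Transcendental k x) (h : k⟮x⟯ = ⊤) (z : F) :
    ∃ a b : k[X], IsCoprime a b ∧ b ≠ 0 ∧ z = aeval x a / aeval x b := by
  classical
  obtain ⟨r, s, e⟩ := (mem_adjoin_simple_iff k z).1 (h ▸ mem_top : z ∈ k⟮x⟯)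
  by_cases s0 : s = 0
  · exact ⟨0, 1, isCoprime_one_right, one_ne_zero, by simp [e, s0]⟩
  obtain ⟨a, b, e1, e2, u⟩ := extract_gcd r s
  have g0 : aeval x (gcd r s) ≠ 0 := fun q =>
    gcd_ne_zero_of_right s0 (transcendental_iff.1 ht _ q)
  refine ⟨a, b, (gcd_isUnit_iff _ _).1 u, fun q => s0 (by rw [e2, q, mul_zero]), ?_⟩
  rw [← mul_div_mul_left (aeval x a) _ g0, ← map_mul, ← map_mul, ← e1, ← e2, e]

theorem irr (hk : ∀ c : k, algebraMap k F c ∈ O) (hx : x ∈ O) (a : k[X]) (a0 : a ≠ 0)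
    (h : Nu O (aeval x a)) : ∃ π : k[X], π.Monic ∧ Irreducible π ∧ Nu O (aeval x π) := by
  induction a using WfDvdMonoid.induction_on_irreducible with
  | zero => exact absurd rfl a0
  | unit u hu =>
    obtain ⟨c, hc, rfl⟩ := isUnit_iff.1 hu
    exact absurd (aeval_C x c ▸ ut_c hk hc.ne_zero) h.not
  | mul A i A0 hi ih =>
    refine (nu_or (mem hk hx A)).elim (ih A0) fun u => ⟨_, monic_mul_leadingCoeff_inv hi.ne_zero,
      irreducible_mul_leadingCoeff_inv.2 hi, ?_⟩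
    rw [map_mul, mul_comm]
    exact ((nu_or (mem hk hx i)).resolve_right fun v => h.not (map_mul (aeval x) i A ▸ v.mul u)).mul
      (mem hk hx _)

theorem con (hk : ∀ c : k, algebraMap k F c ∈ O) (h : Nu O x) (a : k[X]) :
    Nu O (aeval x a - algebraMap k F (a.coeff 0)) := by
  have e := congrArg (aeval x) (divX_mul_X_add a)
  rw [map_add, map_mul, aeval_X, aeval_C] at e
  rw [← e, add_sub_cancel_right]
  exact h.mul (mem hk h.1 _)

theorem inf (hk : ∀ c : k, algebraMap k F c ∈ O) (x0 : x ≠ 0) (h : Nu O x⁻¹) (hm : a.Monic) :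
    Nu O (aeval x a / x ^ a.natDegree - 1) := by
  have e := @eval₂_reverse_mul_pow _ _ _ _ (algebraMap k F) x (invertibleOfNonzero x0) a
  have g := con hk h a.reverse
  rw [coeff_zero_reverse, hm.leadingCoeff, map_one] at g
  rw [invOf_eq_inv] at e
  rwa [aeval_def, ← e, mul_div_cancel_right₀ _ (pow_ne_zero _ x0)]

variable [IsLocalRing O] (hk : ∀ c : k, algebraMap k F c ∈ O) (hx : x ∈ O) (hi : Irreducible π)
  (hπ : Nu O (aeval x π))

include hk hx hi hπ

theorem cop (h : ¬π ∣ a) : Ut O (aeval x a) ∧ ∃ u : k[X], Nu O (1 - aeval x u * aeval x a) := by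
  obtain ⟨v, u, e⟩ := hi.coprime_iff_not_dvd.2 h
  have e' := congrArg (aeval x) e
  rw [map_add, map_mul, map_mul, map_one] at e'
  have g : Nu O (1 - aeval x u * aeval x a) := by
    rw [← e', add_sub_cancel_right]
    exact hπ.mul (mem hk hx v)
  exact ⟨(nu_or (mem hk hx a)).resolve_left fun n =>
    (by simpa using g.add (n.mul (mem hk hx u)) : Nu O 1).not ut_one, u, g⟩

theorem chr (ht : Transcendental k x) (h : k⟮x⟯ = ⊤) (z : F) :
    z ∈ O ↔ ∃ a b : k[X], ¬π ∣ b ∧ z = aeval x a / aeval x b := by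
  refine ⟨fun hz => ?_, fun ⟨a, b, n, e⟩ => e ▸ div_eq_mul_inv (aeval x a) _ ▸
    O.mul_mem (mem hk hx a) (cop hk hx hi hπ n).1.2.2⟩
  obtain ⟨a, b, c, b0, e⟩ := frac ht h z
  refine ⟨a, b, fun ⟨q, d⟩ => ?_, e⟩
  refine Nu.not ?_ (cop hk hx hi hπ fun n => hi.not_isUnit (c.isUnit_of_dvd' n ⟨q, d⟩)).1
  rw [(div_eq_iff fun r => b0 (transcendental_iff.1 ht _ r)).1 e.symm, d, map_mul,
    mul_comm (aeval x π), ← mul_assoc]
  exact hπ.mul (O.mul_mem hz (mem hk hx q))

theorem rep (ht : Transcendental k x) (h : k⟮x⟯ = ⊤) {z : F} (hz : z ∈ O) :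
    ∃ r : k[X], Nu O (z - aeval x r) := by
  obtain ⟨a, b, n, e⟩ := (chr hk hx hi hπ ht h z).1 hz
  obtain ⟨u, v, g⟩ := cop hk hx hi hπ n
  refine ⟨a * v, ?_⟩
  convert g.mul hz using 1
  rw [e, map_mul]
  field_simp [u.1]

theorem nrm [CharZero k] (ht : Transcendental k x) (h : k⟮x⟯ = ⊤) (hm : π.Monic) (a : k[X]) :
    nmK k O (aeval x a) = resultant π a := by
  let _ := (emb k O hk).toAlgebra
  have e : ∀ a : k[X], residue O ⟨_, mem hk hx a⟩ = aeval (residue O ⟨x, hx⟩) a := fun a =>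
    RingHom.congr_fun (ringHom_ext (f := (residue O).comp
      ((aeval x : k[X] →ₐ[k] F).toRingHom.codRestrict O (mem hk hx)))
      (g := (aeval (residue O ⟨x, hx⟩) : k[X] →ₐ[k] _).toRingHom)
      (fun c => (congrArg (residue O) (Subtype.ext (aeval_C x c))).trans (aeval_C _ c).symm)
      ((congrArg (residue O) (Subtype.ext (aeval_X x))).trans (aeval_X _).symm)) a
  have z : ∀ {u : O}, Nu O u → residue O u = 0 := fun {u} q =>
    (residue_eq_zero_iff u).2 ((nu_iff u).1 q)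
  have r : aeval (residue O ⟨x, hx⟩) π = 0 := (e π).symm.trans (z hπ)
  have t : Algebra.adjoin k {residue O ⟨x, hx⟩} = ⊤ := eq_top_iff.2 fun w _ => by
    obtain ⟨u, rfl⟩ := residue_surjective w
    obtain ⟨q, g⟩ := rep hk hx hi hπ ht h u.2
    rw [Algebra.adjoin_singleton_eq_range_aeval]
    exact ⟨q, (e q).symm.trans (sub_eq_zero.1 ((map_sub _ _ _).symm.trans
      (z (u := u - ⟨_, mem hk hx q⟩) g))).symm⟩
  have p := VE.T.TNR.pb_norm (PowerBasis.ofAdjoinEqTop ⟨π, hm, r⟩ t) a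
  rw [PowerBasis.ofAdjoinEqTop_gen, ← minpoly.eq_of_irreducible_of_monic hi r hm] at p
  rw [nmK_eq k O hk, resR, dif_pos (mem hk hx a), e, p]

omit [IsLocalRing O] in
theorem ord (d : Dvr O) (ht : Transcendental k x) (h : k⟮x⟯ = ⊤) : ordR O (aeval x π) = 1 := by
  have A := dvA d
  have := A.loc
  have ne : ∀ a : k[X], a ≠ 0 → aeval x a ≠ 0 := fun a q r => q (transcendental_iff.1 ht _ r)
  obtain ⟨t, t0, o⟩ := A.uni
  obtain ⟨a, b, n, e⟩ := (chr hk hx hi hπ ht h t).1 ((A.mem t t0).2 (by omega))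
  have u := (cop hk hx hi hπ n).1
  have e1 := A.mul _ _ t0 u.1
  rw [← (div_eq_iff u.1).1 e.symm, o, ((A.ut _).1 u).2] at e1
  obtain ⟨c, rfl⟩ : π ∣ a := by_contra fun q => by
    have := ((A.ut _).1 (cop hk hx hi hπ q).1).2
    omega
  have c0 : c ≠ 0 := fun q => t0 (by simp [e, q])
  rw [map_mul, A.mul _ _ (ne _ hi.ne_zero) (ne _ c0)] at e1
  have := (A.mem _ (ne _ c0)).1 (mem hk hx c)
  have := ((A.nu _).1 hπ).resolve_left (ne _ hi.ne_zero)
  omega

omit [IsLocalRing O] in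
theorem uniq (d : Dvr O) (ht : Transcendental k x) (h : k⟮x⟯ = ⊤) {O' : Subring F} (d' : Dvr O')
    (hk' : ∀ c : k, algebraMap k F c ∈ O') (hx' : x ∈ O') (hπ' : Nu O' (aeval x π)) : O' = O :=
  have := (dvA d).loc
  have := (dvA d').loc
  SetLike.ext fun z => (chr hk' hx' hi hπ' ht h z).trans (chr hk hx hi hπ ht h z).symm

end TP0

open TP0 in
theorem tP0 : OfP0 := fun hN k F _ _ _ _ x al fi ht h => by
  have N := hN k F al fi
  have : CharZero k := (algebraMap k F).charZero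
  have ne : ∀ a : k[X], a ≠ 0 → aeval x a ≠ 0 := fun a q r => q (transcendental_iff.1 ht _ r)
  have x0 : x ≠ 0 := aeval_X (R := k) x ▸ ne X X_ne_zero
  have tz : ∀ z : F, Transcendental k z → ∃ O, Pl O ∧ z ∉ O := fun z q =>
    fi.ex z (q.restrictScalars (algebraMap ℤ k).injective_int)
  have nu : ∀ {O : Subring F} {z : F}, Pl O → z ∉ O → Nu O z⁻¹ := fun {O z} p q =>
    ⟨((dvA p.1).val z).resolve_left q, .inr ((inv_inv z).symm ▸ q)⟩
  refine ⟨fun O p hx => ?_, fun π hm hi => ?_, ?_⟩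
  · by_contra q
    refine (dvA p.1).ne (eq_top_iff.2 fun z _ => ?_)
    obtain ⟨a, b, -, b0, e⟩ := frac ht h z
    rw [e, div_eq_mul_inv]
    exact O.mul_mem (mem (N.mem O p) hx a) ((nu_or (mem (N.mem O p) hx b)).resolve_left
      fun n => q (irr (N.mem O p) hx b b0 n)).2.2
  · obtain ⟨O, p, q⟩ := tz (aeval x π)⁻¹ fun r => ht.aeval π hi.natDegree_pos.ne'
      (hm.leadingCoeff ▸ one_mem _) (IsAlgebraic.inv_iff.1 r)
    have hπ := nu p q
    rw [inv_inv] at hπ
    have A := dvA p.1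
    have := A.loc
    have hk := N.mem O p
    have hx : x ∈ O := by_contra fun r => by
      have u := (A.ut _).1 (ut_of_nu ut_one (inf hk x0 (nu p r) hm))
      have e1 := A.mul _ _ u.1 (pow_ne_zero π.natDegree x0)
      have e2 := A.zpow x π.natDegree x0
      rw [div_mul_cancel₀ _ (pow_ne_zero _ x0), u.2, ← zpow_natCast, e2] at e1
      have := (A.mem _ (ne _ hi.ne_zero)).1 hπ.1
      have := mt (A.mem _ x0).2 r
      have := hi.natDegree_pos
      nlinarith
    exact ⟨O, p, hx, ord hk hx hi hπ p.1 ht h, fun O' p' hx' r =>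
      (nu_or (mem (N.mem O' p') hx' π)).resolve_left fun n =>
        r (uniq hk hx hi hπ p.1 ht h p'.1 (N.mem O' p') hx' n),
      fun a n => ⟨(cop hk hx hi hπ n).1, nrm hk hx hi hπ ht h hm a⟩⟩
  · obtain ⟨O, p, q⟩ := tz x ht
    have A := dvA p.1
    have := A.loc
    have hk := N.mem O p
    have ht' : Transcendental k x⁻¹ := fun r => ht (IsAlgebraic.inv_iff.1 r)
    have h' : k⟮x⁻¹⟯ = ⊤ := eq_top_iff.2 (h ▸ adjoin_simple_le_iff.2
      (by simpa using inv_mem (mem_adjoin_simple_self k x⁻¹)))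
    have nX : ∀ {O : Subring F}, Pl O → x ∉ O → Nu O (aeval x⁻¹ (X : k[X])) := fun p q =>
      (aeval_X (R := k) x⁻¹).symm ▸ nu p q
    have n := nu p q
    have o := ord hk n.1 irreducible_X (nX p q) p.1 ht' h'
    rw [aeval_X, ← zpow_neg_one, A.zpow x _ x0] at o
    refine ⟨O, ⟨p, fun u hu => ?_⟩, fun O' p' => ⟨fun q' => uniq hk n.1 irreducible_X (nX p q) p.1
      ht' h' p'.1 (N.mem O' p') (nu p' q').1 (nX p' q'), fun e => e ▸ q⟩, fun a hm => ?_⟩
    · obtain ⟨r, g⟩ := rep hk n.1 irreducible_X (nX p q) ht' h' hu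
      exact ⟨r.coeff 0, by simpa using g.add (con hk n r)⟩
    · have g := inf hk x0 n hm
      have u := (A.ut _).1 (ut_of_nu ut_one g)
      have e1 := A.mul _ _ u.1 (pow_ne_zero a.natDegree x0)
      rw [div_mul_cancel₀ _ (pow_ne_zero _ x0), u.2, ← zpow_natCast, A.zpow x _ x0,
        show ordR O x = -1 by omega] at e1
      exact ⟨by omega, g⟩

end Pool.Agent.MP_f3836a_nt.GP
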