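import Pool.Agent.MP_f3836a_nt.GP.SpecT
import Pool.Agent.MP_f3836a_nt.VE.ZExA

/-! Part T: the places above a place whose residue field splits. -/

set_option autoImplicit false

namespace Pool.Agent.MP_f3836a_nt.GP

open Polynomial IsLocalRing PK VE.W VE.Z IntermediateField TensorProduct

namespace TSpl

variable {k k' F F' : Type} [Field k] [Field k'] [Field F] [Field F'] [Algebra k F] [Algebra k F']
  [Algebra F F'] [Algebra k k'] [Algebra k' F'] [IsScalarTower k F F'] [IsScalarTower k k' F']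
  [FiniteDimensional k k'] [FiniteDimensional F F']

/-- a homomorphism to the new constants gives a place -/
theorem place (h1 : Module.finrank F F' = Module.finrank k k')
    (h2 : Algebra.adjoin F (Set.range (algebraMap k' F')) = ⊤) {O : Subring F} (hO : Dvr O)
    (h : ∀ c : k, algebraMap k F c ∈ O) (r : O →+* k')
    (hr : ∀ c, r ⟨_, h c⟩ = algebraMap k k' c) (h0 : ∀ z : O, Nu O z → r z = 0) :
    ∃ O' : Subring F', Ab O O' ∧ ∀ u : O, Nu O' (algebraMap F F' u - algebraMap k' F' (r u)) := by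
  let _ := ((algebraMap k F).codRestrict O h).toAlgebra
  let Ψ : F ⊗[k] k' →ₐ[F] F' := Algebra.TensorProduct.lift (Algebra.ofId F F')
    (IsScalarTower.toAlgHom k k' F') fun _ _ => .all _ _
  have s : Function.Surjective Ψ := (AlgHom.range_eq_top Ψ).1 (top_le_iff.1 (h2 ▸
    Algebra.adjoin_le (by rintro _ ⟨c, rfl⟩; exact ⟨1 ⊗ₜ c, by simp [Ψ]⟩)))
  have i : Function.Injective Ψ := (LinearMap.injective_iff_surjective_of_finrank_eq_finrank
    (f := Ψ.toLinearMap) (Module.finrank_baseChange.trans h1.symm)).2 s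
  let j : O →ₐ[k] F := { O.subtype with commutes' := fun _ => rfl }
  let ψ : O ⊗[k] k' →+* F' :=
    Ψ.toRingHom.comp (Algebra.TensorProduct.map j (AlgHom.id k k')).toRingHom
  have e : ∀ u c, ψ (u ⊗ₜ c) = algebraMap F F' u * algebraMap k' F' c := fun _ _ => rfl
  have i' : Function.Injective ψ := i.comp
    (Module.Flat.rTensor_preserves_injective_linearMap (M := k') j.toLinearMap Subtype.val_injective)
  let φ : O ⊗[k] k' →ₐ[k] k' := Algebra.TensorProduct.lift { r with commutes' := hr }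
    (AlgHom.id k k') fun _ _ => .all _ _
  let ε := RingEquiv.ofBijective ψ.rangeRestrict
    ⟨fun a b c => i' (congrArg Subtype.val c), ψ.rangeRestrict_surjective⟩
  obtain ⟨B, b1, b2⟩ := Ideal.image_subset_nonunits_valuationSubring _
    (RingHom.ker_ne_top (φ.toRingHom.comp ε.symm.toRingHom))
  have n : ∀ x, φ x = 0 → Nu B.toSubring (ψ x) := fun x hx => ⟨b1 ⟨x, rfl⟩,
    B.mem_nonunits_iff_or.1 (b2 ⟨ε x, (congrArg φ (ε.symm_apply_apply x)).trans hx, rfl⟩)⟩
  have n' : ∀ u : O, Nu B.toSubring (algebraMap F F' u - algebraMap k' F' (r u)) := fun u => by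
    have := n (u ⊗ₜ 1 - 1 ⊗ₜ r u) (by simp [φ])
    rw [ψ.map_sub, e, e] at this
    simpa using this
  have c : B.toSubring.comap (algebraMap F F') = O := by
    refine ((dvA hO).max _ fun u hu => b1 ⟨⟨u, hu⟩ ⊗ₜ 1, by simp [e]⟩).resolve_right fun t => ?_
    obtain ⟨π, π0, hπ⟩ := (dvA hO).uni
    have p := ((dvA hO).nu π).2 (.inr (by omega))
    have q := n' ⟨π, p.1⟩
    rw [h0 ⟨π, p.1⟩ p, map_zero, sub_zero, ← ZExA.nu_comap, t] at q
    exact q.2.elim π0 fun a => a trivial
  exact ⟨_, ⟨ZExA.up zDv B (c.symm ▸ hO), c⟩, n'⟩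

omit [FiniteDimensional k k'] in
theorem norm_eq {κ : Type} [Field κ] [Algebra k κ] [FiniteDimensional k κ] [CharZero k]
    (h : Fintype.card (κ →ₐ[k] k') = Module.finrank k κ) (x : κ) :
    algebraMap k k' (Algebra.norm k x) = ∏ σ : κ →ₐ[k] k', σ x := by
  let ι := IsScalarTower.toAlgHom k k' (AlgebraicClosure k')
  refine ι.injective ((ι.commutes _).trans ?_)
  rw [Algebra.norm_eq_prod_embeddings]
  refine (Fintype.prod_bijective ι.comp ((Fintype.bijective_iff_injective_and_card _).2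
    ⟨fun a b e => AlgHom.ext fun y => ι.injective (DFunLike.congr_fun e y),
      h.trans (AlgHom.card _ _ _).symm⟩) _ _ fun _ => rfl).symm.trans (map_prod ι _ _).symm

omit [FiniteDimensional k k'] in
theorem dg_eq {O : Subring F'} (hO : Dvr O) (h : ∀ c : k, algebraMap k F' c ∈ O)
    (h' : ∀ c : k', algebraMap k' F' c ∈ O) : dgK k O = Module.finrank k k' * dgK k' O ∧
      (dgK k' O = 1 → ∀ u ∈ O, ∃ c : k', Nu O (u - algebraMap k' F' c)) := by
  have := (dvA hO).loc
  let _ := (emb k O h).toAlgebra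
  let _ := (emb k' O h').toAlgebra
  have : IsScalarTower k k' (ResidueField O) := .of_algebraMap_eq fun c =>
    congrArg (residue O) (Subtype.ext (IsScalarTower.algebraMap_apply k k' F' c))
  rw [dgK_eq k O h, dgK_eq k' O h']
  refine ⟨(Module.finrank_mul_finrank k k' _).symm, fun e u hu => ?_⟩
  obtain ⟨c, hc⟩ := (Algebra.finrank_eq_one_iff_bijective_algebraMap.1 e).2 (residue O ⟨u, hu⟩)
  exact ⟨c, (nu_iff (⟨u, hu⟩ - ⟨_, h' c⟩ : O)).2 ((residue_eq_zero_iff _).1
    ((map_sub _ _ _).trans (sub_eq_zero.2 hc.symm)))⟩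

end TSpl

open TSpl in
theorem tSpl : OfSpl := by
  intro hNb hFe hEf k F F' _ _ _ _ _ _ _ _ _ _ al fi fi' k' _ _ _ _ _ O h1 h2 hO hS
  classical
  have := (algebraMap k F).charZero
  have : Algebra.IsAlgebraic ℤ k := ⟨al⟩
  have N := hNb k F al fi
  have N1 := hNb k F' al fi'
  have N2 := hNb k' F' (Algebra.IsAlgebraic.trans ℤ k k').1 fi'
  have := (dvA hO.1).loc
  have h := N.mem O hO
  let _ := (emb k O h).toAlgebra
  have hd := dgK_eq k O h
  have : FiniteDimensional k (ResidueField O) := .of_finrank_pos (hd ▸ (N.con O hO).1)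
  have hc : Fintype.card (ResidueField O →ₐ[k] k') = Module.finrank k (ResidueField O) := by
    refine AlgHom.card_of_splits _ _ _ fun x => ?_
    obtain ⟨u, rfl⟩ := residue_surjective x
    obtain ⟨q, q1, q2, q3⟩ := hS u u.2
    refine q2.of_dvd (q1.map _).ne_zero (Polynomial.map_dvd _ (minpoly.dvd k _ ?_))
    have e : aeval (u : F) q = (q.eval₂ ((algebraMap k F).codRestrict O h) u : O) :=
      (hom_eval₂ q ((algebraMap k F).codRestrict O h) O.subtype u).symm
    exact (hom_eval₂ q _ (residue O) u).symm.trans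
      ((residue_eq_zero_iff _).2 ((nu_iff _).1 (e ▸ q3)))
  have pl : ∀ O' : Subring F', Ab O O' → Pl O' := fun O' a => ⟨a.1, fun n hn => by
    simpa using (a.2.ge (hO.2 n hn) : algebraMap F F' _ ∈ O')⟩
  have cst : ∀ O' : Subring F', Ab O O' → ∀ u (c c' : k'), Nu O' (u - algebraMap k' F' c) →
      Nu O' (u - algebraMap k' F' c') → c = c' := fun O' a u c c' e e' => by
    have := (dvA a.1).loc
    by_contra n
    exact (e'.sub e).not (by simpa using ((N2.con O' (pl O' a)).2 _ (sub_ne_zero.2 n)).1)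
  choose P p1 p2 using fun σ : ResidueField O →ₐ[k] k' => place h1 h2 hO.1 h
    (σ.toRingHom.comp (residue O)) σ.commutes fun z hz =>
      (congrArg σ ((residue_eq_zero_iff _).2 ((nu_iff z).1 hz))).trans (map_zero σ)
  have pi : Function.Injective P := fun σ σ' e => AlgHom.ext fun x => by
    obtain ⟨u, rfl⟩ := residue_surjective x
    exact cst _ (p1 σ) _ _ _ (p2 σ u) (e ▸ p2 σ' u)
  let T := (hFe F F' O hO.1).toFinset
  have hT : ∀ {O'}, Ab O O' ↔ O' ∈ T := (hFe F F' O hO.1).mem_toFinset.symm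
  have sub : Finset.univ.image P ⊆ T := Finset.image_subset_iff.2 fun σ _ => hT.1 (p1 σ)
  have key : ∀ π, ordR O π = 1 → Finset.univ.image P = T ∧
      ∀ O' ∈ T, ordR O' (algebraMap F F' π) * dgK k' O' = 1 := fun π hπ => by
    have e := hEf k F F' al fi fi' O π hO hπ
    rw [finsum_cond_eq_sum_of_cond_iff _ fun _ => hT, h1, Finset.sum_congr rfl fun O' a => by
      rw [(dg_eq (hT.2 a).1 (N1.mem _ (pl _ (hT.2 a))) (N2.mem _ (pl _ (hT.2 a)))).1, Nat.cast_mul,
        mul_left_comm], ← Finset.mul_sum,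
      mul_right_inj' (Nat.cast_ne_zero.2 Module.finrank_pos.ne'), hd, ← hc, ← Finset.card_univ,
      ← Finset.card_image_of_injective _ pi] at e
    have l : ∀ O' ∈ T, 1 ≤ ordR O' (algebraMap F F' π) * dgK k' O' := fun O' a => by
      have n : Nu O' (algebraMap F F' π) := (ZExA.nu_comap _ _ _).1
        ((hT.2 a).2.symm ▸ ((dvA hO.1).nu π).2 (.inr (by omega)))
      exact mul_pos ((((dvA (hT.2 a).1).nu _).1 n).resolve_left ((_root_.map_ne_zero _).2
        fun z => by simp [z, ordR] at hπ)) (Nat.cast_pos.2 (N2.con _ (pl _ (hT.2 a))).1)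
    have l' := Finset.sum_le_sum l
    rw [e, Finset.sum_const, nsmul_one, Nat.cast_le] at l'
    have t := Finset.eq_of_subset_of_card_le sub l'
    exact ⟨t, fun O' a => ((Finset.sum_eq_sum_iff_of_le l).1 (by simp [e, t]) O' a).symm⟩
  obtain ⟨π, -, hπ⟩ := (dvA hO.1).uni
  have rat : ∀ O' : Subring F', Ab O O' → Rat k' O' := fun O' a => ⟨pl O' a,
    (dg_eq a.1 (N1.mem _ (pl _ a)) (N2.mem _ (pl _ a))).2 (Nat.cast_eq_one.1
      (Int.eq_one_of_mul_eq_one_left (Nat.cast_nonneg _) ((key π hπ).2 O' (hT.1 a))))⟩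
  refine ⟨((zExB zDv).1 F F').2 O hO.1, fun O' a => ⟨rat O' a, fun π hπ => ?_⟩, fun u hu => ?_⟩
  · simpa [(N2.rat O' (rat O' a)).1] using (key π hπ).2 O' (hT.1 a)
  · rw [finprod_cond_eq_prod_of_cond_iff _ fun _ => hT, ← (key π hπ).1,
      Finset.prod_image pi.injOn, nmK_eq k O h, norm_eq hc]
    refine Finset.prod_congr rfl fun σ _ => cst _ (p1 σ) _ _ _ ?_
      ((N2.rat _ (rat _ (p1 σ))).2 _ ((ZExA.ut_comap _ _ _).1 ((p1 σ).2.symm ▸ hu)))
    rw [resR, dif_pos hu.2.1]
    exact p2 σ ⟨u, hu.2.1⟩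

end Pool.Agent.MP_f3836a_nt.GP
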