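import Pool.Agent.MP_f3836a_nt.GP.SpecT
import Pool.Agent.MP_f3836a_nt.PK.EBT

/-! Weil reciprocity. -/

set_option autoImplicit false

namespace Pool.Agent.MP_f3836a_nt.GP

open Polynomial IsLocalRing PK VE.W VE.Z IntermediateField

namespace TWeil

variable {k K : Type} [Field k] [Field K] [CharZero K] [Algebra k K] {μ : k → ℝ}

/-- what is used about the finite extensions -/
def Fx (K : Type) [Field K] : Prop :=
  ∀ (E : Type) [Field E] [CharZero E] [Algebra K E], FiniteDimensional K E → Fi E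

section
variable {E E' : Type} [Field E] [Field E'] [CharZero E] [CharZero E'] [Algebra k E]
  [Algebra k E'] [Algebra K E] [Algebra K E'] [IsScalarTower k K E] [IsScalarTower k K E']
  [FiniteDimensional K E]

omit [CharZero K] in
theorem cmp [FiniteDimensional K E'] (hC : CmpS) (ha : Al k) (hx : Fx K) (hμ : Adr μ)
    (φ : E →ₐ[K] E') {f g : E} (hf : f ≠ 0) (hg : g ≠ 0) :
    bt k μ (φ f) (φ g) / Module.finrank K E' = bt k μ f g / Module.finrank K E := by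
  let := φ.toRingHom.toAlgebra
  have : IsScalarTower K E E' := .of_algebraMap_eq fun c => (φ.commutes c).symm
  have : IsScalarTower k E E' := .of_algebraMap_eq fun c => by
    rw [IsScalarTower.algebraMap_apply k K E', IsScalarTower.algebraMap_apply k K E,
      ← IsScalarTower.algebraMap_apply K E E']
  have := Module.Finite.of_restrictScalars_finite K E E'
  have h : bt k μ (φ f) (φ g) = _ := hC k E E' ha (hx E ‹_›) (hx E' ‹_›) μ f g hμ hf hg
  rw [h, ← Module.finrank_mul_finrank K E E', Nat.cast_mul, mul_comm (Module.finrank K E : ℝ),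
    mul_div_mul_left _ _ (Nat.cast_ne_zero.2 Module.finrank_pos.ne')]

variable (μ) in
/-- the normalised symbol on the algebraic closure -/
noncomputable def be (f g : AlgebraicClosure K) : ℝ :=
  bt k μ (⟨f, subset_adjoin K _ (.inl rfl)⟩ : K⟮f, g⟯) ⟨g, subset_adjoin K _ (.inr rfl)⟩ /
    Module.finrank K K⟮f, g⟯

theorem be_eq (hC : CmpS) (ha : Al k) (hx : Fx K) (hμ : Adr μ) (φ : E →ₐ[K] AlgebraicClosure K)
    {f g : E} (hf : f ≠ 0) (hg : g ≠ 0) :
    be μ (φ f) (φ g) = bt k μ f g / Module.finrank K E := by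
  have := finiteDimensional_adjoin_pair (K := K) (Algebra.IsIntegral.isIntegral (φ f))
    (Algebra.IsIntegral.isIntegral (φ g))
  have h : K⟮φ f, φ g⟯ ≤ φ.fieldRange := adjoin_le_iff.2 (Set.pair_subset ⟨f, rfl⟩ ⟨g, rfl⟩)
  let ψ : K⟮φ f, φ g⟯ →ₐ[K] E := (AlgEquiv.ofInjectiveField φ).symm.toAlgHom.comp (inclusion h)
  have e : ∀ a b, ψ ⟨φ a, b⟩ = a := fun a _ => (AlgEquiv.ofInjectiveField φ).symm_apply_apply a
  rw [be, ← cmp hC ha hx hμ ψ (fun h => hf ((map_eq_zero φ).1 (congrArg Subtype.val h)))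
    fun h => hg ((map_eq_zero φ).1 (congrArg Subtype.val h)), e, e]

theorem main (hB : BtS) (hC : CmpS) (ha : Al k) (hx : Fx K) (hμ : Adr μ)
    (h0 : ∀ f g : K, f ≠ 0 → g ≠ 0 → bt k μ f g = 0) {f g : E} (hf : f ≠ 0) (hg : g ≠ 0) :
    bt k μ f g = 0 := by
  have ex : ∀ a b c : AlgebraicClosure K, ∃ (L : IntermediateField K (AlgebraicClosure K))
      (_ : FiniteDimensional K L) (a' b' c' : L), L.val a' = a ∧ L.val b' = b ∧ L.val c' = c :=
    fun a b c => ⟨K⟮a, b, c⟯, finiteDimensional_adjoin fun _ _ => Algebra.IsIntegral.isIntegral _,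
      ⟨a, subset_adjoin K _ (by simp)⟩, ⟨b, subset_adjoin K _ (by simp)⟩,
      ⟨c, subset_adjoin K _ (by simp)⟩, rfl, rfl, rfl⟩
  let φ : E →ₐ[K] AlgebraicClosure K := IsAlgClosed.lift
  have h := (Module.forall_dual_apply_eq_zero_iff ℚ (be μ (φ f) (φ g))).1 fun l =>
    rBT K _ (fun a b => l (be μ a b)) (fun a b c h1 h2 h3 => ?_) (fun a b h1 h2 => ?_)
      (fun a h1 h2 => ?_) (fun σ a b h1 h2 => ?_) (fun a b h1 h2 => ?_) _ _
      ((map_ne_zero φ).2 hf) ((map_ne_zero φ).2 hg)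
  · rw [be_eq hC ha hx hμ φ hf hg] at h
    exact (div_eq_zero_iff.1 h).resolve_right (Nat.cast_ne_zero.2 Module.finrank_pos.ne')
  · obtain ⟨L, _, a, b, c, rfl, rfl, rfl⟩ := ex a b c
    rw [_root_.map_ne_zero] at h1 h2 h3
    rw [← map_mul, be_eq hC ha hx hμ _ (mul_ne_zero h1 h2) h3, be_eq hC ha hx hμ _ h1 h3,
      be_eq hC ha hx hμ _ h2 h3, (hB k L μ ha (hx L ‹_›) hμ).1 _ _ _ h1 h2 h3, add_div, map_add]
  · obtain ⟨L, _, a, b, -, rfl, rfl, -⟩ := ex a b 0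
    rw [_root_.map_ne_zero] at h1 h2
    rw [be_eq hC ha hx hμ _ h1 h2, be_eq hC ha hx hμ _ h2 h1,
      (hB k L μ ha (hx L ‹_›) hμ).2.1 _ _ h1 h2, neg_div, map_neg]
  · obtain ⟨L, _, a, -, -, rfl, -⟩ := ex a 0 0
    rw [_root_.map_ne_zero] at h1
    have h3 : a ≠ 1 := fun e => h2 (by rw [e, map_one])
    rw [← map_one L.val, ← map_sub, be_eq hC ha hx hμ _ h1 (sub_ne_zero.2 h3.symm),
      (hB k L μ ha (hx L ‹_›) hμ).2.2.1 _ h1 h3, zero_div, map_zero]
  · obtain ⟨L, _, a, b, -, rfl, rfl, -⟩ := ex a b 0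
    rw [_root_.map_ne_zero] at h1 h2
    exact congrArg l ((be_eq hC ha hx hμ (σ.toAlgHom.comp L.val) h1 h2).trans
      (be_eq hC ha hx hμ _ h1 h2).symm)
  · exact (congrArg l (be_eq hC ha hx hμ (Algebra.ofId K _) h1 h2)).trans (by
      rw [h0 a b h1 h2, zero_div, map_zero])

end

end TWeil

theorem tWeil : OfWeil := by
  intro hF hI hB hC hP k F _ _ _ _ _ ⟨t, ht, hd⟩ μ f g hμ hf hg
  have ha : Al k := fun c =>
    (IsFractionRing.isAlgebraic_iff ℤ ℚ k).2 (Algebra.IsAlgebraic.isAlgebraic c)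
  have : Algebra.IsAlgebraic ℤ k := ⟨ha⟩
  have h1 : Transcendental k t := ht.extendScalars k
  have h2 : ℚ⟮t⟯ ≤ k⟮t⟯.restrictScalars ℚ := adjoin_simple_le_iff.2 (mem_adjoin_simple_self k t)
  let : Algebra ℚ⟮t⟯ k⟮t⟯ := (inclusion h2).toRingHom.toAlgebra
  have : IsScalarTower ℚ⟮t⟯ k⟮t⟯ F := .of_algebraMap_eq' rfl
  have := Module.Finite.of_restrictScalars_finite ℚ⟮t⟯ k⟮t⟯ F
  have h3 : Transcendental k (AdjoinSimple.gen k t) := fun h => h1 (isAlgebraic_iff.1 h)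
  have h4 : k⟮AdjoinSimple.gen k t⟯ = ⊤ := lift_injective _ (by
    rw [lift_adjoin_simple, lift_top, AdjoinSimple.coe_gen])
  have h5 : FG k⟮t⟯ := (hF _).2.2 k _ inferInstance h3 (.of_surjective (Algebra.linearMap _ _)
    fun z => ⟨⟨z, h4 ▸ mem_top⟩, rfl⟩)
  exact TWeil.main hB hC ha (fun E _ _ _ h => hI E (((hF _).2.1 h5).2 E h)) hμ
    (fun a b => hP k _ _ ha (hI _ h5) h3 h4 μ a b hμ) hf hg

end Pool.Agent.MP_f3836a_nt.GP
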