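import Pool.Agent.MP_f3836a_nt.GP.GBy
import Pool.Agent.MP_f3836a_nt.GP.GCrt
import Pool.Agent.MP_f3836a_nt.GP.GDim
import Pool.Agent.MP_f3836a_nt.GP.GDu
import Pool.Agent.MP_f3836a_nt.GP.GF2
import Pool.Agent.MP_f3836a_nt.GP.GFinal
import Pool.Agent.MP_f3836a_nt.GP.GLl
import Pool.Agent.MP_f3836a_nt.GP.GMain
import Pool.Agent.MP_f3836a_nt.GP.GMainG
import Pool.Agent.MP_f3836a_nt.GP.GMid
import Pool.Agent.MP_f3836a_nt.GP.GPw
import Pool.Agent.MP_f3836a_nt.GP.GSec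
import Pool.Agent.MP_f3836a_nt.GP.GSf
import Pool.Agent.MP_f3836a_nt.GP.GSr
import Pool.Agent.MP_f3836a_nt.GP.GSw
import Pool.Agent.MP_f3836a_nt.GP.GTop
import Pool.Agent.MP_f3836a_nt.GP.GTop1
import Pool.Agent.MP_f3836a_nt.GP.GVal
import Pool.Agent.MP_f3836a_nt.GP.GdA
import Pool.Agent.MP_f3836a_nt.GP.TAp
import Pool.Agent.MP_f3836a_nt.GP.TBc
import Pool.Agent.MP_f3836a_nt.GP.TBt
import Pool.Agent.MP_f3836a_nt.GP.TEf
import Pool.Agent.MP_f3836a_nt.GP.TFf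
import Pool.Agent.MP_f3836a_nt.GP.TFin
import Pool.Agent.MP_f3836a_nt.GP.TKer
import Pool.Agent.MP_f3836a_nt.GP.TLift
import Pool.Agent.MP_f3836a_nt.GP.TNb
import Pool.Agent.MP_f3836a_nt.GP.TNm
import Pool.Agent.MP_f3836a_nt.GP.TNmK
import Pool.Agent.MP_f3836a_nt.GP.TNx
import Pool.Agent.MP_f3836a_nt.GP.TP0
import Pool.Agent.MP_f3836a_nt.GP.TSpl
import Pool.Agent.MP_f3836a_nt.GP.TWeil

/-! Everything which follows from the engine. -/

set_option autoImplicit false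

namespace Pool.Agent.MP_f3836a_nt.GP

theorem weilS : WeilS := tWeil tFf tFin (tBt tNb) (tCmp tNb tFe (tEf tNb) (tNx tNb))
  (tP1 tNb (tBt tNb) (tP0 tNb))

theorem nmK_of (h : EngS) : NmK := tNmK tFin tNb weilS
  (tKer tFf tFin tNb tFe tBc (tSpl tNb tFe (tEf tNb)) (tLift tFe) h)

theorem finalV_of (h : EngS) : FinalV := tFinalV tFf tFin (nmK_of h)

theorem midS : MidS := gMid gPw (gBy gPw) (gSr (gSec gVal) (gFex gPw)) (gLl gPw) gSw
  (gVt gPw (gFex gPw))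

theorem finalG_of (h : EngS) : FinalG := gFinal gDim gGlu (gMainG (tNm tFf tFin (nmK_of h))
  (gSf gVal gCrt gF2 (gGd gdA gdB))
  (gMainK gDu (gTop gNu (gTop1 (gSec gVal) midS) gTop2) (gGv (gSec gVal))) (gInj gNu))

end Pool.Agent.MP_f3836a_nt.GP
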