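import Pool.Agent.MP_f3836a_nt.GP.Spec
import Pool.Agent.MP_f3836a_nt.VE.WAll2
import Pool.Agent.MP_f3836a_nt.VE.ZRg
import Pool.Agent.MP_f3836a_nt.VE.ZCy
import Pool.Agent.MP_f3836a_nt.VE.ZDv
import Pool.Agent.MP_f3836a_nt.VE.ZLg1
import Pool.Agent.MP_f3836a_nt.VE.ZMe
import Pool.Agent.MP_f3836a_nt.VE.ZPsi
import Pool.Agent.MP_f3836a_nt.VE.ZAllT

/-! Part GP: small common facts. -/

set_option autoImplicit false

namespace Pool.Agent.MP_f3836a_nt.GP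

open Polynomial IsLocalRing PK VE.W VE.Z

theorem rgS : RgS := zRg wLc odS regS kbS zDv
theorem cyS : CyS := zCy wLc odS regS keyU zDv rgS

variable {K : Type} [Field K] {D O V : Subring K} {l : K → ℝ} {u u' f g : K} {M : ℕ}
  {P C : Set (Subring K)}

theorem dvA (h : Dvr O) : DvA O := zDv K O h
theorem rgA (h : Rg D) : RgA D := rgS K D h
theorem cyA (h : Rg D) : CyA D := cyS K D h

theorem not_dvr (h : Rg D) : ¬Dvr D := fun h' => by
  obtain ⟨q, hq, q0, q1⟩ := h.cur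
  have := h'.dvr
  exact q1 (IsPrime.to_maximal_ideal q0)

theorem ne_top (h : Rg D) : D ≠ ⊤ := fun e => by
  obtain ⟨q, hq, q0, q1⟩ := h.cur
  have k := (rgA h).dvr _ ⟨q, hq, q0, q1, rfl⟩
  exact (dvA k.1).ne (top_le_iff.1 (e ▸ k.2.1))

theorem dvr_eq (h : Dvr O) (h' : Dvr V) (e : O ≤ V) : O = V :=
  (((dvA h).max V e).resolve_right (dvA h').ne).symm

theorem not_le (h : Dvr O) (h' : Rg D) : ¬O ≤ D := fun e =>
  ((dvA h).max D e).elim (fun k => not_dvr h' (k ▸ h)) (ne_top h')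

theorem nu_down (e : D ≤ O) (hu : u ∈ D) (h : Nu O u) : Nu D u :=
  (nu_or hu).resolve_right fun k => h.not (k.mono e)

theorem ut_of_nu [IsLocalRing O] (hu : Ut O u) (h : Nu O (u' - u)) : Ut O u' := by
  simpa using hu.add h

theorem Fn.one (h : Fn O l) : l 1 = 0 := by
  have := h.mul 1 1 ut_one ut_one
  rw [mul_one] at this
  linarith

theorem Fn.inv (h : Fn O l) (hu : Ut O u) : l u⁻¹ = -l u := by
  have := h.mul _ _ hu hu.inv
  rw [mul_inv_cancel₀ hu.1, h.one] at this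
  linarith

theorem Fn.div (h : Fn O l) (hu : Ut O u) (hu' : Ut O u') : l (u / u') = l u - l u' := by
  rw [div_eq_mul_inv, h.mul _ _ hu hu'.inv, h.inv hu', sub_eq_add_neg]

theorem Fn.pow (h : Fn O l) (hu : Ut O u) (n : ℕ) : l (u ^ n) = n * l u := by
  induction n with
  | zero => simp [h.one]
  | succ n ih => rw [pow_succ, h.mul _ _ (hu.pow n) hu, ih]; push_cast; ring

theorem Fn.zpow (h : Fn O l) (hu : Ut O u) (n : ℤ) : l (u ^ n) = n * l u := by
  obtain ⟨m, rfl | rfl⟩ := n.eq_nat_or_neg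
  · rw [zpow_natCast, h.pow hu, Int.cast_natCast]
  · rw [zpow_neg, zpow_natCast, h.inv (hu.pow m), h.pow hu]; push_cast; ring

theorem Fn.nu (h : Fn O l) (hu : Ut O u) (e : Nu O (u - 1)) : l u = 0 :=
  (h.cg _ _ hu ut_one e).trans h.one

theorem Fn.tor (h : Fn O l) (hu : Ut O u) (e : Tor O u) : l u = 0 := by
  obtain ⟨j, hj, e⟩ := e
  have := h.nu (hu.pow j) e
  rw [h.pow hu] at this
  exact (mul_eq_zero.1 this).resolve_left (Nat.cast_ne_zero.2 hj.ne')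

theorem Fn.sub {l' : K → ℝ} (h : Fn O l) (h' : Fn O l') : Fn O fun u => l u - l' u :=
  ⟨fun u u' a b => by rw [h.mul u u' a b, h'.mul u u' a b]; ring,
    fun u u' a b c => by rw [h.cg u u' a b c, h'.cg u u' a b c]⟩

theorem uc_of (h : Ut D u) : Uc O D u := ⟨u, h, by rw [sub_self]; exact nu_zero⟩

theorem Uc.ut [IsLocalRing O] (e : D ≤ O) (h : Uc O D u) : Ut O u :=
  let ⟨_, a, b⟩ := h
  ut_of_nu (a.mono e) b

theorem Uc.cg [IsLocalRing O] (h : Uc O D u) (e : Nu O (u' - u)) : Uc O D u' :=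
  h.imp fun w k => ⟨k.1, by simpa using e.add k.2⟩

theorem Uc.mul [IsLocalRing O] (e : D ≤ O) (h : Uc O D u) (h' : Uc O D u') : Uc O D (u * u') := by
  have k := (h'.ut e).2.1
  obtain ⟨w, a, b⟩ := h
  obtain ⟨w', a', b'⟩ := h'
  refine ⟨w * w', a.mul a', ?_⟩
  convert (b.mul k).add (b'.mul (e a.2.1)) using 1
  ring

theorem Uc.inv [IsLocalRing O] (e : D ≤ O) (h : Uc O D u) : Uc O D u⁻¹ := by
  have k := h.ut e
  obtain ⟨w, a, b⟩ := h
  refine ⟨w⁻¹, a.inv, ?_⟩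
  convert (b.mul (O.mul_mem k.2.2 (e a.2.2))).neg using 1
  have := k.1
  have := a.1
  field_simp
  ring

theorem Uc.ok (h : Rg D) (hO : H1 D O) (k : Uc O D u) : oK O D u = 0 := by
  have R := rgA h
  have := (dvA (R.dvr O hO).1).loc
  have e := (R.dvr O hO).2.1
  have hu := k.ut e
  obtain ⟨w, a, b⟩ := k
  rw [R.cg O hO _ hu.2.1 _ (e a.2.1) b]
  exact (R.pos O hO w a.2.1 (a.mono e)).2.2 a

/-- purity -/
theorem mem_of (h : Rg D) (k : ∀ O, H1 D O → f ∈ O) : f ∈ D := by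
  by_cases f0 : f = 0
  · exact f0 ▸ D.zero_mem
  have R := rgA h
  obtain ⟨a, b, c, e⟩ := ZMe.exists_cp zDv h R f0
  have u : Ut D b := (nu_or c.gm).resolve_left fun n => by
    obtain ⟨O, o, n'⟩ := R.ex b n c.g0
    exact (e ▸ n'.mul (k O o)).not ((c.ut O o).resolve_right n'.not)
  rw [eq_div_of_mul_eq u.1 e, div_eq_mul_inv]
  exact D.mul_mem c.fm u.2.2

theorem ut_of (h : Rg D) (f0 : f ≠ 0) (k : ∀ O, H1 D O → ordR O f = 0) : Ut D f :=
  have a : ∀ O, H1 D O → Ut O f := fun O o => ((dvA ((rgA h).dvr O o).1).ut f).2 ⟨f0, k O o⟩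
  ⟨f0, mem_of h fun O o => (a O o).2.1, mem_of h fun O o => (a O o).2.2⟩

theorem int_mem (h : Dvr O) (k : IsIntegral ℤ u) : u ∈ O := by
  obtain ⟨q, a, b⟩ := k
  exact (dvA h).int u (q.map (algebraMap ℤ O)) (a.map _) (by rw [aeval_map_algebraMap]; exact b)

theorem int_ut (h : Dvr O) (u0 : u ≠ 0) (k : IsIntegral ℤ u) (k' : IsIntegral ℤ u⁻¹) : Ut O u :=
  ⟨u0, int_mem h k, int_mem h k'⟩

theorem int_ut' (h : Rg D) (u0 : u ≠ 0) (k : IsIntegral ℤ u) (k' : IsIntegral ℤ u⁻¹) : Ut D u :=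
  ⟨u0, mem_of h fun O o => int_mem ((rgA h).dvr O o).1 k,
    mem_of h fun O o => int_mem ((rgA h).dvr O o).1 k'⟩

theorem ex_nu (h : ¬Ho V) : ∃ p : ℕ, p.Prime ∧ Nu V p := ZAllT.exists_nu h

theorem ho_ut [CharZero K] (h : Ho O) {n : ℕ} (hn : n ≠ 0) : Ut O n :=
  ⟨Nat.cast_ne_zero.2 hn, natCast_mem O n, h n hn⟩

theorem nu_dvd {p n : ℕ} (h : Nu O p) (e : p ∣ n) : Nu O n := by
  obtain ⟨c, rfl⟩ := e
  rw [Nat.cast_mul, mul_comm]
  exact h.mul (natCast_mem O c)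

theorem not_cop [IsLocalRing O] {p n : ℕ} (h : Nu O p) (h' : Nu O n) : ¬p.Coprime n := fun e => by
  obtain ⟨a, b, e⟩ := Nat.isCoprime_iff_coprime.2 e
  have e' : (a : K) * p + b * n = 1 := by exact_mod_cast congrArg (Int.cast : ℤ → K) e
  exact (e' ▸ (h.mul (intCast_mem O a)).add (h'.mul (intCast_mem O b))).not ut_one

theorem dvd_of_nu [IsLocalRing O] {p n : ℕ} (hp : p.Prime) (h : Nu O p) (h' : Nu O n) : p ∣ n :=
  by_contra fun e => not_cop h h' (hp.coprime_iff_not_dvd.2 e)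

theorem rg_nu [CharZero K] (h : Rg D) : ∃ p : ℕ, p.Prime ∧ Nu D p :=
  ex_nu fun k => ZPsi.not_ho ⟨le_rfl, fun _ e => e⟩ h.alg k

theorem tame_ut (h : Dvr O) (f0 : f ≠ 0) (g0 : g ≠ 0) : Ut O (tameE O f g) := by
  simpa [bdE] using ((dvA h).bd [(f, g)] (by simp [NZ, f0, g0])).1

theorem tame_l (h : ordR O f = 0) : tameE O f g = f ^ ordR O g := by simp [tameE, h]

theorem tame_r (h : ordR O g = 0) : tameE O f g = g ^ (-ordR O f) := by simp [tameE, h]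

namespace Sf

variable (S : Sf P C)

include S

theorem cm {D O : Subring K} (hD : D ∈ P) (hM : Nu D M) (h : H1 D O) : Cm C M O := by
  have := (S.rg D hD).loc
  obtain ⟨a, b⟩ := (S.cur D hD O).1 h
  refine ⟨a, or_iff_not_imp_left.2 fun k => ?_⟩
  obtain ⟨p, hp, e⟩ := ex_nu k
  exact nu_dvd e (dvd_of_nu hp (nu_down b (natCast_mem D p) e) hM)

theorem pl {O : Subring K} : Pl O ↔ O ∈ C ∧ Ho O :=
  ⟨fun h => ⟨S.hor O h, h.2⟩, fun h => ⟨S.dv O h.1, h.2⟩⟩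

theorem fin_ov [CharZero K] (hM : M ≠ 0) {O : Subring K} (h : O ∈ C) (ho : Ho O) :
    {D | Ov P M O D}.Finite :=
  (S.fin2 O h M (ho_ut ho hM)).subset fun _ k => ⟨k.1, k.2.1, k.2.2.not⟩

theorem fin_vv [CharZero K] (hM : M ≠ 0) : {V | V ∈ C ∧ Nu V M}.Finite :=
  (S.fin M).subset fun V k => ⟨k.1, ((((dvA (S.dv V k.1)).nu _).1 k.2).resolve_left
    (Nat.cast_ne_zero.2 hM)).ne'⟩

theorem cy_bd {l : List (K × K)} (h : NZ l) : Cy P C (bdE l) :=
  ⟨fun O o => ((dvA o).bd l h).1,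
    (l.finite_toSet.biUnion fun s _ => (S.fin s.1).union (S.fin s.2)).subset fun O o => by
      by_contra e
      simp only [Set.mem_union, Set.mem_iUnion, Set.mem_ofPred_eq, not_or, not_exists, not_and,
        not_not] at e
      exact o.2 (by
        rw [(dvA (S.dv O o.1)).one l fun s hs => ⟨(e s hs).1 o.1, (e s hs).2 o.1⟩, sub_self]
        exact nu_zero),
    fun D hD => (cyA (S.rg D hD)).key l h⟩

theorem cy_tame (f0 : f ≠ 0) (g0 : g ≠ 0) : Cy P C fun O => tameE O f g := by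
  convert S.cy_bd (l := [(f, g)]) (by simp [NZ, f0, g0]) using 2
  simp [bdE]

/-- finite support of a family of additive functions on a cycle -/
theorem fin_fn {ψ : Subring K → K} (h : Cy P C ψ) {c : Subring K → Prop}
    {lam : Subring K → K → ℝ} (hc : ∀ O, c O → O ∈ C ∧ Fn O (lam O)) :
    ({O | c O} ∩ Function.support fun O => lam O (ψ O)).Finite :=
  h.fin.subset fun O o => ⟨(hc O o.1).1, fun e =>
    o.2 ((hc O o.1).2.nu (h.us O (S.dv O (hc O o.1).1)) e)⟩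

end Sf

end Pool.Agent.MP_f3836a_nt.GP
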