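import Pool.Agent.MP_f3836a_nt.PK.DefsT

set_option autoImplicit false

namespace Pool.Agent.MP_f3836a_nt.GP

open IsLocalRing

/-- A place of `F` over `k`: a proper valuation ring containing `k`. -/
@[ext] structure Place (k F : Type) [Field k] [Field F] [Algebra k F] where
  V : ValuationSubring F
  ne : V ≠ ⊤
  const : ∀ c : k, algebraMap k F c ∈ V

variable {k F : Type} [Field k] [Field F] [Algebra k F]

/-- The map from `k` to the residue field. -/
noncomputable def Place.emb (P : Place k F) : k →+* ResidueField P.V :=
  (residue P.V).comp ((algebraMap k F).codRestrict P.V P.const)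

/-- The norm from the residue field to `k`. -/
noncomputable def Place.nm (P : Place k F) (a : ResidueField P.V) : k :=
  letI := P.emb.toAlgebra
  Algebra.norm k a

end Pool.Agent.MP_f3836a_nt.GP
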