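import Pool.Agent.MP_f3836a_nt.GP.Base

/-! Part GP: decomposition into local terms. -/

set_option autoImplicit false

namespace Pool.Agent.MP_f3836a_nt.GP

open Polynomial IsLocalRing PK VE.W VE.Z

namespace GBy

variable {K : Type} [Field K] {P C : Set (Subring K)} {M : ℕ} {O D : Subring K} {u u' v v' : K}
  {l : K → ℝ}

/-- `v` looks like `u` at `D` and like a unit at the other points -/
def Loc (P : Set (Subring K)) (M : ℕ) (O D : Subring K) (u v : K) : Prop :=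
  Ut O v ∧ Uc O D (v / u) ∧ ∀ D', Ov P M O D' → D' ≠ D → Uc O D' v

theorem Loc.mul [IsLocalRing O] (e : D ≤ O) (h : Loc P M O D u v) (h' : Loc P M O D u' v') :
    Loc P M O D (u * u') (v * v') :=
  ⟨h.1.mul h'.1, mul_div_mul_comm v v' u u' ▸ h.2.1.mul e h'.2.1,
    fun D' a b => (h.2.2 D' a b).mul a.2.1 (h'.2.2 D' a b)⟩

theorem Loc.inv [IsLocalRing O] (e : D ≤ O) (h : Loc P M O D u v) : Loc P M O D u⁻¹ v⁻¹ :=
  ⟨h.1.inv, by rw [inv_div_inv, ← inv_div]; exact h.2.1.inv e,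
    fun D' a b => (h.2.2 D' a b).inv a.2.1⟩

theorem ex1 [CharZero K] (hP : PwS) (S : Sf P C) (hM : M ≠ 0) (hO : O ∈ C) (ho : Ho O)
    (hD : Ov P M O D) (hu : u ∈ D) (hu' : Ut O u) : ∃ v, Loc P M O D u v := by
  classical
  obtain ⟨N, hN⟩ := ((hP K D).2.2.2.2 (S.rg D hD.1)).2 O u ((S.cur D hD.1 O).2 ⟨hO, hD.2.1⟩) hu hu'
  have hT := fun D' => (S.fin_ov hM hO ho).mem_toFinset (a := D')
  obtain ⟨w, hw⟩ := S.crt (S.fin_ov hM hO ho).toFinset (fun D' h => .inl ((hT D').1 h).1)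
    (fun A a B b => S.anti A ((hT A).1 a).1 B ((hT B).1 b).1) (fun D' => if D' = D then u else 1)
    (N + 1) fun D' _ => by
      split_ifs with h
      exacts [h ▸ hu, D'.one_mem]
  have h1 := (hw D ((hT D).2 hD)).2
  rw [if_pos rfl] at h1
  obtain ⟨a, b⟩ := hN w ((hP K D).2.1 _ _ _ (Nat.le_succ N) h1)
  refine ⟨w, a, b, fun D' h h' => uc_of ?_⟩
  have h2 := (hw D' ((hT D').2 h)).2
  rw [if_neg h'] at h2
  have := (S.rg D' h.1).loc
  exact ut_of_nu ut_one ((hP K D').2.2.1 this _ _ (Nat.succ_pos N) h2)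

theorem ex [CharZero K] (hP : PwS) (S : Sf P C) (hM : M ≠ 0) (hO : O ∈ C) (ho : Ho O)
    (hD : Ov P M O D) (hu : Ut O u) : ∃ v, Loc P M O D u v := by
  have := (dvA (S.dv O hO)).loc
  obtain ⟨a, ha, b, hb, b1, e⟩ := (rgA (S.rg D hD.1)).frac O ((S.cur D hD.1 O).2 ⟨hO, hD.2.1⟩) u
    hu.2.1
  obtain ⟨a', h1⟩ := ex1 hP S hM hO ho hD ha (e ▸ hu.mul b1)
  obtain ⟨b', h2⟩ := ex1 hP S hM hO ho hD hb b1
  have := h1.mul hD.2.1 (h2.inv hD.2.1)
  rw [← e, mul_inv_cancel_right₀ b1.1] at this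
  exact ⟨_, this⟩

theorem Loc.eq [IsLocalRing O] (hl : Fn O l)
    (hk : ∀ u, Ut O u → (∀ D, Ov P M O D → Uc O D u) → l u = 0) (e : D ≤ O)
    (h : Loc P M O D u v) (h' : Loc P M O D u' v') (k : Uc O D (u / u')) : l v = l v' := by
  have h1 := h.mul e (h'.inv e)
  rw [← sub_eq_zero, ← hl.div h.1 h'.1, div_eq_mul_inv]
  refine hk _ h1.1 fun D' a => ?_
  by_cases b : D' = D
  · have h2 := h1.2.1.mul e k
    rwa [← div_eq_mul_inv u, div_mul_cancel₀ _ (k.ut e).1, ← b] at h2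
  · exact h1.2.2 D' a b

theorem fn_prod (hl : Fn O l) {ι : Type} (T : Finset ι) (f : ι → K) (h : ∀ i ∈ T, Ut O (f i)) :
    Ut O (∏ i ∈ T, f i) ∧ l (∏ i ∈ T, f i) = ∑ i ∈ T, l (f i) := by
  induction T using Finset.cons_induction with
  | empty => exact ⟨ut_one, hl.one⟩
  | cons i T hi ih =>
    obtain ⟨a, b⟩ := ih fun j hj => h j (Finset.mem_cons_of_mem hj)
    have c := h i (Finset.mem_cons_self _ _)
    rw [Finset.prod_cons, Finset.sum_cons, hl.mul _ _ c a, b]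
    exact ⟨c.mul a, rfl⟩

end GBy

open GBy in
theorem gBy : OfBy := by
  classical
  intro hP K _ _ P C M S hM lam hf hk
  have sp : ∀ {O D u}, O ∈ C → Ho O → Ov P M O D → Ut O u →
      Loc P M O D u (Classical.epsilon (Loc P M O D u)) := fun a b c d =>
    Classical.epsilon_spec (ex hP S hM a b c d)
  refine ⟨fun D O u => lam O (Classical.epsilon (Loc P M O D u)), fun O D a b c => ?_,
    fun O D u a b c d e => ?_, fun O u a b d => ?_⟩ <;> have := (dvA (S.dv O a)).loc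
  · refine ⟨fun u u' d d' => ?_, fun u u' d d' e => Loc.eq (hf O a b) (hk O a b) c.2.1
      (sp a b c d) (sp a b c d') ⟨1, ut_one, ?_⟩⟩
    · rw [← (hf O a b).mul _ _ (sp a b c d).1 (sp a b c d').1]
      exact Loc.eq (hf O a b) (hk O a b) c.2.1 (sp a b c (d.mul d'))
        ((sp a b c d).mul c.2.1 (sp a b c d')) (uc_of (div_self (d.mul d').1 ▸ ut_one))
    · rw [div_sub_one d'.1, div_eq_inv_mul]
      exact e.mul d'.2.2
  · exact (Loc.eq (hf O a b) (hk O a b) c.2.1 (sp a b c d) (u' := 1) (v' := 1)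
      ⟨ut_one, uc_of (by simpa using ut_one), fun _ _ _ => uc_of ut_one⟩
      (by simpa using e)).trans (hf O a b).one
  · have hT := fun D' => (S.fin_ov hM a b).mem_toFinset (a := D')
    obtain ⟨h1, h2⟩ := fn_prod (hf O a b) (S.fin_ov hM a b).toFinset
      (fun D => Classical.epsilon (Loc P M O D u)) fun D h => (sp a b ((hT D).1 h) d).1
    refine Eq.trans ?_ (finsum_mem_eq_finite_toFinset_sum _ (S.fin_ov hM a b)).symm
    rw [← h2, eq_comm, ← sub_eq_zero, ← (hf O a b).div h1 d]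
    refine hk O a b _ (h1.div d) fun D c => ?_
    rw [← Finset.prod_erase_mul _ _ ((hT D).2 c), mul_div_assoc]
    refine Uc.mul c.2.1 (Finset.prod_induction _ _ (fun _ _ => Uc.mul c.2.1) (uc_of ut_one)
      fun D' h => ?_) (sp a b c d).2.1
    exact (sp a b ((hT D').1 (Finset.mem_of_mem_erase h)) d).2.2 D c (Finset.ne_of_mem_erase h).symm

end Pool.Agent.MP_f3836a_nt.GP
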