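import Pool.Agent.MP_f3836a_nt.GP.Base

/-! Part GP: points on curves, sections and vertical cycles over good primes. -/

set_option autoImplicit false

namespace Pool.Agent.MP_f3836a_nt.GP

open Polynomial IsLocalRing PK VE.W VE.Z

namespace GSec

variable {K : Type} [Field K] {P C : Set (Subring K)} {V W D : Subring K} {a : K}

theorem uc_mem (hv : ValS) (hV : Dvr V) (hW : Vr W) (e : W ≤ V) (d : D ≤ W) (h : Uc V D a) :
    a ∈ W := by
  obtain ⟨w, u, n⟩ := h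
  simpa using W.add_mem (((hv K V hV).1 W hW e).2 _ n) (d u.2.1)

theorem ex_pt (hv : ValS) (S : Sf P C) (hV : V ∈ C) (ho : ¬Ho V) (u : Ut V a) (t : ¬Tor V a) :
    ∃ D ∈ P, D ≤ V ∧ a ∉ D := by
  obtain ⟨p, hp, n⟩ := ex_nu ho
  have H := hv K V (S.dv V hV)
  by_contra k
  refine t (H.2.2.2 p a hp n u (H.2.1 a u.2.1 fun W hW e => by_contra fun m => ?_))
  obtain ⟨D, hD, d⟩ := S.cen V hV W hW e fun q => m (q ▸ u.2.1)
  exact k ⟨D, hD, d.1.trans e, fun q => m (d.1 q)⟩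

theorem sec3 [CharZero K] (hv : ValS) (S : Sf P C) {M : ℕ} (hV : V ∈ C) (ho : Ho V) (u : a ∈ V)
    (h : ∀ D, Ov P M V D → Uc V D a) :
    ∃ n : ℕ, n ≠ 0 ∧ n.Coprime M ∧ ∀ m : ℕ, n ∣ m → Itg V (m * a) := by
  refine (hv K V (S.dv V hV)).2.2.1 M a u ho fun W hW e k => by_contra fun m => ?_
  obtain ⟨D, hD, d⟩ := S.cen V hV W hW e fun q => m (q ▸ u)
  obtain ⟨p, hp, n⟩ := rg_nu (S.rg D hD)
  refine m (uc_mem hv (S.dv V hV) hW e d.1 (h D ⟨hD, d.1.trans e, nu_dvd n (by_contra fun q => ?_)⟩))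
  exact (d.2 _ n).not ⟨Nat.cast_ne_zero.2 hp.ne_zero, natCast_mem W p,
    k p (hp.coprime_iff_not_dvd.2 q)⟩

end GSec

open GSec

theorem gSec : OfSec := by
  intro hv K _ _ P C M S _
  refine ⟨fun V hV ho D hD => ?_, fun V hV ho u hu h => ?_, fun O hO ho u hu h => ?_⟩
  · by_cases e : D ≤ V
    · have R := S.rg D hD
      have := R.loc
      have k := ((rgA R).dvr V ((S.cur D hD V).2 ⟨hV, e⟩)).2.2
      obtain ⟨a, n, u⟩ : ∃ a, Nu D a ∧ ¬Nu V a := by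
        by_contra q
        exact k ⟨e, fun a n => by_contra fun u => q ⟨a, n, u⟩⟩
      obtain ⟨D', h1, h2, h3⟩ := ex_pt hv S hV ho ((nu_or (e n.1)).resolve_left u) (by
        rintro ⟨j, hj, t⟩
        obtain ⟨j, rfl⟩ := Nat.exists_eq_succ_of_ne_zero hj.ne'
        have t' := nu_down e (D.sub_mem (D.pow_mem n.1 _) D.one_mem) t
        have := (n.mul (D.pow_mem n.1 j)).sub t'
        rw [pow_succ, sub_sub_cancel] at this
        exact this.not ut_one)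
      exact ⟨D', h1, fun q => h3 (q ▸ n.1), h2⟩
    · obtain ⟨a, u, t⟩ : ∃ a, Ut V a ∧ ¬Tor V a := by
        by_contra q
        exact S.tr V hV fun a u => by_contra fun t => q ⟨a, u, t⟩
      obtain ⟨D', h1, h2, -⟩ := ex_pt hv S hV ho u t
      exact ⟨D', h1, fun q => e (q ▸ h2), h2⟩
  · obtain ⟨p, hp, n⟩ := ex_nu ho
    have H := hv K V (S.dv V hV)
    refine H.2.2.2 p u hp n hu (H.2.1 u hu.2.1 fun W hW e => by_contra fun m => ?_)
    obtain ⟨D, hD, d⟩ := S.cen V hV W hW e fun q => m (q ▸ hu.2.1)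
    exact m (uc_mem hv (S.dv V hV) hW e d.1 (h D hD (d.1.trans e)))
  · have := (dvA (S.dv O hO)).loc
    obtain ⟨n, a, b, c⟩ := sec3 hv S hO ho hu.2.1 h
    obtain ⟨n', a', b', c'⟩ := sec3 hv S hO ho hu.2.2 fun D d => (h D d).inv d.2.1
    exact ⟨n * n', mul_ne_zero a a', b.mul_left b', c _ (dvd_mul_right _ _),
      c' _ (dvd_mul_left _ _)⟩

theorem gGv : OfGv := by
  intro hs K _ _ P C M S hM hg ψ hψ ht V hV
  by_contra q
  have k : ¬(Ho V ∨ Nu V M) := fun e => q (ht V ⟨hV, e⟩)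
  have ho : ¬Ho V := fun e => k (.inl e)
  have hu := hψ.us V (S.dv V hV)
  obtain ⟨p, hp, n⟩ := ex_nu ho
  refine q ((hs K P C M S hM).2.1 V hV ho _ hu fun D hD e => ?_)
  have R := S.rg D hD
  have := R.loc
  have n' := nu_down e (natCast_mem D p) n
  obtain ⟨w, g⟩ := hg D hD p hp (fun d => k (.inr (nu_dvd n d))) n'
  obtain ⟨A, hA⟩ := (cyA R).ax _ _ g
  obtain rfl : V = A := by_contra fun m =>
    n.not (hA.oth V ((S.cur D hD V).2 ⟨hV, e⟩) m)
  have z := (cyA R).one ψ V hψ.us (hψ.cyc D hD) hA.h1 fun O o m => by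
    obtain ⟨c, d⟩ := (S.cur D hD O).1 o
    refine ht O ⟨c, .inl (by_contra fun h => ?_)⟩
    obtain ⟨p', hp', r⟩ := ex_nu h
    exact (nu_dvd r (dvd_of_nu hp' (nu_down d (natCast_mem D p') r) n')).not (hA.oth O o m)
  obtain ⟨v, i, a, b⟩ := hA.nf _ hu
  rw [ZLg1.ok_nf (rgA R) hA hu a b] at z
  exact ⟨v, a, by simpa [z] using b⟩

end Pool.Agent.MP_f3836a_nt.GP
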