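import Pool.Agent.MP_f3836a_nt.VE.SpecZ3
import Pool.Agent.MP_f3836a_nt.VE.ZSb

/-! Part GP: cycles on an arbitrary regular arithmetic surface. -/

set_option autoImplicit false

namespace Pool.Agent.MP_f3836a_nt.GP

open Polynomial IsLocalRing PK VE.W VE.Z

section
variable {K : Type} [Field K]

/-- sums of multiples of `N`-th powers of non-units -/
def Pw (S : Subring K) (N : ℕ) (z : K) : Prop :=
  z ∈ AddSubgroup.closure {t | ∃ s c, Nu S s ∧ c ∈ S ∧ t = s ^ N * c}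

/-- congruent on the curve `O` to a unit of `D` -/
def Uc (O D : Subring K) (u : K) : Prop := ∃ w, Ut D w ∧ Nu O (u - w)

/-- a valuation ring -/
def Vr (W : Subring K) : Prop := ∀ z, z ∈ W ∨ z⁻¹ ∈ W

/-- the residue is integral over the integers -/
def Itg (O : Subring K) (z : K) : Prop := ∃ q : ℤ[X], q.Monic ∧ Nu O (aeval z q)

/-- the residue is a unit at all primes dividing `M` -/
def SU (O : Subring K) (M : ℕ) (u : K) : Prop :=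
  ∃ n : ℕ, n ≠ 0 ∧ n.Coprime M ∧ Itg O (n * u) ∧ Itg O (n * u⁻¹)

/-- a unit at all primes dividing `M` -/
def Um (M : ℕ) (a : K) : Prop :=
  ∃ n : ℕ, n ≠ 0 ∧ n.Coprime M ∧ IsIntegral ℤ (n * a) ∧ IsIntegral ℤ (n * a⁻¹)

/-- additive on nonzero elements -/
def Adr (μ : K → ℝ) : Prop := ∀ a b, a ≠ 0 → b ≠ 0 → μ (a * b) = μ a + μ b

/-- an additive function on the residue classes of units -/
structure Fn (O : Subring K) (l : K → ℝ) : Prop where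
  mul : ∀ u u', Ut O u → Ut O u' → l (u * u') = l u + l u'
  cg : ∀ u u', Ut O u → Ut O u' → Nu O (u - u') → l u = l u'

/-- a place over the rationals -/
def Pl (O : Subring K) : Prop := Dvr O ∧ Ho O

/-- no inclusions -/
def Anti (T : Finset (Subring K)) : Prop := ∀ S ∈ T, ∀ S' ∈ T, S ≤ S' → S = S'

/-- simultaneous approximation -/
def Crt (T : Finset (Subring K)) : Prop := ∀ (a : Subring K → K) (N : ℕ), (∀ S ∈ T, a S ∈ S) →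
  ∃ w, ∀ S ∈ T, w ∈ S ∧ Pw S N (w - a S)

/-- the closed points `P` and the curves `C` of a regular proper arithmetic surface -/
structure Sf (P C : Set (Subring K)) : Prop where
  rg : ∀ D ∈ P, Rg D
  dv : ∀ O ∈ C, Dvr O
  cur : ∀ D ∈ P, ∀ O, H1 D O ↔ O ∈ C ∧ D ≤ O
  anti : ∀ D ∈ P, ∀ D' ∈ P, D ≤ D' → D = D'
  hor : ∀ V, Pl V → V ∈ C
  fin : ∀ f, {O | O ∈ C ∧ ordR O f ≠ 0}.Finite
  cen : ∀ O ∈ C, ∀ W, Vr W → W ≤ O → W ≠ O → ∃ D ∈ P, Dom D W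
  crt : ∀ T : Finset (Subring K), (∀ S ∈ T, S ∈ P ∨ S ∈ C) → Anti T → Crt T
  fin2 : ∀ O ∈ C, ∀ u, Ut O u → {D | D ∈ P ∧ D ≤ O ∧ ¬Ut D u}.Finite
  good : ∃ M : ℕ, M ≠ 0 ∧ ∀ D ∈ P, ∀ p : ℕ, p.Prime → ¬p ∣ M → Nu D p → ∃ w, Gen D p w
  tr : ∀ O ∈ C, ¬Alg O

/-- a horizontal curve or a curve over a prime dividing `M` -/
def Cm (C : Set (Subring K)) (M : ℕ) (O : Subring K) : Prop := O ∈ C ∧ (Ho O ∨ Nu O M)

/-- a point of `O` over a prime dividing `M` -/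
def Ov (P : Set (Subring K)) (M : ℕ) (O D : Subring K) : Prop := D ∈ P ∧ D ≤ O ∧ Nu D M

/-- kills all boundaries -/
structure Kb (C : Set (Subring K)) (M : ℕ) (lam : Subring K → K → ℝ) : Prop where
  fn : ∀ O, Cm C M O → Fn O (lam O)
  bd : ∀ f g, f ≠ 0 → g ≠ 0 → ∑ᶠ (O) (_ : Cm C M O), lam O (tameE O f g) = 0

/-- kills what is a unit at all points over `M` -/
def Ku (P C : Set (Subring K)) (M : ℕ) (lam : Subring K → K → ℝ) : Prop :=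
  ∀ O ∈ C, Ho O → ∀ u, Ut O u → (∀ D, Ov P M O D → Uc O D u) → lam O u = 0

/-- a cycle -/
structure Cy (P C : Set (Subring K)) (ψ : Subring K → K) : Prop where
  us : Us ψ
  fin : {O | O ∈ C ∧ ¬Nu O (ψ O - 1)}.Finite
  cyc : ∀ D ∈ P, Cyc D ψ

/-- decomposition into local terms -/
structure Dcp (P C : Set (Subring K)) (M : ℕ) (lam : Subring K → K → ℝ)
    (B : Subring K → Subring K → K → ℝ) : Prop where
  fn : ∀ O D, O ∈ C → Ho O → Ov P M O D → Fn O (B D O)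
  un : ∀ O D u, O ∈ C → Ho O → Ov P M O D → Ut O u → Uc O D u → B D O u = 0
  sum : ∀ O u, O ∈ C → Ho O → Ut O u → lam O u = ∑ᶠ (D) (_ : Ov P M O D), B D O u

/-- the local reciprocity law for the pair `w, g` -/
def Rc (D : Subring K) (B : Subring K → K → ℝ) (O : Subring K) (g w : K) : Prop :=
  Ut O w → B O w = ∑ᶠ (O') (_ : H1 D O'), (ordR O' w : ℝ) * B O' g

/-- a unit along the vertical curves -/
def Uv (D : Subring K) (w : K) : Prop := ∀ V, H1 D V → ¬Ho V → Ut V w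

/-- local reciprocity on a dense set -/
def Srl (D : Subring K) (B : Subring K → K → ℝ) : Prop :=
  ∀ (O₁ O₂ : Subring K) (g₁ g₂ w₀ : K) (N : ℕ), H1 D O₁ → Ho O₁ → Eqn D O₁ g₁ → H1 D O₂ → Ho O₂ →
    Eqn D O₂ g₂ → w₀ ∈ D → ∃ w ∈ D, Pw D N (w - w₀) ∧ Uv D w ∧ Rc D B O₁ g₁ w ∧ Rc D B O₂ g₂ w

/-- the functional attached to a function on the points -/
noncomputable def dl (P : Set (Subring K)) (M : ℕ) (α : Subring K → ℝ) (O : Subring K) (u : K) : ℝ :=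
  ∑ᶠ (D) (_ : Ov P M O D), α D * oK O D u

open Classical in
/-- the family which is `c` on `C₀` and one elsewhere -/
noncomputable def sg (C₀ : Subring K) (c : K) (O : Subring K) : K := if O = C₀ then c else 1

/-- norms to the field of constants, Weil reciprocity and the engine -/
structure Nm {k : Type} [Field k] [Algebra k K] (nm : Subring K → K → k) : Prop where
  ne : ∀ O u, Pl O → Ut O u → nm O u ≠ 0
  mul : ∀ O u u', Pl O → Ut O u → Ut O u' → nm O (u * u') = nm O u * nm O u'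
  cg : ∀ O u u', Pl O → Ut O u → Ut O u' → Nu O (u - u') → nm O u = nm O u'
  con : ∀ O, Pl O → ∃ d : ℕ, 0 < d ∧ ∀ c : k, c ≠ 0 →
    Ut O (algebraMap k K c) ∧ nm O (algebraMap k K c) = c ^ d
  int : ∀ O u, Pl O → Ut O u → Itg O u → IsIntegral ℤ (nm O u)
  alg : ∀ (O : Subring K) u, Pl O → u ∈ O → ∃ n : ℕ, n ≠ 0 ∧ Itg O (n * u)
  cst : ∀ z, (∀ O, Pl O → z ∈ O) → ∃ c, algebraMap k K c = z
  weil : ∀ μ, Adr μ → ∀ f g, f ≠ 0 → g ≠ 0 → ∑ᶠ (O) (_ : Pl O), μ (nm O (tameE O f g)) = 0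
  eng : ∀ (M : ℕ) (VV : Set (Subring K)) (lam : Subring K → K → ℝ), M ≠ 0 → VV.Finite →
    (∀ V ∈ VV, Dvr V ∧ Nu V M) → (∀ O, Pl O ∨ O ∈ VV → Fn O (lam O)) →
    (∀ f g, f ≠ 0 → g ≠ 0 → ∑ᶠ (O) (_ : Pl O ∨ O ∈ VV), lam O (tameE O f g) = 0) →
    ∃ μ, Adr μ ∧ ∀ O u, Pl O → Ut O u → SU O M u → lam O u = μ (nm O u)

end

/-- a function field in one variable -/
def FF (K : Type) [Field K] : Prop :=
  (∃ s : Finset K, Subfield.closure (s : Set K) = ⊤) ∧ Td K ∧ ∃ t : K, Transcendental ℤ t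

/-- what is used from the generic fibre -/
def NmS : Prop := ∀ (K : Type) [Field K] [CharZero K], FF K →
  ∃ (k : Type) (_ : Field k) (_ : Algebra k K) (nm : Subring K → K → k), Nm nm

/-! ### local rows -/

def PwS : Prop := ∀ (K : Type) [Field K] (S : Subring K),
  (∀ N z, Pw S N z → z ∈ S) ∧ (∀ N N' z, N ≤ N' → Pw S N' z → Pw S N z) ∧
  (IsLocalRing S → ∀ N z, 0 < N → Pw S N z → Nu S z) ∧
  (Dvr S → ∀ a w, a ≠ 0 → ordR S a = 1 → Pw S 2 (w - a) → w ≠ 0 ∧ ordR S w = 1) ∧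
  (Rg S → (∀ a b w, Gen S a b → Pw S 2 (w - a) → Gen S w b) ∧
    ∀ O f, H1 S O → f ∈ S → Ut O f → ∃ N, ∀ w, Pw S N (w - f) → Ut O w ∧ Uc O S (w / f))

def ValS : Prop := ∀ (K : Type) [Field K] (O : Subring K), Dvr O →
  (∀ W, Vr W → W ≤ O → IsLocalRing W ∧ ∀ z, Nu O z → z ∈ W) ∧
  (∀ z ∈ O, (∀ W, Vr W → W ≤ O → z ∈ W) → Itg O z) ∧
  (∀ (M : ℕ), ∀ z ∈ O, Ho O →
    (∀ W, Vr W → W ≤ O → (∀ n : ℕ, n.Coprime M → (n : K)⁻¹ ∈ W) → z ∈ W) →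
    ∃ n : ℕ, n ≠ 0 ∧ n.Coprime M ∧ ∀ m : ℕ, n ∣ m → Itg O (m * z)) ∧
  ∀ (p : ℕ) (z : K), p.Prime → Nu O p → Ut O z → Itg O z → Tor O z

def LlS : Prop := ∀ (K : Type) [Field K] (D : Subring K) (B : Subring K → K → ℝ), Rg D →
  (∀ O, H1 D O → Ho O → Fn O (B O) ∧ ∀ u, Ut O u → Uc O D u → B O u = 0) → Srl D B →
  ∃ α : ℝ, ∀ O u, H1 D O → Ho O → Ut O u → B O u = α * oK O D u

/-- duality -/
def DuS : Prop := ∀ (K S : Type) [Field K] (c : Subring K → Prop) (t : S → Subring K → K)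
  (ψ : Subring K → K), (∀ O, c O → Dvr O) → (∀ s O, c O → Ut O (t s O)) →
  (∀ s, {O | c O ∧ ¬Nu O (t s O - 1)}.Finite) → (∀ s, ∃ s', ∀ O, c O → Nu O (t s O * t s' O - 1)) →
  (∀ O, c O → Ut O (ψ O)) → {O | c O ∧ ¬Nu O (ψ O - 1)}.Finite →
  (∀ lam : Subring K → K → ℝ, (∀ O, c O → Fn O (lam O)) →
    (∀ s, ∑ᶠ (O) (_ : c O), lam O (t s O) = 0) → ∑ᶠ (O) (_ : c O), lam O (ψ O) = 0) →
  ∃ n : ℕ, 0 < n ∧ ∃ l : List S, ∀ O, c O → Nu O (ψ O ^ n - (l.map fun s => t s O).prod)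

def NuS : Prop := ∀ (k : Type) [Field k] (M j : ℕ) (ν : k), ν ≠ 0 →
  ((∀ v, Adr v → v ν = 0) → ∃ n : ℕ, 0 < n ∧ ν ^ n = 1) ∧
  ((∀ v, Adr v → (∀ a, a ≠ 0 → Um M a → v a = 0) → v ν = 0) → IsIntegral ℤ ((M : k) ^ j * ν) →
    IsIntegral ℤ ((M : k) ^ j * ν⁻¹) → IsIntegral ℤ ν ∧ IsIntegral ℤ ν⁻¹)

/-! ### rows about a surface -/

def AllS (Φ : ∀ (K : Type) [Field K] (_ _ : Set (Subring K)) (_ : ℕ), Prop) : Prop :=
  ∀ (K : Type) [Field K] [CharZero K] (P C : Set (Subring K)) (M : ℕ), Sf P C → M ≠ 0 → Φ K P C M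

def SecS : Prop := AllS fun _ _ P C M =>
  (∀ V ∈ C, ¬Ho V → ∀ D ∈ P, ∃ D' ∈ P, D' ≠ D ∧ D' ≤ V) ∧
  (∀ V ∈ C, ¬Ho V → ∀ u, Ut V u → (∀ D ∈ P, D ≤ V → Uc V D u) → Tor V u) ∧
  ∀ O ∈ C, Ho O → ∀ u, Ut O u → (∀ D, Ov P M O D → Uc O D u) → SU O M u

/-- functions with given orders -/
def FexS : Prop := AllS fun K _ P C _ => ∀ (T : Finset (Subring K)) (e : Subring K → ℤ),
  (∀ S ∈ T, S ∈ P ∨ S ∈ C) → Anti T →
  ∃ t, t ≠ 0 ∧ ∀ S ∈ T, (S ∈ P → Ut S t) ∧ (S ∈ C → ordR S t = e S)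

def ByS : Prop := AllS fun _ _ P C M => ∀ lam, (∀ O ∈ C, Ho O → Fn O (lam O)) → Ku P C M lam →
  ∃ B, Dcp P C M lam B

def SrS : Prop := AllS fun K _ P C M => ∀ lam B, Kb C M lam → Dcp P C M lam B →
  ∀ D ∈ P, Nu D M → ∀ O g, H1 D O → Ho O → Eqn D O g → ∃ T : Finset (Subring K),
    (∀ D' ∈ T, D' ∈ P ∧ D' ≠ D) ∧
    ∀ w ∈ D, (∀ D' ∈ T, Ut D' w) → Uv D w ∧ Rc D (B D) O g w

def SwS : Prop := AllS fun _ _ P C M => ∀ α, (∀ O ∈ C, Fn O (dl P M α O)) ∧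
  ∀ ψ, Cy P C ψ → ∑ᶠ (O) (_ : Cm C M O), dl P M α O (ψ O) = 0

def VtS : Prop := AllS fun _ _ _ C M => ∀ lam, Kb C M lam →
  (∀ O ∈ C, Ho O → ∀ u, Ut O u → lam O u = 0) → ∀ O u, Cm C M O → Ut O u → lam O u = 0

def MidS : Prop := AllS fun _ _ P C M => ∀ lam, Kb C M lam → Ku P C M lam →
  ∀ ψ, Cy P C ψ → ∑ᶠ (O) (_ : Cm C M O), lam O (ψ O) = 0

/-- the value of a functional on a cycle depends only on the norm -/
def Top1 : Prop := AllS fun K _ P C M => ∀ (k : Type) [Field k] [Algebra k K]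
  (nm : Subring K → K → k) lam μ ψ, Nm nm → Kb C M lam → Adr μ →
  (∀ O u, Pl O → Ut O u → SU O M u → lam O u = μ (nm O u)) → Cy P C ψ →
  ∑ᶠ (O) (_ : Cm C M O), lam O (ψ O) = μ (∏ᶠ (O) (_ : Pl O), nm O (ψ O))

/-- the norm of a family -/
def Top2 : Prop := AllS fun K _ P C M => ∀ (k : Type) [Field k] [Algebra k K]
  (nm : Subring K → K → k) ψ, Nm nm → Cy P C ψ → (∏ᶠ (O) (_ : Pl O), nm O (ψ O)) ≠ 0 ∧
  (∀ O u, Pl O → Ut O u → SU O M u → Um M (nm O u)) ∧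
  ∃ M' : ℕ, M' ≠ 0 ∧ ∀ M'' : ℕ, M' ∣ M'' → ∃ j : ℕ,
    IsIntegral ℤ ((M'' : k) ^ j * ∏ᶠ (O) (_ : Pl O), nm O (ψ O)) ∧
    IsIntegral ℤ ((M'' : k) ^ j * (∏ᶠ (O) (_ : Pl O), nm O (ψ O))⁻¹)

def TopS : Prop := AllS fun K _ P C M => ∀ (k : Type) [Field k] [Algebra k K]
  (nm : Subring K → K → k) C₀ ψ, Nm nm → Pl C₀ → Cy P C ψ → ∃ M' : ℕ, M' ≠ 0 ∧ M ∣ M' ∧
  ∀ lam, Kb C M' lam → (∀ c : K, c ≠ 0 → IsIntegral ℤ c → IsIntegral ℤ c⁻¹ → lam C₀ c = 0) →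
    ∑ᶠ (O) (_ : Cm C M' O), lam O (ψ O) = 0

/-- vertical cycles over the good primes are torsion -/
def GvS : Prop := AllS fun _ _ P C M =>
  (∀ D ∈ P, ∀ p : ℕ, p.Prime → ¬p ∣ M → Nu D p → ∃ w, Gen D p w) →
  ∀ ψ, Cy P C ψ → (∀ O, Cm C M O → Tor O (ψ O)) → ∀ O ∈ C, Tor O (ψ O)

def MainK : Prop := AllS fun K _ P C _ => ∀ (k : Type) [Field k] [Algebra k K]
  (nm : Subring K → K → k) C₀ ψ, Nm nm → Pl C₀ → Cy P C ψ →
  ∃ n : ℕ, 0 < n ∧ ∃ c : K, c ≠ 0 ∧ IsIntegral ℤ c ∧ IsIntegral ℤ c⁻¹ ∧ ∃ l, NZ l ∧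
    ∀ O ∈ C, Tor O (ψ O ^ n * bdE l O * sg C₀ c O)

def InjK : Prop := AllS fun K _ _ _ _ => ∀ (k : Type) [Field k] [Algebra k K]
  (nm : Subring K → K → k) C₀ (c : K) l, Nm nm → Pl C₀ → (∀ O, Pl O → Ut O c) → NZ l →
  (∀ O, Pl O → Nu O (sg C₀ c O - bdE l O)) → ∃ n : ℕ, 0 < n ∧ c ^ n = 1

/-! ### rows about the charts -/

def AllD (Φ : ∀ (K Pt : Type) [Field K] [Preorder Pt] (_ : Pt → Subring K), Prop) : Prop :=
  ∀ (K ι Pt : Type) [Field K] [CharZero K] [Fintype ι] [Preorder Pt] (ξ : ι → K)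
    (B : ι → Subring K) (O : Pt → Subring K) (κ : Pt → Type) [∀ z, Field (κ z)]
    (r : ∀ z, O z →+* κ z), Td K → (∃ t : K, Transcendental ℤ t) → DcY ξ B O r → GeoY ξ O r →
    Φ K Pt O

def CrtS : Prop := AllD fun K _ _ _ O => ∀ T : Finset (Subring K), (∀ S ∈ T, ∃ z, O z = S) →
  Anti T → Crt T

def F2S : Prop := AllD fun _ _ _ _ O => ∀ C u, Order.height C = 1 → Ut (O C) u →
  {D | (∃ z, Order.height z = 0 ∧ O z = D) ∧ D ≤ O C ∧ ¬Ut D u}.Finite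

/-- after inverting `s` the differentials are generated by that of `t` -/
def Cy1 {B : Type} [CommRing B] (s t : B) : Prop :=
  ∀ b : B, ∃ c : B, s • KaehlerDifferential.D ℤ B b = c • KaehlerDifferential.D ℤ B t

def GdA : Prop := ∀ (B : Type) [CommRing B] [IsDomain B] [CharZero B] [Algebra.FiniteType ℤ B],
  Td B → (∃ t : B, Transcendental ℤ t) →
  (∀ q : Ideal B, q.IsPrime → q ≠ ⊥ → (∀ n : ℤ, (n : B) ∈ q → n = 0) →
    ∃ π ∈ q, ∀ a ∈ q, ∃ s, s ∉ q ∧ π ∣ s * a) →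
  ∃ M : ℕ, M ≠ 0 ∧ (M : B) ∈ Ideal.span {s : B | ∃ t, Cy1 s t}

def GdB : Prop := ∀ (B : Type) [CommRing B] (m : Ideal B) (p : ℕ) (s t : B), m.IsMaximal →
  Finite (B ⧸ m) → p.Prime → (p : B) ∈ m → s ∉ m → Cy1 s t →
  ∃ w ∈ m, m ≤ Ideal.span {(p : B), w} ⊔ m ^ 2

def GdS : Prop := AllD fun _ _ _ _ O => ∃ M : ℕ, M ≠ 0 ∧ ∀ z, Order.height z = 0 → ∀ p : ℕ,
  p.Prime → ¬p ∣ M → Nu (O z) p → ∃ w, Gen (O z) p w

def SfS : Prop := AllD fun _ _ _ _ O =>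
  Sf {S | ∃ z, Order.height z = 0 ∧ O z = S} {S | ∃ z, Order.height z = 1 ∧ O z = S}

def OfLl : Prop := PwS → LlS
def OfSec : Prop := ValS → SecS
def OfFex : Prop := PwS → FexS
def OfBy : Prop := PwS → ByS
def OfSr : Prop := SecS → FexS → SrS
def OfVt : Prop := PwS → FexS → VtS
def OfMid : Prop := PwS → ByS → SrS → LlS → SwS → VtS → MidS
def OfTop1 : Prop := SecS → MidS → Top1
def OfTop : Prop := NuS → Top1 → Top2 → TopS
def OfGv : Prop := SecS → GvS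
def OfMainK : Prop := DuS → TopS → GvS → MainK
def OfInj : Prop := NuS → InjK
def OfGd : Prop := GdA → GdB → GdS
def OfSf : Prop := ValS → CrtS → F2S → GdS → SfS

end Pool.Agent.MP_f3836a_nt.GP
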