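import Pool.Agent.MP_f3836a_nt.GP.Base
import Pool.Agent.MP_f3836a_nt.VE.ZSd

/-! Part GP: from rings to the scheme. -/

set_option autoImplicit false

namespace Pool.Agent.MP_f3836a_nt.GP

open IsLocalRing AlgebraicGeometry CategoryTheory PK VE.W VE.Z

/-- dimension two -/
def DimS : Prop := ∀ (K ι Pt : Type) [Field K] [CharZero K] [Fintype ι] [Preorder Pt] (ξ : ι → K)
  (B : ι → Subring K) (O : Pt → Subring K) (κ : Pt → Type) [∀ z, Field (κ z)]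
  (r : ∀ z, O z →+* κ z), DcY ξ B O r → Order.krullDim Pt = 2 → FF K

/-- the theorem on the level of rings -/
def MainG : Prop := ∀ (K ι Pt : Type) [Field K] [CharZero K] [Fintype ι] [Preorder Pt] (ξ : ι → K)
  (B : ι → Subring K) (O : Pt → Subring K) (κ : Pt → Type) [∀ z, Field (κ z)]
  (r : ∀ z, O z →+* κ z), FF K → DcY ξ B O r → ∀ C₀, Order.height C₀ = 1 → CharZero (κ C₀) →
  (∀ φ : ∀ C, κ C, (∀ C, φ C ≠ 0) → {C | φ C ≠ 1}.Finite → (∀ C, φ C ≠ 1 → Order.height C = 1) →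
    (∀ z, Order.height z = 0 → ∑ᶠ C, od (O C) (r C) (O z) (φ C) = 0) →
    ∃ n : ℕ, 0 < n ∧ ∃ c : K, (∀ z, Ut (O z) c) ∧ ∃ l : List (K × K), NZ l ∧
      φ C₀ ^ n = resR (O C₀) (r C₀) c * (l.map fun s => tameR (O C₀) (r C₀) s.1 s.2).prod ∧
      ∀ C, Order.height C = 1 → C ≠ C₀ →
        φ C ^ n = (l.map fun s => tameR (O C) (r C) s.1 s.2).prod) ∧
  ∀ (c : K) (l : List (K × K)), (∀ z, Ut (O z) c) → NZ l →
    resR (O C₀) (r C₀) c = (l.map fun s => tameR (O C₀) (r C₀) s.1 s.2).prod →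
    (∀ C, Order.height C = 1 → C ≠ C₀ → (l.map fun s => tameR (O C) (r C) s.1 s.2).prod = 1) →
    ∃ n : ℕ, 0 < n ∧ c ^ n = 1

/-- a rational function which is regular at all points is a global section -/
def GluS : Prop := ∀ (Y : Scheme.{0}) [IsIntegral Y],
  Function.Injective (Y.Γevaluation (genericPoint Y)).hom ∧
  (∀ (s : Γ(Y, ⊤)) (y z : Y) (h : y ⤳ z), ∃ a : Y.presheaf.stalk z,
    PT.ev h a = (Y.Γevaluation y).hom s ∧ Y.residue z a = (Y.Γevaluation z).hom s) ∧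
  ∀ c : Y.residueField (genericPoint Y), (∀ z, c ∈ (PT.ev (genericPoint_specializes z)).range) →
    ∃ s : Γ(Y, ⊤), (Y.Γevaluation (genericPoint Y)).hom s = c

/-- the theorem for schemes -/
def FinalG : Prop := ∀ (N : ℕ) (X : Scheme.{0}) (ι : X ⟶ PT.PN N) [IsClosedImmersion ι]
  [IsIntegral X], (∀ z : X, IsRegularLocalRing (X.presheaf.stalk z)) → topologicalKrullDim X = 2 →
  ∀ C₀ : X, Order.height C₀ = 1 → CharZero (X.residueField C₀) →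
  (∀ φ : ∀ C : X, X.residueField C, (∀ C, φ C ≠ 0) → {C | φ C ≠ 1}.Finite →
    (∀ C, φ C ≠ 1 → Order.height C = 1) →
    (∀ x : X, Order.height x = 0 → ∑ᶠ C, PT.ordZ C x (φ C) = 0) →
    ∃ n : ℕ, 0 < n ∧ ∃ (u : Γ(X, ⊤)ˣ) (l : List (Σ y : X, X.residueField y × X.residueField y)),
      (∀ a ∈ l, Order.height a.1 = 2 ∧ a.2.1 ≠ 0 ∧ a.2.2 ≠ 0) ∧
      φ C₀ ^ n = (X.Γevaluation C₀).hom u * (l.map fun a => PT.bd a.1 C₀ a.2.1 a.2.2).prod ∧
      ∀ C : X, Order.height C = 1 → C ≠ C₀ →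
        φ C ^ n = (l.map fun a => PT.bd a.1 C a.2.1 a.2.2).prod) ∧
  ∀ (u : Γ(X, ⊤)ˣ) (l : List (Σ y : X, X.residueField y × X.residueField y)),
    (∀ a ∈ l, Order.height a.1 = 2 ∧ a.2.1 ≠ 0 ∧ a.2.2 ≠ 0) →
    (X.Γevaluation C₀).hom u = (l.map fun a => PT.bd a.1 C₀ a.2.1 a.2.2).prod →
    (∀ C : X, Order.height C = 1 → C ≠ C₀ →
      (l.map fun a => PT.bd a.1 C a.2.1 a.2.2).prod = 1) →
    ∃ n : ℕ, 0 < n ∧ u ^ n = 1

def OfMainG : Prop := NmS → SfS → MainK → InjK → MainG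
def OfFinalG : Prop := DimS → GluS → MainG → FinalG

end Pool.Agent.MP_f3836a_nt.GP
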