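import Pool.Agent.MP_f3836a_nt.GP.Base
import Pool.Agent.MP_f3836a_nt.GP.DefsG

/-! Part T: places of a function field, norms, Weil reciprocity, extension of the constants. -/

set_option autoImplicit false

namespace Pool.Agent.MP_f3836a_nt.GP

open Polynomial IsLocalRing PK VE.W VE.Z IntermediateField

/-- finite over a rational function field -/
def FG (F : Type) [Field F] [CharZero F] : Prop :=
  ∃ t : F, Transcendental ℤ t ∧ FiniteDimensional ℚ⟮t⟯ F

/-- algebraic over the integers -/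
def Al (k : Type) [Field k] : Prop := ∀ c : k, IsAlgebraic ℤ c

section
variable (k : Type) {F : Type} [Field k] [Field F] [Algebra k F]

/-- the map to the residue field -/
noncomputable def emb (O : Subring F) [IsLocalRing O] (h : ∀ c : k, algebraMap k F c ∈ O) :
    k →+* ResidueField O := (residue O).comp ((algebraMap k F).codRestrict O h)

open Classical in
/-- the norm of the residue -/
noncomputable def nmK (O : Subring F) (u : F) : k :=
  if h : IsLocalRing O ∧ ∀ c : k, algebraMap k F c ∈ O then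
    @Algebra.norm k (@ResidueField O _ h.1) _ _ (@emb k F _ _ _ O h.1 h.2).toAlgebra
      (resR O (@residue O _ h.1) u)
  else 1

open Classical in
/-- the degree of the residue field -/
noncomputable def dgK (O : Subring F) : ℕ :=
  if h : IsLocalRing O ∧ ∀ c : k, algebraMap k F c ∈ O then
    @Module.finrank k (@ResidueField O _ h.1) _ _ (@emb k F _ _ _ O h.1 h.2).toAlgebra.toModule
  else 0

theorem nmK_eq (O : Subring F) [IsLocalRing O] (h : ∀ c : k, algebraMap k F c ∈ O) (u : F) :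
    nmK k O u = @Algebra.norm k (ResidueField O) _ _ (emb k O h).toAlgebra
      (resR O (residue O) u) := dif_pos ⟨‹_›, h⟩

theorem dgK_eq (O : Subring F) [IsLocalRing O] (h : ∀ c : k, algebraMap k F c ∈ O) :
    dgK k O = @Module.finrank k (ResidueField O) _ _ (emb k O h).toAlgebra.toModule :=
  dif_pos ⟨‹_›, h⟩

/-- the sum over all places -/
noncomputable def bt (μ : k → ℝ) (f g : F) : ℝ := ∑ᶠ (O) (_ : Pl O), μ (nmK k O (tameE O f g))

/-- a rational place -/
def Rat (O : Subring F) : Prop := Pl O ∧ ∀ u ∈ O, ∃ c : k, Nu O (u - algebraMap k F c)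

/-- the residue field splits in `k'` -/
def Sp (k' : Type) [Field k'] [Algebra k k'] (O : Subring F) : Prop :=
  ∀ u ∈ O, ∃ q : k[X], q.Monic ∧ (q.map (algebraMap k k')).Splits ∧ Nu O (aeval u q)

variable (F)

/-- the field of constants -/
structure Cl : Prop where
  al : Al k
  cl : ∀ z : F, IsAlgebraic ℤ z → ∃ c : k, algebraMap k F c = z

/-- elementary properties of the norm -/
structure Nb : Prop where
  mem : ∀ O : Subring F, Pl O → ∀ c : k, algebraMap k F c ∈ O
  ne : ∀ (O : Subring F) u, Pl O → Ut O u → nmK k O u ≠ 0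
  mul : ∀ (O : Subring F) u u', Pl O → Ut O u → Ut O u' →
    nmK k O (u * u') = nmK k O u * nmK k O u'
  cg : ∀ (O : Subring F) u u', Pl O → Ut O u → Ut O u' → Nu O (u - u') → nmK k O u = nmK k O u'
  con : ∀ O : Subring F, Pl O → 0 < dgK k O ∧ ∀ c : k, c ≠ 0 →
    Ut O (algebraMap k F c) ∧ nmK k O (algebraMap k F c) = c ^ dgK k O
  int : ∀ (O : Subring F) u, Pl O → Ut O u → Itg O u → IsIntegral ℤ (nmK k O u)
  alg : ∀ (O : Subring F) u, Pl O → u ∈ O → ∃ n : ℕ, n ≠ 0 ∧ Itg O (n * u)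
  rat : ∀ O : Subring F, Rat k O → dgK k O = 1 ∧
    ∀ u, Ut O u → Nu O (u - algebraMap k F (nmK k O u))

end

section
variable {F : Type} [Field F]

/-- a family which kills all symbols -/
structure Ks (M : ℕ) (VV : Set (Subring F)) (lam : Subring F → F → ℝ) : Prop where
  ne : M ≠ 0
  fin : VV.Finite
  dv : ∀ V ∈ VV, Dvr V ∧ Nu V M
  fn : ∀ O, Pl O ∨ O ∈ VV → Fn O (lam O)
  bd : ∀ f g, f ≠ 0 → g ≠ 0 → ∑ᶠ (O) (_ : Pl O ∨ O ∈ VV), lam O (tameE O f g) = 0

/-- a place above `O` -/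
def Ab {F' : Type} [Field F'] [Algebra F F'] (O : Subring F) (O' : Subring F') : Prop :=
  Dvr O' ∧ O'.comap (algebraMap F F') = O

/-- global properties of places -/
structure Fi (F : Type) [Field F] : Prop where
  dvr : ∀ W : Subring F, Vr W → W ≠ ⊤ → Ho W → Dvr W
  fd : ∀ O : Subring F, Pl O → ∀ [IsLocalRing O] [Algebra ℚ (ResidueField O)],
    FiniteDimensional ℚ (ResidueField O)
  fin : ∀ f : F, {O | Pl O ∧ ordR O f ≠ 0}.Finite
  ex : ∀ z : F, Transcendental ℤ z → ∃ O, Pl O ∧ z ∉ O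

end

def FfS : Prop := ∀ (F : Type) [Field F] [CharZero F], (FF F → FG F) ∧ (FG F →
  (∀ t : F, Transcendental ℤ t → FiniteDimensional ℚ⟮t⟯ F) ∧
  ∀ (F' : Type) [Field F'] [CharZero F'] [Algebra F F'], FiniteDimensional F F' → FG F') ∧
  ∀ (k : Type) [Field k] [Algebra k F] [Algebra ℚ k] (t : F), FiniteDimensional ℚ k →
    Transcendental k t → FiniteDimensional k⟮t⟯ F → FG F

def FinS : Prop := ∀ (F : Type) [Field F] [CharZero F], FG F → Fi F

def NbS : Prop := ∀ (k F : Type) [Field k] [Field F] [CharZero F] [Algebra k F], Al k → Fi F →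
  Nb k F

/-- weak approximation -/
def ApS : Prop := ∀ (F : Type) [Field F] (T : Finset (Subring F)), (∀ S ∈ T, Dvr S) → Crt T

/-- the shape of the rows about a finite extension -/
def AllE (Φ : ∀ (k F F' : Type) [Field k] [Field F] [Field F'] [Algebra k F] [Algebra k F']
    [Algebra F F'], Prop) : Prop :=
  ∀ (k F F' : Type) [Field k] [Field F] [Field F'] [CharZero F] [CharZero F'] [Algebra k F]
    [Algebra k F'] [Algebra F F'] [IsScalarTower k F F'] [FiniteDimensional F F'], Al k → Fi F →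
    Fi F' → Φ k F F'

/-- finitely many extensions -/
def FeS : Prop := ∀ (F F' : Type) [Field F] [Field F'] [CharZero F] [Algebra F F']
  [FiniteDimensional F F'] (O : Subring F), Dvr O → {O' : Subring F' | Ab O O'}.Finite

/-- the fundamental equality -/
def EfS : Prop := AllE fun k F F' _ _ _ _ _ _ => ∀ (O : Subring F) (π : F), Pl O → ordR O π = 1 →
  ∑ᶠ (O' : Subring F') (_ : Ab O O'), ordR O' (algebraMap F F' π) * dgK k O' =
    Module.finrank F F' * dgK k O

/-- norms of elements of the small field -/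
def NxS : Prop := AllE fun k F F' _ _ _ _ _ _ => ∀ (O : Subring F) (O' : Subring F'), Ab O O' →
  (Pl O ↔ Pl O') ∧ (Pl O → ∃ f : ℕ, dgK k O' = f * dgK k O ∧
    ∀ u, Ut O u → nmK k O' (algebraMap F F' u) = nmK k O u ^ f)

def CmpS : Prop := AllE fun k F F' _ _ _ _ _ _ => ∀ (μ : k → ℝ) (f g : F), Adr μ → f ≠ 0 → g ≠ 0 →
  bt k μ (algebraMap F F' f) (algebraMap F F' g) = Module.finrank F F' * bt k μ f g

/-- the places of the line -/
def P0S : Prop := ∀ (k F : Type) [Field k] [Field F] [CharZero F] [Algebra k F] (x : F), Al k →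
  Fi F → Transcendental k x → k⟮x⟯ = ⊤ →
  (∀ O : Subring F, Pl O → x ∈ O → ∃ π : k[X], π.Monic ∧ Irreducible π ∧ Nu O (aeval x π)) ∧
  (∀ π : k[X], π.Monic → Irreducible π → ∃ O : Subring F, Pl O ∧ x ∈ O ∧
    ordR O (aeval x π) = 1 ∧ (∀ O', Pl O' → x ∈ O' → O' ≠ O → Ut O' (aeval x π)) ∧
    ∀ a : k[X], ¬π ∣ a → Ut O (aeval x a) ∧ nmK k O (aeval x a) = resultant π a) ∧
  ∃ O : Subring F, Rat k O ∧ (∀ O', Pl O' → (x ∉ O' ↔ O' = O)) ∧ ∀ a : k[X], a.Monic →
    ordR O (aeval x a) = -a.natDegree ∧ Nu O (aeval x a / x ^ a.natDegree - 1)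

/-- reciprocity on the line -/
def P1S : Prop := ∀ (k F : Type) [Field k] [Field F] [CharZero F] [Algebra k F] (x : F), Al k →
  Fi F → Transcendental k x → k⟮x⟯ = ⊤ → ∀ (μ : k → ℝ) (f g : F), Adr μ → f ≠ 0 → g ≠ 0 →
  bt k μ f g = 0

/-- the sum is a symbol -/
def BtS : Prop := ∀ (k F : Type) [Field k] [Field F] [CharZero F] [Algebra k F] (μ : k → ℝ), Al k →
  Fi F → Adr μ →
  (∀ f f' g : F, f ≠ 0 → f' ≠ 0 → g ≠ 0 → bt k μ (f * f') g = bt k μ f g + bt k μ f' g) ∧
  (∀ f g : F, f ≠ 0 → g ≠ 0 → bt k μ f g = -bt k μ g f) ∧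
  (∀ f : F, f ≠ 0 → f ≠ 1 → bt k μ f (1 - f) = 0) ∧ ∀ f : F, f ≠ 0 → bt k μ f f = 0

/-- Weil reciprocity -/
def WeilS : Prop := ∀ (k F : Type) [Field k] [NumberField k] [Field F] [CharZero F] [Algebra k F],
  FG F → ∀ (μ : k → ℝ) (f g : F), Adr μ → f ≠ 0 → g ≠ 0 → bt k μ f g = 0

/-- extension of the constants -/
def BcS : Prop := ∀ (k k' F : Type) [Field k] [Field k'] [Field F] [CharZero F] [Algebra k F]
  [Algebra k k'] [FiniteDimensional k k'], Cl k F →
  ∃ (F' : Type) (_ : Field F') (_ : Algebra F F') (_ : Algebra k' F') (_ : Algebra k F'),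
    IsScalarTower k F F' ∧ IsScalarTower k k' F' ∧ FiniteDimensional F F' ∧
    Module.finrank F F' = Module.finrank k k' ∧
    Algebra.adjoin F (Set.range (algebraMap k' F')) = ⊤ ∧ Cl k' F'

/-- the places above a place whose residue field splits -/
def SplS : Prop := AllE fun k F F' _ _ _ _ _ _ => ∀ (k' : Type) [Field k'] [Algebra k k']
  [Algebra k' F'] [IsScalarTower k k' F'] [FiniteDimensional k k'] (O : Subring F),
  Module.finrank F F' = Module.finrank k k' →
  Algebra.adjoin F (Set.range (algebraMap k' F')) = ⊤ → Pl O → Sp k k' O →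
  (∃ O' : Subring F', Ab O O') ∧ (∀ O' : Subring F', Ab O O' → Rat k' O' ∧
    ∀ π, ordR O π = 1 → ordR O' (algebraMap F F' π) = 1) ∧
  ∀ u, Ut O u → algebraMap k k' (nmK k O u) =
    ∏ᶠ (O' : Subring F') (_ : Ab O O'), nmK k' O' (algebraMap F F' u)

/-- lifting a family -/
def LiftS : Prop := ∀ (F F' : Type) [Field F] [Field F'] [CharZero F] [CharZero F'] [Algebra F F']
  [FiniteDimensional F F'] (M : ℕ) (VV : Set (Subring F)) (lam : Subring F → F → ℝ), Fi F' →
  Ks M VV lam → (∀ O u, ∃ q : ℚ, lam O u = q) →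
  ∃ (VV' : Set (Subring F')) (lam' : Subring F' → F' → ℝ), Ks M VV' lam' ∧
    ∀ (O : Subring F) (π u : F), Pl O → ordR O π = 1 → Ut O u →
      ∑ᶠ (O' : Subring F') (_ : Ab O O'),
        (ordR O' (algebraMap F F' π) : ℝ) * lam' O' (algebraMap F F' u) = lam O u

/-- the engine: two rational places carry the same function -/
def EngS : Prop := ∀ (k F : Type) [Field k] [NumberField k] [Field F] [CharZero F] [Algebra k F]
  (M : ℕ) (VV : Set (Subring F)) (lam : Subring F → F → ℝ) (O O' : Subring F), FG F → Cl k F →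
  (∃ i : k, i ^ 2 = -1) → Ks M VV lam → Rat k O → Rat k O' → ∀ c : k, c ≠ 0 → Um M c →
  lam O (algebraMap k F c) = lam O' (algebraMap k F c)

/-- families of norm one -/
def KerS : Prop := ∀ (k F : Type) [Field k] [NumberField k] [Field F] [CharZero F] [Algebra k F]
  (M : ℕ) (VV : Set (Subring F)) (lam : Subring F → F → ℝ) (s : Finset (Subring F))
  (u : Subring F → F), FG F → Cl k F → Ks M VV lam →
  (∀ O ∈ s, Pl O ∧ Ut O (u O) ∧ SU O M (u O)) → ∏ O ∈ s, nmK k O (u O) = 1 →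
  ∑ O ∈ s, lam O (u O) = 0

def NmK : Prop := ∀ (k F : Type) [Field k] [NumberField k] [Field F] [CharZero F] [Algebra k F],
  FG F → Cl k F → Nm (nmK k : Subring F → F → k)

/-- the theorem on curves -/
def FinalV : Prop := ∀ (k F : Type) [Field k] [NumberField k] [Field F] [Algebra k F],
  (∃ t : F, Transcendental k t ∧ FiniteDimensional k⟮t⟯ F) →
  (∀ z : F, IsAlgebraic k z → ∃ c : k, algebraMap k F c = z) →
  ∀ u : ∀ P : Place k F, ResidueField P.V, (∀ P, u P ≠ 0) → {P | u P ≠ 1}.Finite →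
  ∏ᶠ P, Place.nm P (u P) = 1 →
  ∃ n : ℕ, 0 < n ∧ ∃ l : List (F × F), (∀ a ∈ l, a.1 ≠ 0 ∧ a.2 ≠ 0) ∧
    ∀ P, u P ^ n = (l.map fun a => PT.tameW P.V a.1 a.2).prod

def OfEf : Prop := NbS → EfS
def OfNx : Prop := NbS → NxS
def OfCmp : Prop := NbS → FeS → EfS → NxS → CmpS
def OfP0 : Prop := NbS → P0S
def OfBt : Prop := NbS → BtS
def OfP1 : Prop := NbS → BtS → P0S → P1S
def OfWeil : Prop := FfS → FinS → BtS → CmpS → P1S → WeilS
def OfSpl : Prop := NbS → FeS → EfS → SplS
def OfLift : Prop := FeS → LiftS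
def OfKer : Prop := FfS → FinS → NbS → FeS → BcS → SplS → LiftS → EngS → KerS
def OfNmK : Prop := FinS → NbS → WeilS → KerS → NmK
def OfNm : Prop := FfS → FinS → NmK → NmS
def OfFinalV : Prop := FfS → FinS → NmK → FinalV

end Pool.Agent.MP_f3836a_nt.GP
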