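import Pool.Agent.MP_f3836a_nt.GP.SpecT

set_option autoImplicit false

namespace Pool.Agent.MP_f3836a_nt.GP

open Polynomial IsLocalRing PK VE.W VE.Z IntermediateField

namespace TFf

theorem fin (k F : Type) [Field k] [Field F] [Algebra k F] [Algebra.EssFiniteType k F]
    (h : Algebra.trdeg k F ≤ 1) {t : F} (ht : Transcendental k t) : FiniteDimensional k⟮t⟯ F := by
  have hx : AlgebraicIndependent k fun _ : Unit => t := algebraicIndependent_unique_type_iff.2 ht
  have ha := (hx.isTranscendenceBasis_of_lift_trdeg_le_of_finite (by simpa using h)).isAlgebraic_field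
  rw [Set.range_const] at ha
  have : Algebra.EssFiniteType k⟮t⟯ F := .of_comp k _ F
  exact Algebra.finite_of_essFiniteType_of_isAlgebraic

theorem ess (k F : Type) [Field k] [Field F] [Algebra k F] (t : F) [FiniteDimensional k⟮t⟯ F] :
    Algebra.EssFiniteType k F ∧ Algebra.trdeg k F ≤ 1 := by
  have : Algebra.EssFiniteType k k⟮t⟯ :=
    essFiniteType_iff.2 (fg_adjoin_of_finite (Set.finite_singleton t))
  have : Algebra.IsAlgebraic (Algebra.adjoin k ({t} : Set F)) F :=
    isAlgebraic_adjoin_iff_top.1 inferInstance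
  exact ⟨.comp k k⟮t⟯ F, by simpa using Algebra.IsAlgebraic.trdeg_le_cardinalMk k ({t} : Set F)⟩

theorem tr {F : Type} [Field F] [CharZero F] {t : F} :
    Transcendental ℤ t ↔ Transcendental ℚ t :=
  (IsFractionRing.isAlgebraic_iff ℤ ℚ F).not

end TFf

open TFf in
theorem tFf : FfS := by
  intro F _ _
  refine ⟨?_, ?_, ?_⟩
  · rintro ⟨⟨s, hs⟩, td, t, ht⟩
    refine ⟨t, ht, ?_⟩
    have : Algebra.EssFiniteType ℚ⟮t⟯ F := by
      refine fg_top_iff.1 ⟨s, top_le_iff.1 fun x _ => ?_⟩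
      have : Subfield.closure (s : Set F) ≤ (adjoin ℚ⟮t⟯ (s : Set F)).toSubfield :=
        Subfield.closure_le.2 (subset_adjoin _ _)
      exact this (hs ▸ trivial)
    have : Algebra.IsAlgebraic ℚ⟮t⟯ F := ⟨fun a => by
      obtain ⟨P, hP, e⟩ := td a t
      set g : ℤ[X] →+* ℚ⟮t⟯ := (aeval (AdjoinSimple.gen ℚ t) : ℤ[X] →ₐ[ℤ] _).toRingHom
      have hg : (algebraMap ℚ⟮t⟯ F).comp g = (aeval t : ℤ[X] →ₐ[ℤ] F).toRingHom := by
        ext <;> simp [g]
      have hi : Function.Injective g := by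
        have := transcendental_iff_injective.1 ht
        refine Function.Injective.of_comp (f := algebraMap ℚ⟮t⟯ F) ?_
        rw [← RingHom.coe_comp, hg]
        exact this
      refine ⟨P.map g, (Polynomial.map_ne_zero_iff hi).2 hP, ?_⟩
      rw [aeval_def, eval₂_map, hg, e]⟩
    exact Algebra.finite_of_essFiniteType_of_isAlgebraic
  · rintro ⟨t, ht, hf⟩
    obtain ⟨h1, h2⟩ := ess ℚ F t
    refine ⟨fun u hu => fin ℚ F h2 (tr.1 hu), fun F' _ _ _ _ => ?_⟩
    have : Algebra.EssFiniteType ℚ F' := .comp ℚ F F'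
    have hu : Transcendental ℚ (algebraMap F F' t) :=
      (transcendental_algebraMap_iff (algebraMap F F').injective).2 (tr.1 ht)
    refine ⟨_, tr.2 hu, fin ℚ F' ?_ hu⟩
    rw [← trdeg_add_eq ℚ F, trdeg_eq_zero (R := F), add_zero]
    exact h2
  · intro k _ _ _ t _ ht _
    obtain ⟨h1, h2⟩ := ess k F t
    have : IsScalarTower ℚ k F := .of_algebraMap_eq' (Subsingleton.elim _ _)
    have : Algebra.EssFiniteType ℚ F := .comp ℚ k F
    have hu : Transcendental ℚ t := ht.restrictScalars (algebraMap ℚ k).injective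
    refine ⟨t, tr.2 hu, fin ℚ F ?_ hu⟩
    rw [← trdeg_add_eq ℚ k, trdeg_eq_zero (R := ℚ), zero_add]
    exact h2

end Pool.Agent.MP_f3836a_nt.GP
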